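import Pool.Agent.Work.MP_3e81b4_47.Interface

set_option autoImplicit false

/-! Block CHAINDET: deterministic part of the chain lemma. -/

namespace Pool.ER

theorem chainDet : StmtChainDet := by
  intro V k c D w F hF hne hbad
  by_contra hcon
  push Not at hcon
  have key : ∀ i, i ≤ D → ∃ I : Finset (Fin D), BadTuple c (F i) I w ∧ I.card + i ≤ D := by
    intro i
    induction i with
    | zero =>
      intro _
      exact ⟨Finset.univ, hbad, by simp⟩
    | succ i ih =>
      intro hi
      obtain ⟨I, hI, hcard⟩ := ih (by omega)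
      obtain ⟨J, hJI, hJ⟩ := hcon i (by omega) I hI
      have := Finset.card_lt_card hJI
      exact ⟨J, hJ, by omega⟩
  obtain ⟨I, hI, hcard⟩ := key D le_rfl
  have h0 : I = ∅ := Finset.card_eq_zero.1 (by omega)
  obtain ⟨σ, hσ⟩ := hne D le_rfl
  obtain ⟨j, hj, _⟩ := hI σ hσ
  rw [h0] at hj
  exact absurd hj (Finset.notMem_empty j)

end Pool.ER
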