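import Pool.Agent.Work.MP_3e81b4_47.Interface

set_option autoImplicit false

/-! Block CHAIN: the chain lemma (Section 4). -/

namespace Pool.ER

namespace ChainH51

section ov

variable {ι κ E : Type*}

/-- replace the coordinates in the range of `j` -/
noncomputable def ov (j : κ → ι) (x₀ : ι → E) (g : κ → E) : ι → E := fun i =>
  open Classical in if h : ∃ a, j a = i then g h.choose else x₀ i

theorem ov_apply {j : κ → ι} (hj : Function.Injective j) (x₀ : ι → E) (g : κ → E) (a : κ) :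
    ov j x₀ g (j a) = g a := by
  unfold ov
  have h : ∃ b, j b = j a := ⟨a, rfl⟩
  rw [dif_pos h]
  congr 1
  exact hj h.choose_spec

theorem ov_of_not {j : κ → ι} (x₀ : ι → E) (g : κ → E) {i : ι} (hi : ∀ a, j a ≠ i) :
    ov j x₀ g i = x₀ i := by
  unfold ov
  rw [dif_neg]
  rintro ⟨a, ha⟩
  exact hi a ha

theorem avg_le_of_ov [Fintype ι] [Fintype κ] [DecidableEq ι] [DecidableEq κ] [Fintype E]
    [Nonempty E] (j : κ → ι) (hj : Function.Injective j) (f : (ι → E) → ℝ) {B : ℝ} (hB : 0 ≤ B)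
    (h : ∀ x₀ : ι → E, avg (fun g : κ → E => f (ov j x₀ g)) ≤ B) : avg f ≤ B := by
  classical
  let e : κ ⊕ {i : ι // i ∉ Set.range j} ≃ ι :=
    (Equiv.sumCongr (Equiv.ofInjective j hj) (Equiv.refl _)).trans
      (Equiv.Set.sumCompl (Set.range j))
  have he : ∀ a, e (Sum.inl a) = j a := fun a => rfl
  have he' : ∀ i, e (Sum.inr i) = i.1 := fun i => rfl
  have h1 := avg_arrow_congr (E := E) e.symm f
  rw [← h1, avg_sumArrow, avg_prod, avg_comm]
  refine avg_le_of_le hB fun h' => ?_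
  let x₀ : ι → E := fun i => if hi : i ∉ Set.range j then h' ⟨i, hi⟩ else Classical.arbitrary E
  have h2 : ∀ g : κ → E, (Sum.elim g h') ∘ e.symm = ov j x₀ g := by
    intro g
    funext i
    by_cases hi : i ∈ Set.range j
    · obtain ⟨a, rfl⟩ := hi
      rw [ov_apply hj, Function.comp_apply, ← he a, Equiv.symm_apply_apply, Sum.elim_inl]
    · have hi' : ∀ a, j a ≠ i := fun a ha => hi ⟨a, ha⟩
      rw [ov_of_not x₀ g hi', Function.comp_apply]
      have : e.symm i = Sum.inr ⟨i, hi⟩ := by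
        rw [Equiv.symm_apply_eq]
        exact (he' ⟨i, hi⟩).symm
      rw [this, Sum.elim_inr]
      simp only [x₀]
      rw [dif_pos hi]
  have h3 : (fun a : κ → E => f ((Sum.elim (a, h').1 (a, h').2) ∘ e.symm)) =
      fun g : κ → E => f (ov j x₀ g) := by
    funext g
    rw [← h2 g]
  exact (congrArg avg h3).le.trans (h x₀)

end ov

section tuple

variable {V : Type} {k : ℕ}

/-- the partial colourings of `F` that are valid for the first `m` edges of `g` -/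
def FF (F : Set (PC V k)) {T : ℕ} (g : Fin T → V × V) (m : ℕ) : Set (PC V k) :=
  {σ | σ ∈ F ∧ ∀ a : Fin T, a.1 < m → ok σ (g a)}

theorem FF_mono (F : Set (PC V k)) {T : ℕ} (g : Fin T → V × V) {m m' : ℕ} (h : m ≤ m') :
    FF F g m' ⊆ FF F g m := fun _ hσ => ⟨hσ.1, fun a ha => hσ.2 a (ha.trans_le h)⟩

theorem FF_zero (F : Set (PC V k)) {T : ℕ} (g : Fin T → V × V) : FF F g 0 = F := by
  ext σ
  exact ⟨fun h => h.1, fun h => ⟨h, fun a ha => absurd ha (Nat.not_lt_zero _)⟩⟩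

theorem ok_map {σ : PC V k} {e : V × V} (π : Equiv.Perm (Fin k)) (h : ok σ e) :
    ok (fun v => (σ v).map π) e := by
  rcases h with h | h | h
  · exact Or.inl h
  · exact Or.inr (Or.inl (by simp [h]))
  · refine Or.inr (Or.inr ?_)
    intro h'
    exact h (Option.map_injective π.injective h')

theorem FF_sym {F : Set (PC V k)} (hF : Sym F) {T : ℕ} (g : Fin T → V × V) (m : ℕ) :
    Sym (FF F g m) := fun π σ hσ => ⟨hF π σ hσ.1, fun a ha => ok_map π (hσ.2 a ha)⟩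

/-- a bad set of a symmetric nonempty family has at least three elements -/
theorem three_le (hk : 3 ≤ k) (c : Fin k) {F : Set (PC V k)} (hF : Sym F) (hne : F.Nonempty)
    {D : ℕ} {I : Finset (Fin D)} {w : Fin D → V} (hb : BadTuple c F I w) : 3 ≤ I.card := by
  classical
  by_contra hI
  push Not at hI
  obtain ⟨σ, hσ⟩ := hne
  have hcard : (I.image fun j => σ (w j)).card < (Finset.univ.image (some : Fin k → _)).card := by
    rw [Finset.card_image_of_injective _ (Option.some_injective _), Finset.card_univ,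
      Fintype.card_fin]
    exact lt_of_le_of_lt Finset.card_image_le (by omega)
  obtain ⟨x, hx, hx'⟩ := Finset.exists_mem_notMem_of_card_lt_card hcard
  obtain ⟨a, -, rfl⟩ := Finset.mem_image.1 hx
  have ha : ∀ j ∈ I, σ (w j) ≠ some a := fun j hj h =>
    hx' (Finset.mem_image.2 ⟨j, hj, h⟩)
  obtain ⟨j, hj, hj'⟩ := hb _ (hF (Equiv.swap a c) σ hσ)
  apply hj'
  intro h
  apply ha j hj
  have h' : (σ (w j)).map (Equiv.swap a c) = some c := h
  have h2 : (σ (w j)).map (Equiv.swap a c) = (some a).map (Equiv.swap a c) := by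
    rw [h']; simp
  exact Option.map_injective (Equiv.swap a c).injective h2

/-- the event of the chain -/
def Ev (c : Fin k) (F : Set (PC V k)) {D T : ℕ} (τ i : ℕ) (I : Finset (Fin D)) (w : Fin D → V)
    (g : Fin T → V × V) : Prop :=
  BadTuple c (FF F g (i * τ)) I w ∧ ∀ J, J ⊂ I → ¬ BadTuple c (FF F g ((i + 1) * τ)) J w

theorem exists_ev (hdet : StmtChainDet) (hk : 3 ≤ k) (c : Fin k) {F : Set (PC V k)} (hF : Sym F)
    {D T : ℕ} (τ : ℕ) (w : Fin D → V) (g : Fin T → V × V)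
    (hb : BadTuple c F Finset.univ w) (hv : ∃ σ ∈ F, valid σ (Set.range g)) :
    ∃ i < D, ∃ I : Finset (Fin D), 3 ≤ I.card ∧ Ev c F τ i I w g := by
  obtain ⟨σ, hσ, hσ'⟩ := hv
  have hmem : ∀ m, σ ∈ FF F g m := fun m => ⟨hσ, fun a _ => hσ' _ ⟨a, rfl⟩⟩
  obtain ⟨i, hi, I, h1, h2⟩ := hdet V k c D w (fun i => FF F g (i * τ))
    (fun i => FF_mono F g (by gcongr; exact Nat.le_succ i)) (fun i _ => ⟨σ, hmem _⟩)
    (by rw [Nat.zero_mul, FF_zero]; exact hb)
  exact ⟨i, hi, I, three_le hk c (FF_sym hF g _) ⟨σ, hmem _⟩ h1, h1, h2⟩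

/-- the event of the chain is a core event for the three coordinates `t` and the batch `s` -/
theorem ev_core (c : Fin k) (F : Set (PC V k)) {D T τ i : ℕ} (I : Finset (Fin D))
    (j : Fin 3 → Fin D) (hj : Function.Injective j) (hjI : ∀ a, j a ∈ I)
    (b : Fin τ → Fin T) (hb : Function.Injective b) (hbv : ∀ a, (b a).1 = i * τ + a.1)
    (x₀ : Fin D → V) (y₀ : Fin T → V × V) (t : Fin 3 → V) (s : Fin τ → V × V)
    (h : Ev c F τ i I (ov j x₀ t) (ov b y₀ s)) :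
    CoreEvent c {σ | σ ∈ FF F y₀ (i * τ) ∧ ∀ l ∈ I, (∀ a, j a ≠ l) → avoid c σ (x₀ l)}
      (t 0, t 1, t 2) s := by
  obtain ⟨h1, h2⟩ := h
  have hFF : FF F (ov b y₀ s) (i * τ) = FF F y₀ (i * τ) := by
    ext σ
    constructor
    · rintro ⟨a1, a2⟩
      refine ⟨a1, fun a ha => ?_⟩
      have := a2 a ha
      rwa [ov_of_not y₀ s (fun a' h' => by
        have := hbv a'; rw [h'] at this; omega)] at this
    · rintro ⟨a1, a2⟩
      refine ⟨a1, fun a ha => ?_⟩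
      rw [ov_of_not y₀ s (fun a' h' => by
        have := hbv a'; rw [h'] at this; omega)]
      exact a2 a ha
  rw [hFF] at h1
  have ht : ∀ a, ov j x₀ t (j a) = t a := fun a => ov_apply hj x₀ t a
  -- pairs
  have pair : ∀ a0 a1 a2 : Fin 3, (∀ a, a = a0 ∨ a = a1 ∨ a = a2) → a0 ≠ a2 → a1 ≠ a2 →
      PairOK c {σ | σ ∈ FF F y₀ (i * τ) ∧ ∀ l ∈ I, (∀ a, j a ≠ l) → avoid c σ (x₀ l)}
        (Set.range s) (t a0) (t a1) := by
    intro a0 a1 a2 hall h02 h12
    have hss : I.erase (j a2) ⊂ I := Finset.erase_ssubset (hjI a2)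
    have h3 := h2 _ hss
    unfold BadTuple at h3
    push Not at h3
    obtain ⟨σ, hσ, hσ'⟩ := h3
    refine ⟨σ, ⟨?_, ?_⟩, ?_, ?_, ?_⟩
    · rw [← hFF]
      exact FF_mono F _ (by gcongr; exact Nat.le_succ i) hσ
    · intro l hl hl'
      have := hσ' l (Finset.mem_erase.2 ⟨fun h => hl' a2 h.symm, hl⟩)
      rwa [ov_of_not x₀ t hl'] at this
    · rintro e ⟨a, rfl⟩
      have := hσ.2 (b a) (by
        rw [hbv a]
        have := a.2
        have e1 : (i + 1) * τ = i * τ + τ := by ring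
        omega)
      rwa [ov_apply hb y₀ s a] at this
    · have := hσ' (j a0) (Finset.mem_erase.2 ⟨fun h => h02 (hj h), hjI a0⟩)
      rwa [ht] at this
    · have := hσ' (j a1) (Finset.mem_erase.2 ⟨fun h => h12 (hj h), hjI a1⟩)
      rwa [ht] at this
  refine ⟨?_, pair 0 1 2 (by decide) (by decide) (by decide),
    pair 0 2 1 (by decide) (by decide) (by decide), pair 1 2 0 (by decide) (by decide) (by decide)⟩
  rintro σ ⟨hσ, hσ'⟩ ⟨k0, k1, k2⟩
  obtain ⟨l, hl, hl'⟩ := h1 σ hσ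
  apply hl'
  by_cases hlj : ∃ a, j a = l
  · obtain ⟨a, rfl⟩ := hlj
    rw [ht]
    have : a = 0 ∨ a = 1 ∨ a = 2 := by
      fin_cases a <;> simp
    rcases this with rfl | rfl | rfl
    · exact k0
    · exact k1
    · exact k2
  · push Not at hlj
    rw [ov_of_not x₀ t hlj]
    exact hσ' l hl hlj

/-- functions on `Fin 3` as triples -/
def tri (V : Type) : (Fin 3 → V) ≃ V × V × V where
  toFun t := (t 0, t 1, t 2)
  invFun p := ![p.1, p.2.1, p.2.2]
  left_inv t := by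
    funext a
    fin_cases a <;> rfl
  right_inv p := rfl

theorem pr_ev_le [Fintype V] [Nonempty V] (c : Fin k) (F : Set (PC V k)) {D T τ i : ℕ}
    (I : Finset (Fin D)) (hI : 3 ≤ I.card) (hiT : (i + 1) * τ ≤ T) {B : ℝ} (hB : 0 ≤ B)
    (hcore : ∀ F' : Set (PC V k),
      pr (fun p : (V × V × V) × (Fin τ → V × V) => CoreEvent c F' p.1 p.2) ≤ B) :
    pr (fun p : (Fin D → V) × (Fin T → V × V) => Ev c F τ i I p.1 p.2) ≤ B := by
  classical
  obtain ⟨I', hI', hI'c⟩ := Finset.exists_subset_card_eq hI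
  let j : Fin 3 → Fin D := fun a => (I'.equivFin.symm (Fin.cast hI'c.symm a)).1
  have hj : Function.Injective j := by
    intro a a' h
    have h1 := I'.equivFin.symm.injective (Subtype.ext h)
    exact Fin.cast_injective _ h1
  have hjI : ∀ a, j a ∈ I := fun a => hI' (I'.equivFin.symm (Fin.cast hI'c.symm a)).2
  have hlt : ∀ a : Fin τ, i * τ + a.1 < T := by
    intro a
    have := a.2
    have e1 : (i + 1) * τ = i * τ + τ := by ring
    omega
  let b : Fin τ → Fin T := fun a => ⟨i * τ + a.1, hlt a⟩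
  have hb : Function.Injective b := by
    intro a a' h
    have := congrArg Fin.val h
    simp only [b] at this
    exact Fin.ext (by omega)
  rw [pr_prod]
  refine avg_le_of_ov j hj _ hB fun x₀ => ?_
  unfold pr
  rw [avg_comm]
  refine avg_le_of_ov b hb _ hB fun y₀ => ?_
  have h1 : (avg fun s : Fin τ → V × V => avg fun t : Fin 3 → V =>
      ind (Ev c F τ i I (ov j x₀ t) (ov b y₀ s))) ≤
      avg fun s : Fin τ → V × V => avg fun t : Fin 3 → V =>
        ind (CoreEvent c {σ | σ ∈ FF F y₀ (i * τ) ∧ ∀ l ∈ I, (∀ a, j a ≠ l) → avoid c σ (x₀ l)}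
          (tri V t) s) := by
    refine avg_mono fun s => avg_mono fun t => ind_mono fun h => ?_
    exact ev_core c F I j hj hjI b hb (fun a => rfl) x₀ y₀ t s h
  refine h1.trans ?_
  rw [avg_comm]
  have h2 := hcore {σ | σ ∈ FF F y₀ (i * τ) ∧ ∀ l ∈ I, (∀ a, j a ≠ l) → avoid c σ (x₀ l)}
  rw [pr_prod, ← avg_equiv (tri V)] at h2
  exact h2

end tuple

theorem num {C₀ : ℝ} (hC : 0 < C₀) {D T : ℕ} (hD : 1 ≤ D) (hDT : D ≤ T) :
    (D : ℝ) * 2 ^ D * (C₀ * ((T / D : ℕ) : ℝ) ^ (-(51 / 50) : ℝ)) ≤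
      (4 * C₀ + 1) * (D : ℝ) ^ 3 * 4 ^ D * (T : ℝ) ^ (-(51 / 50) : ℝ) := by
  have hT : 1 ≤ T := hD.trans hDT
  have hT' : (0 : ℝ) < T := by exact_mod_cast hT
  have hD' : (0 : ℝ) < D := by exact_mod_cast hD
  have hD1 : (1 : ℝ) ≤ D := by exact_mod_cast hD
  have h1 : 1 ≤ T / D := (Nat.one_le_div_iff (by omega)).2 hDT
  have h2 : T ≤ 2 * D * (T / D) := by
    have h3 := Nat.lt_div_mul_add (a := T) (b := D) (by omega)
    nlinarith
  have h2' : (T : ℝ) / (2 * D) ≤ ((T / D : ℕ) : ℝ) := by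
    rw [div_le_iff₀ (by positivity)]
    have : (T : ℝ) ≤ 2 * D * ((T / D : ℕ) : ℝ) := by exact_mod_cast h2
    linarith
  have h3 : ((T / D : ℕ) : ℝ) ^ (-(51 / 50) : ℝ) ≤ ((T : ℝ) / (2 * D)) ^ (-(51 / 50) : ℝ) :=
    Real.rpow_le_rpow_of_nonpos (by positivity) h2' (by norm_num)
  have h4 : ((T : ℝ) / (2 * D)) ^ (-(51 / 50) : ℝ) ≤ (T : ℝ) ^ (-(51 / 50) : ℝ) * (2 * D) ^ 2 := by
    rw [Real.div_rpow hT'.le (by positivity), div_eq_mul_inv]
    refine mul_le_mul_of_nonneg_left ?_ (by positivity)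
    rw [← Real.rpow_neg (by positivity), neg_neg]
    calc ((2 : ℝ) * D) ^ ((51 / 50) : ℝ) ≤ (2 * D) ^ (2 : ℝ) :=
          Real.rpow_le_rpow_of_exponent_le (by linarith) (by norm_num)
      _ = (2 * D) ^ 2 := by norm_cast
  have h5 : (0 : ℝ) ≤ (T : ℝ) ^ (-(51 / 50) : ℝ) := by positivity
  have h6 : (2 : ℝ) ^ D ≤ 4 ^ D := pow_le_pow_left₀ (by norm_num) (by norm_num) D
  calc (D : ℝ) * 2 ^ D * (C₀ * ((T / D : ℕ) : ℝ) ^ (-(51 / 50) : ℝ))
      ≤ D * 4 ^ D * (C₀ * ((T : ℝ) ^ (-(51 / 50) : ℝ) * (2 * D) ^ 2)) := by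
        gcongr
        exact h3.trans h4
    _ = (4 * C₀) * (D : ℝ) ^ 3 * 4 ^ D * (T : ℝ) ^ (-(51 / 50) : ℝ) := by ring
    _ ≤ (4 * C₀ + 1) * (D : ℝ) ^ 3 * 4 ^ D * (T : ℝ) ^ (-(51 / 50) : ℝ) := by
        gcongr
        linarith

theorem num' {C₀ : ℝ} (hC : 0 < C₀) {D T : ℕ} (hT : 1 ≤ T) (hDT : T < D) :
    1 ≤ (4 * C₀ + 1) * (D : ℝ) ^ 3 * 4 ^ D * (T : ℝ) ^ (-(51 / 50) : ℝ) := by
  have hT' : (0 : ℝ) < T := by exact_mod_cast hT
  have hT1 : (1 : ℝ) ≤ T := by exact_mod_cast hT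
  have hTD : (T : ℝ) ≤ D := by exact_mod_cast hDT.le
  have h1 : (T : ℝ) ^ ((51 / 50) : ℝ) ≤ (D : ℝ) ^ 3 := by
    calc (T : ℝ) ^ ((51 / 50) : ℝ) ≤ (T : ℝ) ^ (3 : ℝ) :=
          Real.rpow_le_rpow_of_exponent_le hT1 (by norm_num)
      _ = (T : ℝ) ^ 3 := by norm_cast
      _ ≤ (D : ℝ) ^ 3 := pow_le_pow_left₀ hT'.le hTD 3
  have h2 : (1 : ℝ) = (T : ℝ) ^ ((51 / 50) : ℝ) * (T : ℝ) ^ (-(51 / 50) : ℝ) := by
    rw [← Real.rpow_add hT']; norm_num
  have h3 : (0 : ℝ) ≤ (T : ℝ) ^ (-(51 / 50) : ℝ) := by positivity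
  have h4 : (1 : ℝ) ≤ 4 ^ D := one_le_pow₀ (by norm_num)
  have h5 : (1 : ℝ) ≤ 4 * C₀ + 1 := by linarith
  calc (1 : ℝ) = (T : ℝ) ^ ((51 / 50) : ℝ) * (T : ℝ) ^ (-(51 / 50) : ℝ) := h2
    _ ≤ (D : ℝ) ^ 3 * (T : ℝ) ^ (-(51 / 50) : ℝ) := by gcongr
    _ = 1 * (D : ℝ) ^ 3 * 1 * (T : ℝ) ^ (-(51 / 50) : ℝ) := by ring
    _ ≤ (4 * C₀ + 1) * (D : ℝ) ^ 3 * 4 ^ D * (T : ℝ) ^ (-(51 / 50) : ℝ) := by gcongr

end ChainH51

open ChainH51 in
theorem Chain (hcore : StmtCore) (hdet : StmtChainDet) : StmtChain := by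
  classical
  intro k hk
  obtain ⟨C₀, hC₀, hcore⟩ := hcore
  refine ⟨4 * C₀ + 1, by positivity, ?_⟩
  intro c V _ _ F D T hF hT hTV
  rcases Nat.eq_zero_or_pos D with rfl | hD
  · -- `D = 0`
    have : pr (fun p : (Fin 0 → V) × (Fin T → V × V) =>
        BadTuple c F Finset.univ p.1 ∧ ∃ σ ∈ F, valid σ (Set.range p.2)) ≤ 0 := by
      refine avg_le_of_le le_rfl fun p => ?_
      rw [ind_false]
      rintro ⟨h1, σ, hσ, -⟩
      obtain ⟨j, -, -⟩ := h1 σ hσ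
      exact j.elim0
    refine this.trans ?_
    positivity
  rcases lt_or_ge T D with hTD | hTD
  · exact (pr_le_one _).trans (num' hC₀ hT hTD)
  set τ := T / D with hτ
  have hτ1 : 1 ≤ τ := (Nat.one_le_div_iff hD).2 hTD
  have hτT : D * τ ≤ T := Nat.mul_div_le T D
  have hτV : τ ≤ Fintype.card V := (Nat.div_le_self T D).trans hTV
  set B : ℝ := C₀ * (τ : ℝ) ^ (-(51 / 50) : ℝ) with hBdef
  have hB : 0 ≤ B := by positivity
  have hcore' : ∀ F' : Set (PC V k),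
      pr (fun p : (V × V × V) × (Fin τ → V × V) => CoreEvent c F' p.1 p.2) ≤ B :=
    fun F' => hcore k c V F' τ hτ1 hτV
  let Q : Finset (ℕ × Finset (Fin D)) :=
    Finset.range D ×ˢ (Finset.univ.filter fun I : Finset (Fin D) => 3 ≤ I.card)
  have h1 : pr (fun p : (Fin D → V) × (Fin T → V × V) =>
      BadTuple c F Finset.univ p.1 ∧ ∃ σ ∈ F, valid σ (Set.range p.2)) ≤
      ∑ q ∈ Q, pr (fun p : (Fin D → V) × (Fin T → V × V) => Ev c F τ q.1 q.2 p.1 p.2) := by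
    refine le_trans (pr_mono (q := fun p : (Fin D → V) × (Fin T → V × V) =>
      ∃ q ∈ Q, Ev c F τ q.1 q.2 p.1 p.2) ?_) (pr_exists_le Q _)
    rintro p ⟨hb, hv⟩
    obtain ⟨i, hi, I, hI, hE⟩ := exists_ev hdet hk c hF τ p.1 p.2 hb hv
    exact ⟨(i, I), Finset.mem_product.2 ⟨Finset.mem_range.2 hi,
      Finset.mem_filter.2 ⟨Finset.mem_univ _, hI⟩⟩, hE⟩
  have h2 : ∀ q ∈ Q, pr (fun p : (Fin D → V) × (Fin T → V × V) => Ev c F τ q.1 q.2 p.1 p.2)
      ≤ B := by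
    intro q hq
    obtain ⟨hq1, hq2⟩ := Finset.mem_product.1 hq
    have hi : q.1 < D := Finset.mem_range.1 hq1
    refine pr_ev_le c F q.2 (Finset.mem_filter.1 hq2).2 ?_ hB hcore'
    exact (Nat.mul_le_mul_right τ hi).trans hτT
  have h3 : (Q.card : ℝ) ≤ D * 2 ^ D := by
    have : Q.card ≤ D * 2 ^ D := by
      rw [Finset.card_product, Finset.card_range]
      refine Nat.mul_le_mul_left D ((Finset.card_filter_le _ _).trans ?_)
      simp
    exact_mod_cast this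
  calc _ ≤ ∑ q ∈ Q, pr (fun p : (Fin D → V) × (Fin T → V × V) => Ev c F τ q.1 q.2 p.1 p.2) := h1
    _ ≤ ∑ _q ∈ Q, B := Finset.sum_le_sum h2
    _ = Q.card * B := by rw [Finset.sum_const, nsmul_eq_mul]
    _ ≤ D * 2 ^ D * B := by gcongr
    _ ≤ _ := num hC₀ hD hTD

end Pool.ER
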