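import Pool.Agent.Work.MP_3e81b4_47.Interface

set_option autoImplicit false

/-! Block CORE: `StmtCorePar → StmtCore` (choice of the parameters). -/

namespace Pool.ER.CoreH23

open Set

/-- the error term `errT` is at most `exp (m + 202 t m - (τ - m) ρ² / 2)` -/
theorem errT_le (m τ t : ℕ) (ρ : ℝ) (ht : 1 ≤ t) (h1 : 1 ≤ τ) (hτt : (τ : ℝ) ≤ (2 * t) ^ 100) :
    Pool.ER.errT m τ ρ ≤ Real.exp ((m : ℝ) + 202 * t * m - ((τ : ℝ) - m) * ρ ^ 2 / 2) := by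
  have htR : (1 : ℝ) ≤ t := by exact_mod_cast ht
  have hτR : (1 : ℝ) ≤ τ := by exact_mod_cast h1
  have hlog : Real.log (2 * τ) ≤ 202 * t := by
    have e1 : Real.log (2 * (τ : ℝ)) ≤ Real.log ((2 * t) ^ 101) := by
      apply Real.log_le_log (by positivity)
      have : ((2 : ℝ) * t) ^ 101 = (2 * t) * (2 * t) ^ 100 := pow_succ' _ 100
      rw [this]
      exact mul_le_mul (by linarith only [htR]) hτt (by positivity) (by positivity)
    clear hτt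
    have e2 : Real.log (((2:ℝ) * t) ^ 101) = 101 * Real.log (2 * t) := by
      rw [Real.log_pow]; norm_num
    have e3 : Real.log (2 * (t:ℝ)) ≤ 2 * t := by
      have := Real.log_le_sub_one_of_pos (x := 2 * (t:ℝ)) (by positivity)
      linarith
    linarith
  have hpow : ((2 : ℝ) * τ) ^ m ≤ Real.exp (202 * t * m) := by
    have e1 : ((2 : ℝ) * τ) ^ m = Real.exp (m * Real.log (2 * τ)) := by
      rw [Real.exp_nat_mul, Real.exp_log (by positivity)]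
    rw [e1]
    apply Real.exp_le_exp.2
    have := mul_le_mul_of_nonneg_left hlog (by positivity : (0:ℝ) ≤ (m:ℝ))
    nlinarith
  have hm : (m : ℝ) + 1 ≤ Real.exp m := Real.add_one_le_exp _
  unfold Pool.ER.errT
  have e4 : Real.exp ((m : ℝ) + 202 * t * m - ((τ : ℝ) - m) * ρ ^ 2 / 2)
      = Real.exp m * Real.exp (202 * t * m) * Real.exp (-((τ : ℝ) - m) * ρ ^ 2 / 2) := by
    rw [← Real.exp_add, ← Real.exp_add]
    congr 1
    ring
  rw [e4]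
  apply mul_le_mul_of_nonneg_right _ (Real.exp_pos _).le
  exact mul_le_mul hm hpow (by positivity) (Real.exp_pos _).le

/-- `exp (-t²/2) ≤ 2^51 51! / t^102` -/
theorem exp_le (t : ℝ) (ht : 0 < t) :
    Real.exp (-(t ^ 2 / 2)) ≤ (2 ^ 51 * (Nat.factorial 51 : ℝ)) * (1 / t ^ 102) := by
  have h1 : (t ^ 2 / 2) ^ 51 / (Nat.factorial 51 : ℝ) ≤ Real.exp (t ^ 2 / 2) :=
    Real.pow_div_factorial_le_exp _ (by positivity) 51
  have hf : (0:ℝ) < (Nat.factorial 51 : ℝ) := by exact_mod_cast Nat.factorial_pos 51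
  rw [Real.exp_neg]
  have h2 : (Real.exp (t ^ 2 / 2))⁻¹ ≤ ((t ^ 2 / 2) ^ 51 / (Nat.factorial 51 : ℝ))⁻¹ :=
    inv_anti₀ (by positivity) h1
  refine h2.trans (le_of_eq ?_)
  rw [inv_div]
  field_simp

theorem core (hpar : Pool.ER.StmtCorePar) : Pool.ER.StmtCore := by
  have hf : (0:ℝ) < (Nat.factorial 51 : ℝ) := by exact_mod_cast Nat.factorial_pos 51
  set E : ℝ := 2 ^ 51 * (Nat.factorial 51 : ℝ) with hE
  have hE0 : 0 < E := by positivity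
  refine ⟨115 ^ 102 + 2 ^ 102 * (1 + 7 * E), by positivity, ?_⟩
  intro k c V _ _ F τ h1 h2
  have hτR : (1 : ℝ) ≤ τ := by exact_mod_cast h1
  have hτ0 : (0 : ℝ) < τ := by linarith
  obtain ⟨t, ht1, ht2, ht3⟩ : ∃ t : ℕ, 1 ≤ t ∧ t ^ 100 ≤ τ ∧ τ < (t + 1) ^ 100 := by
    refine ⟨⌊(τ : ℝ) ^ (1 / 100 : ℝ)⌋₊, ?_, ?_, ?_⟩
    · apply Nat.le_floor
      have : (1:ℝ) ≤ (τ : ℝ) ^ (1 / 100 : ℝ) := Real.one_le_rpow hτR (by norm_num)
      simpa using this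
    · have : ((⌊(τ : ℝ) ^ (1 / 100 : ℝ)⌋₊ : ℝ)) ^ 100 ≤ τ := by
        have e1 : ((⌊(τ : ℝ) ^ (1 / 100 : ℝ)⌋₊ : ℝ)) ≤ (τ : ℝ) ^ (1 / 100 : ℝ) :=
          Nat.floor_le (by positivity)
        refine (pow_le_pow_left₀ (by positivity) e1 100).trans (le_of_eq ?_)
        rw [← Real.rpow_natCast, ← Real.rpow_mul hτ0.le]
        norm_num
      exact_mod_cast this
    · have : (τ : ℝ) < (((⌊(τ : ℝ) ^ (1 / 100 : ℝ)⌋₊ : ℝ)) + 1) ^ 100 := by
        have e1 : (τ : ℝ) ^ (1 / 100 : ℝ) < ((⌊(τ : ℝ) ^ (1 / 100 : ℝ)⌋₊ : ℝ)) + 1 :=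
          Nat.lt_floor_add_one _
        have e2 : (τ : ℝ) = ((τ : ℝ) ^ (1 / 100 : ℝ)) ^ 100 := by
          rw [← Real.rpow_natCast, ← Real.rpow_mul hτ0.le]
          norm_num
        calc (τ : ℝ) = ((τ : ℝ) ^ (1 / 100 : ℝ)) ^ 100 := e2
          _ < _ := pow_lt_pow_left₀ e1 (by positivity) (by norm_num)
      exact_mod_cast this
  have htR1 : (1 : ℝ) ≤ t := by exact_mod_cast ht1
  have hτt2 : (τ : ℝ) ≤ (2 * t) ^ 100 := by
    have : (τ : ℝ) < ((t : ℝ) + 1) ^ 100 := by exact_mod_cast ht3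
    exact this.le.trans (pow_le_pow_left₀ (by positivity) (by linarith only [htR1]) 100)
  have hsmall : t < 115 → (τ : ℝ) ≤ 115 ^ 100 := by
    intro hcase
    have : τ < 115 ^ 100 := lt_of_lt_of_le ht3 (Nat.pow_le_pow_left (Nat.succ_le_of_lt hcase) 100)
    have h3 : (τ : ℝ) < (115 : ℝ) ^ 100 := by exact_mod_cast this
    exact h3.le
  clear ht3
  have hτneg : (τ : ℝ) ^ (-(51 / 50) : ℝ) = 1 / (τ : ℝ) ^ (51 / 50 : ℝ) := by
    rw [Real.rpow_neg hτ0.le, one_div]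
  have hτpos : 0 < (τ : ℝ) ^ (51 / 50 : ℝ) := Real.rpow_pos_of_pos hτ0 _
  by_cases hcase : t < 115
  · -- small `t`
    have hb : (τ : ℝ) ≤ 115 ^ 100 := hsmall hcase
    have hb2 : (τ : ℝ) ^ (51 / 50 : ℝ) ≤ 115 ^ 102 := by
      refine (Real.rpow_le_rpow hτ0.le hb (by norm_num)).trans (le_of_eq ?_)
      rw [← Real.rpow_natCast (115 : ℝ) 100, ← Real.rpow_mul (by norm_num : (0:ℝ) ≤ 115),
        ← Real.rpow_natCast (115 : ℝ) 102]
      norm_num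
    refine (Pool.ER.pr_le_one _).trans ?_
    rw [hτneg, mul_one_div, le_div_iff₀ hτpos]
    have h5 : (0:ℝ) ≤ 2 ^ 102 * (1 + 7 * E) := by positivity
    linarith
  · -- large `t`
    clear hsmall
    have ht : 115 ≤ t := not_lt.1 hcase
    have htR : (115 : ℝ) ≤ t := by exact_mod_cast ht
    have ht0 : (0 : ℝ) < t := by linarith
    have hτt : (t : ℝ) ^ 100 ≤ τ := by exact_mod_cast ht2
    have hn : (t : ℝ) ^ 100 ≤ Pool.ER.nn V := by
      unfold Pool.ER.nn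
      refine hτt.trans ?_
      exact_mod_cast h2
    have hpw : ∀ j : ℕ, (1:ℝ) ≤ (t:ℝ) ^ j := fun j => one_le_pow₀ htR1
    have hkey := hpar k c V F τ (t ^ 49) (t ^ 37) (1 / (t:ℝ) ^ 49) (1 / (t:ℝ) ^ 73)
      (1 / (t:ℝ) ^ 102) (1 / (t:ℝ) ^ 37) (by positivity) (by positivity) (by positivity)
      (by positivity) ?_ ?_ ?_ ?_ ?_ ?_ ?_ ?_ ?_
    · refine hkey.trans ?_
      have hx1 : Real.exp (-(τ : ℝ) * (1 / (t:ℝ) ^ 49) ^ 2 / 2) ≤ E * (1 / (t:ℝ) ^ 102) := by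
        refine le_trans (Real.exp_le_exp.2 ?_) (exp_le t ht0)
        have e1 : (t:ℝ) ^ 2 ≤ (τ : ℝ) * (1 / (t:ℝ) ^ 49) ^ 2 := by
          have e2 : (t:ℝ) ^ 2 = (t:ℝ) ^ 100 * (1 / (t:ℝ) ^ 49) ^ 2 := by field_simp
          rw [e2]
          exact mul_le_mul_of_nonneg_right hτt (by positivity)
        linarith
      have hx2 : Pool.ER.errT (t ^ 49) τ (1 / (t:ℝ) ^ 73 / (4 * (1 / (t:ℝ) ^ 49)))
          ≤ E * (1 / (t:ℝ) ^ 102) := by
        refine (errT_le (t ^ 49) τ t _ ht1 h1 hτt2).trans ?_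
        refine le_trans (Real.exp_le_exp.2 ?_) (exp_le t ht0)
        have e1 : (1 / (t:ℝ) ^ 73 / (4 * (1 / (t:ℝ) ^ 49))) = 1 / (4 * (t:ℝ) ^ 24) := by
          field_simp
        rw [e1]
        push_cast
        have e2 : (t:ℝ) ^ 49 ≤ (t:ℝ) ^ 100 / 2 := by
          have e3 : (t:ℝ) ^ 100 = (t:ℝ) ^ 49 * (t:ℝ) ^ 51 := by ring
          have e4 : (2:ℝ) ≤ (t:ℝ) ^ 51 := by
            have : (t:ℝ) ^ 51 = t * (t:ℝ) ^ 50 := by ring
            rw [this]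
            nlinarith [hpw 50]
          rw [e3]
          have := hpw 49
          nlinarith
        have e5 : (t:ℝ) ^ 100 / 2 ≤ (τ:ℝ) - (t:ℝ) ^ 49 := by linarith
        have e6 : (t:ℝ) ^ 52 / 64 ≤ ((τ:ℝ) - (t:ℝ) ^ 49) * (1 / (4 * (t:ℝ) ^ 24)) ^ 2 / 2 := by
          have e7 : (t:ℝ) ^ 52 / 64 = ((t:ℝ) ^ 100 / 2) * (1 / (4 * (t:ℝ) ^ 24)) ^ 2 / 2 := by
            field_simp; norm_num
          rw [e7]
          have := mul_le_mul_of_nonneg_right e5 (by positivity : (0:ℝ) ≤ (1 / (4 * (t:ℝ) ^ 24)) ^ 2)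
          linarith
        have e8 : (t:ℝ) ^ 49 + 202 * t * (t:ℝ) ^ 49 + (t:ℝ) ^ 2 / 2 ≤ (t:ℝ) ^ 52 / 64 := by
          have g1 : (t:ℝ) ^ 49 ≤ (t:ℝ) ^ 50 := pow_le_pow_right₀ htR1 (by norm_num)
          have g2 : (t:ℝ) ^ 2 ≤ (t:ℝ) ^ 50 := pow_le_pow_right₀ htR1 (by norm_num)
          have g3 : (t:ℝ) * (t:ℝ) ^ 49 = (t:ℝ) ^ 50 := by ring
          have g4 : (t:ℝ) ^ 52 = (t:ℝ) ^ 2 * (t:ℝ) ^ 50 := by ring
          have g5 : (13225:ℝ) ≤ (t:ℝ) ^ 2 := by nlinarith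
          have g6 := hpw 50
          rw [g4]
          nlinarith
        linarith
      have hx3 : Pool.ER.errT (t ^ 37) τ (1 / (t:ℝ) ^ 102 / (128 * (1 / (t:ℝ) ^ 73)))
          ≤ E * (1 / (t:ℝ) ^ 102) := by
        refine (errT_le (t ^ 37) τ t _ ht1 h1 hτt2).trans ?_
        refine le_trans (Real.exp_le_exp.2 ?_) (exp_le t ht0)
        have e1 : (1 / (t:ℝ) ^ 102 / (128 * (1 / (t:ℝ) ^ 73))) = 1 / (128 * (t:ℝ) ^ 29) := by
          field_simp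
        rw [e1]
        push_cast
        have e2 : (t:ℝ) ^ 37 ≤ (t:ℝ) ^ 100 / 2 := by
          have e3 : (t:ℝ) ^ 100 = (t:ℝ) ^ 37 * (t:ℝ) ^ 63 := by ring
          have e4 : (2:ℝ) ≤ (t:ℝ) ^ 63 := by
            have : (t:ℝ) ^ 63 = t * (t:ℝ) ^ 62 := by ring
            rw [this]
            nlinarith [hpw 62]
          rw [e3]
          have := hpw 37
          nlinarith
        have e5 : (t:ℝ) ^ 100 / 2 ≤ (τ:ℝ) - (t:ℝ) ^ 37 := by linarith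
        have e6 : (t:ℝ) ^ 42 / 65536 ≤
            ((τ:ℝ) - (t:ℝ) ^ 37) * (1 / (128 * (t:ℝ) ^ 29)) ^ 2 / 2 := by
          have e7 : (t:ℝ) ^ 42 / 65536 =
              ((t:ℝ) ^ 100 / 2) * (1 / (128 * (t:ℝ) ^ 29)) ^ 2 / 2 := by
            field_simp; norm_num
          rw [e7]
          have := mul_le_mul_of_nonneg_right e5
            (by positivity : (0:ℝ) ≤ (1 / (128 * (t:ℝ) ^ 29)) ^ 2)
          linarith
        have e8 : (t:ℝ) ^ 37 + 202 * t * (t:ℝ) ^ 37 + (t:ℝ) ^ 2 / 2 ≤ (t:ℝ) ^ 42 / 65536 := by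
          have g1 : (t:ℝ) ^ 37 ≤ (t:ℝ) ^ 38 := pow_le_pow_right₀ htR1 (by norm_num)
          have g2 : (t:ℝ) ^ 2 ≤ (t:ℝ) ^ 38 := pow_le_pow_right₀ htR1 (by norm_num)
          have g3 : (t:ℝ) * (t:ℝ) ^ 37 = (t:ℝ) ^ 38 := by ring
          have g4 : (t:ℝ) ^ 42 = (t:ℝ) ^ 4 * (t:ℝ) ^ 38 := by ring
          have g5 : (13225:ℝ) ≤ (t:ℝ) ^ 2 := by nlinarith
          have g5' : (13225 ^ 2:ℝ) ≤ (t:ℝ) ^ 4 := by
            have : (t:ℝ) ^ 4 = ((t:ℝ) ^ 2) ^ 2 := by ring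
            rw [this]
            exact pow_le_pow_left₀ (by norm_num) g5 2
          have g6 := hpw 38
          rw [g4]
          nlinarith
        linarith
      have hx4 : 1 / (t:ℝ) ^ 102 ≤ 2 ^ 102 * (τ : ℝ) ^ (-(51 / 50) : ℝ) := by
        rw [hτneg]
        have e1 : (τ : ℝ) ^ (51 / 50 : ℝ) ≤ (2 * t) ^ 102 := by
          refine (Real.rpow_le_rpow hτ0.le hτt2 (by norm_num)).trans (le_of_eq ?_)
          rw [← Real.rpow_natCast (2 * (t:ℝ)) 100, ← Real.rpow_mul (by positivity),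
            ← Real.rpow_natCast (2 * (t:ℝ)) 102]
          norm_num
        rw [mul_one_div, div_le_div_iff₀ (by positivity) hτpos]
        have e2 : ((2:ℝ) * t) ^ 102 = 2 ^ 102 * (t:ℝ) ^ 102 := by ring
        linarith
      have hx5 : 0 ≤ (τ : ℝ) ^ (-(51 / 50) : ℝ) := by positivity
      have hx6 : (1 + 7 * E) * (1 / (t:ℝ) ^ 102)
          ≤ (1 + 7 * E) * (2 ^ 102 * (τ : ℝ) ^ (-(51 / 50) : ℝ)) :=
        mul_le_mul_of_nonneg_left hx4 (by positivity)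
      have hx7 : 0 ≤ (115:ℝ) ^ 102 * (τ : ℝ) ^ (-(51 / 50) : ℝ) := by positivity
      have hx8 : (1 / (t:ℝ) ^ 102) + 3 * (E * (1 / (t:ℝ) ^ 102)) + 3 * (E * (1 / (t:ℝ) ^ 102))
          + E * (1 / (t:ℝ) ^ 102) = (1 + 7 * E) * (1 / (t:ℝ) ^ 102) := by ring
      have hx9 : (115 ^ 102 + 2 ^ 102 * (1 + 7 * E)) * (τ : ℝ) ^ (-(51 / 50) : ℝ)
          = 115 ^ 102 * (τ : ℝ) ^ (-(51 / 50) : ℝ) +
            (1 + 7 * E) * (2 ^ 102 * (τ : ℝ) ^ (-(51 / 50) : ℝ)) := by ring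
      rw [hx9]
      refine le_trans (add_le_add (add_le_add (add_le_add (le_refl _)
        (mul_le_mul_of_nonneg_left hx1 (by norm_num))) (mul_le_mul_of_nonneg_left hx2 (by norm_num)))
        hx3) ?_
      rw [hx8]
      linarith
    · -- lam ≤ D / 2
      rw [div_div, div_le_div_iff₀ (by positivity) (by positivity)]
      have : (t:ℝ) ^ 49 = (t:ℝ) ^ 37 * (t * (t:ℝ) ^ 11) := by ring
      rw [this]
      have h3 : (2:ℝ) ≤ t * (t:ℝ) ^ 11 := by nlinarith [hpw 11]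
      nlinarith [hpw 37]
    · -- D lam ≤ 4 kap
      rw [div_mul_div_comm, one_mul, mul_one_div, div_le_div_iff₀ (by positivity) (by positivity)]
      have : (t:ℝ) ^ 37 * (t:ℝ) ^ 49 = (t:ℝ) ^ 73 * (t:ℝ) ^ 13 := by ring
      rw [this]
      nlinarith [hpw 13, hpw 73, mul_le_mul_of_nonneg_left (hpw 13)
        (by positivity : (0:ℝ) ≤ (t:ℝ) ^ 73)]
    · exact (Nat.pow_le_pow_right ht1 (by norm_num)).trans ht2
    · push_cast
      rw [div_le_iff₀ (by positivity)]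
      have : (t:ℝ) ^ 49 * (2 * (1 / (t:ℝ) ^ 49)) = 2 := by field_simp
      rw [this]; norm_num
    · exact (Nat.pow_le_pow_right ht1 (by norm_num)).trans ht2
    · push_cast
      have e1 : 1 / (t:ℝ) ^ 37 / (16 * (1 / (t:ℝ) ^ 73)) = (t:ℝ) ^ 36 / 16 := by
        field_simp
      have e2 : 1 / (2 * (1 / (t:ℝ) ^ 37)) = (t:ℝ) ^ 37 / 2 := by
        field_simp
      rw [e1, e2]
      have e3 : (t:ℝ) ^ 37 = t * (t:ℝ) ^ 36 := by ring
      rw [e3]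
      nlinarith [hpw 36]
    · -- 2 ≤ lam n
      have : (1 / (t:ℝ) ^ 49) * (t:ℝ) ^ 100 ≤ 1 / (t:ℝ) ^ 49 * Pool.ER.nn V :=
        mul_le_mul_of_nonneg_left hn (by positivity)
      refine le_trans ?_ this
      have e1 : (1 / (t:ℝ) ^ 49) * (t:ℝ) ^ 100 = t * (t:ℝ) ^ 50 := by field_simp
      rw [e1]
      nlinarith [hpw 50]
    · have e0 : (1 / (t:ℝ) ^ 73 / (4 * (1 / (t:ℝ) ^ 49))) = 1 / (4 * (t:ℝ) ^ 24) := by
        field_simp
      rw [e0]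
      have : 1 / (4 * (t:ℝ) ^ 24) * (t:ℝ) ^ 100 ≤ 1 / (4 * (t:ℝ) ^ 24) * Pool.ER.nn V :=
        mul_le_mul_of_nonneg_left hn (by positivity)
      refine le_trans ?_ this
      have e1 : 1 / (4 * (t:ℝ) ^ 24) * (t:ℝ) ^ 100 = t * (t:ℝ) ^ 75 / 4 := by field_simp
      rw [e1]
      nlinarith [hpw 75]
    · have e0 : (1 / (t:ℝ) ^ 102 / (128 * (1 / (t:ℝ) ^ 73))) = 1 / (128 * (t:ℝ) ^ 29) := by
        field_simp
      rw [e0]
      have : 1 / (128 * (t:ℝ) ^ 29) * (t:ℝ) ^ 100 ≤ 1 / (128 * (t:ℝ) ^ 29) * Pool.ER.nn V :=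
        mul_le_mul_of_nonneg_left hn (by positivity)
      refine le_trans ?_ this
      have e1 : 1 / (128 * (t:ℝ) ^ 29) * (t:ℝ) ^ 100 = t ^ 2 * (t:ℝ) ^ 69 / 128 := by
        field_simp
      rw [e1]
      have g5 : (13225:ℝ) ≤ (t:ℝ) ^ 2 := by nlinarith
      nlinarith [hpw 69]

end Pool.ER.CoreH23
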