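import Pool.Agent.Work.MP_3e81b4_47.Interface

set_option autoImplicit false

/-! Parametric core lemma (section 3 of note 2410). -/

namespace Pool.ER

open Set

namespace CoreP

variable {V : Type} {k : ℕ}

theorem tr_of_valid (c : Fin k) {τ : ℕ} (σ : PC V k) (g : Fin τ → V × V) (h : valid σ (range g)) :
    Tr {v | avoid c σ v} g := by
  intro i hi
  by_contra hcon
  rw [not_or] at hcon
  obtain ⟨h1, h2⟩ := hcon
  have h1' : σ (g i).1 = some c := by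
    by_contra h3; exact h1 h3
  have h2' : σ (g i).2 = some c := by
    by_contra h3; exact h2 h3
  rcases h (g i) ⟨i, rfl⟩ with h4 | h4 | h4
  · exact hi h4
  · rw [h1'] at h4; exact Option.some_ne_none _ h4
  · exact h4 (h1'.trans h2'.symm)

theorem errT_nonneg (m τ : ℕ) (ρ : ℝ) : 0 ≤ errT m τ ρ := by
  unfold errT; positivity

/-- bad triples -/
def M (c : Fin k) (F : Set (PC V k)) : Set (V × V × V) := {w | BadTriple c F w}

def L1 (c : Fin k) (F : Set (PC V k)) (x y : V) : Set V := {z | (x, y, z) ∈ M c F}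
def L2 (c : Fin k) (F : Set (PC V k)) (x z : V) : Set V := {y | (x, y, z) ∈ M c F}
def L3 (c : Fin k) (F : Set (PC V k)) (y z : V) : Set V := {x | (x, y, z) ∈ M c F}

/-- bad triples with light lines -/
def M0 (c : Fin k) (F : Set (PC V k)) (a : ℝ) : Set (V × V × V) :=
  {w | w ∈ M c F ∧ ((L1 c F w.1 w.2.1).ncard : ℝ) < a ∧ ((L2 c F w.1 w.2.2).ncard : ℝ) < a ∧
    ((L3 c F w.2.1 w.2.2).ncard : ℝ) < a}

def P1 (c : Fin k) (F : Set (PC V k)) (a : ℝ) (x : V) : Set (V × V) := {p | (x, p.1, p.2) ∈ M0 c F a}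
def P2 (c : Fin k) (F : Set (PC V k)) (a : ℝ) (y : V) : Set (V × V) := {p | (p.1, y, p.2) ∈ M0 c F a}
def P3 (c : Fin k) (F : Set (PC V k)) (a : ℝ) (z : V) : Set (V × V) := {p | (p.1, p.2, z) ∈ M0 c F a}

/-- bad triples with light lines and light planes -/
def M1 (c : Fin k) (F : Set (PC V k)) (a b : ℝ) : Set (V × V × V) :=
  {w | w ∈ M0 c F a ∧ ((P1 c F a w.1).ncard : ℝ) < b ∧ ((P2 c F a w.2.1).ncard : ℝ) < b ∧
    ((P3 c F a w.2.2).ncard : ℝ) < b}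

variable [Fintype V]

theorem line1 (c : Fin k) (F : Set (PC V k)) {a : ℝ} (ha : 0 ≤ a) (T : Set (V × V × V))
    (hT : T ⊆ M0 c F a) (x y : V) : (({z | (x, y, z) ∈ T} : Set V).ncard : ℝ) ≤ a := by
  rcases ({z | (x, y, z) ∈ T} : Set V).eq_empty_or_nonempty with h | ⟨z0, hz0⟩
  · rw [h, Set.ncard_empty]; simpa using ha
  · have h1 : ({z | (x, y, z) ∈ T} : Set V).ncard ≤ (L1 c F x y).ncard :=
      Set.ncard_le_ncard (fun z hz => (hT hz).1) (Set.toFinite _)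
    have h2 := (hT hz0).2.1
    have h1' : (({z | (x, y, z) ∈ T} : Set V).ncard : ℝ) ≤ ((L1 c F x y).ncard : ℝ) := by exact_mod_cast h1
    exact h1'.trans h2.le

theorem line2 (c : Fin k) (F : Set (PC V k)) {a : ℝ} (ha : 0 ≤ a) (T : Set (V × V × V))
    (hT : T ⊆ M0 c F a) (x z : V) : (({y | (x, y, z) ∈ T} : Set V).ncard : ℝ) ≤ a := by
  rcases ({y | (x, y, z) ∈ T} : Set V).eq_empty_or_nonempty with h | ⟨z0, hz0⟩
  · rw [h, Set.ncard_empty]; simpa using ha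
  · have h1 : ({y | (x, y, z) ∈ T} : Set V).ncard ≤ (L2 c F x z).ncard :=
      Set.ncard_le_ncard (fun y hy => (hT hy).1) (Set.toFinite _)
    have h2 := (hT hz0).2.2.1
    have h1' : (({y | (x, y, z) ∈ T} : Set V).ncard : ℝ) ≤ ((L2 c F x z).ncard : ℝ) := by exact_mod_cast h1
    exact h1'.trans h2.le

theorem line3 (c : Fin k) (F : Set (PC V k)) {a : ℝ} (ha : 0 ≤ a) (T : Set (V × V × V))
    (hT : T ⊆ M0 c F a) (y z : V) : (({x | (x, y, z) ∈ T} : Set V).ncard : ℝ) ≤ a := by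
  rcases ({x | (x, y, z) ∈ T} : Set V).eq_empty_or_nonempty with h | ⟨z0, hz0⟩
  · rw [h, Set.ncard_empty]; simpa using ha
  · have h1 : ({x | (x, y, z) ∈ T} : Set V).ncard ≤ (L3 c F y z).ncard :=
      Set.ncard_le_ncard (fun x hx => (hT hx).1) (Set.toFinite _)
    have h2 := (hT hz0).2.2.2
    have h1' : (({x | (x, y, z) ∈ T} : Set V).ncard : ℝ) ≤ ((L3 c F y z).ncard : ℝ) := by exact_mod_cast h1
    exact h1'.trans h2.le

theorem plane1 (c : Fin k) (F : Set (PC V k)) {a b : ℝ} (hb : 0 ≤ b) (x : V) :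
    (({p | (x, p.1, p.2) ∈ M1 c F a b} : Set (V × V)).ncard : ℝ) ≤ b := by
  rcases ({p | (x, p.1, p.2) ∈ M1 c F a b} : Set (V × V)).eq_empty_or_nonempty with h | ⟨z0, hz0⟩
  · rw [h, Set.ncard_empty]; simpa using hb
  · have h1 : ({p | (x, p.1, p.2) ∈ M1 c F a b} : Set (V × V)).ncard ≤ (P1 c F a x).ncard :=
      Set.ncard_le_ncard (fun p hp => hp.1) (Set.toFinite _)
    have h2 := hz0.2.1
    have h1' : (({p | (x, p.1, p.2) ∈ M1 c F a b} : Set (V × V)).ncard : ℝ) ≤ ((P1 c F a x).ncard : ℝ) := by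
      exact_mod_cast h1
    exact h1'.trans h2.le

theorem plane2 (c : Fin k) (F : Set (PC V k)) {a b : ℝ} (hb : 0 ≤ b) (y : V) :
    (({p | (p.1, y, p.2) ∈ M1 c F a b} : Set (V × V)).ncard : ℝ) ≤ b := by
  rcases ({p | (p.1, y, p.2) ∈ M1 c F a b} : Set (V × V)).eq_empty_or_nonempty with h | ⟨z0, hz0⟩
  · rw [h, Set.ncard_empty]; simpa using hb
  · have h1 : ({p | (p.1, y, p.2) ∈ M1 c F a b} : Set (V × V)).ncard ≤ (P2 c F a y).ncard :=
      Set.ncard_le_ncard (fun p hp => hp.1) (Set.toFinite _)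
    have h2 := hz0.2.2.1
    have h1' : (({p | (p.1, y, p.2) ∈ M1 c F a b} : Set (V × V)).ncard : ℝ) ≤ ((P2 c F a y).ncard : ℝ) := by
      exact_mod_cast h1
    exact h1'.trans h2.le

theorem plane3 (c : Fin k) (F : Set (PC V k)) {a b : ℝ} (hb : 0 ≤ b) (z : V) :
    (({p | (p.1, p.2, z) ∈ M1 c F a b} : Set (V × V)).ncard : ℝ) ≤ b := by
  rcases ({p | (p.1, p.2, z) ∈ M1 c F a b} : Set (V × V)).eq_empty_or_nonempty with h | ⟨z0, hz0⟩
  · rw [h, Set.ncard_empty]; simpa using hb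
  · have h1 : ({p | (p.1, p.2, z) ∈ M1 c F a b} : Set (V × V)).ncard ≤ (P3 c F a z).ncard :=
      Set.ncard_le_ncard (fun p hp => hp.1) (Set.toFinite _)
    have h2 := hz0.2.2.2
    have h1' : (({p | (p.1, p.2, z) ∈ M1 c F a b} : Set (V × V)).ncard : ℝ) ≤ ((P3 c F a z).ncard : ℝ) := by
      exact_mod_cast h1
    exact h1'.trans h2.le

/-- heavy-or-zero bound -/
theorem pr_and_le {Ω : Type*} [Fintype Ω] (H : Prop) (p : Ω → Prop) {c : ℝ} (hc : 0 ≤ c)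
    (h : H → pr p ≤ c) : pr (fun ω => H ∧ p ω) ≤ c := by
  by_cases hH : H
  · exact (pr_mono fun ω hω => hω.2).trans (h hH)
  · have : pr (fun ω => H ∧ p ω) ≤ pr (fun _ : Ω => False) := pr_mono fun ω hω => hH hω.1
    refine this.trans ?_
    unfold pr
    apply avg_le_of_le hc
    intro ω
    rw [ind_false (fun h => h)]
    exact hc

end CoreP

open CoreP

theorem corepar : StmtKL1 → StmtKL2 → StmtKL3 → StmtCorePar := by
  intro hKL1 hKL2 hKL3 k c V _ _ F τ m2 m3 lam kap gam D hlam hkap hgam hD h1 h2 hm2 hm2' hm3 hm3' hn1 hn2 hn3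
  set n : ℝ := nn V with hn
  have hn0 : 0 < n := by
    rw [hn]; unfold nn; exact_mod_cast Fintype.card_pos
  set a : ℝ := lam * n with ha
  set b : ℝ := kap * n ^ 2 with hb
  have ha0 : 0 ≤ a := by rw [ha]; positivity
  have hb0 : 0 ≤ b := by rw [hb]; positivity
  set e1 : ℝ := Real.exp (-(τ : ℝ) * lam ^ 2 / 2) with he1
  have he1' : 0 ≤ e1 := (Real.exp_pos _).le
  set e2 : ℝ := errT m2 τ (kap / (4 * lam)) with he2
  have he2' : 0 ≤ e2 := errT_nonneg _ _ _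
  set e3 : ℝ := errT m3 τ (gam / (128 * kap)) with he3
  have he3' : 0 ≤ e3 := errT_nonneg _ _ _
  -- decomposition of the event
  let A1 : (V × V × V) × (Fin τ → V × V) → Prop := fun p =>
    a ≤ ((L1 c F p.1.1 p.1.2.1).ncard : ℝ) ∧ NotKill1 (L1 c F p.1.1 p.1.2.1) p.2
  let A2 : (V × V × V) × (Fin τ → V × V) → Prop := fun p =>
    a ≤ ((L2 c F p.1.1 p.1.2.2).ncard : ℝ) ∧ NotKill1 (L2 c F p.1.1 p.1.2.2) p.2
  let A3 : (V × V × V) × (Fin τ → V × V) → Prop := fun p =>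
    a ≤ ((L3 c F p.1.2.1 p.1.2.2).ncard : ℝ) ∧ NotKill1 (L3 c F p.1.2.1 p.1.2.2) p.2
  let B1 : (V × V × V) × (Fin τ → V × V) → Prop := fun p =>
    b ≤ ((P1 c F a p.1.1).ncard : ℝ) ∧ NotKill2 (P1 c F a p.1.1) p.2
  let B2 : (V × V × V) × (Fin τ → V × V) → Prop := fun p =>
    b ≤ ((P2 c F a p.1.2.1).ncard : ℝ) ∧ NotKill2 (P2 c F a p.1.2.1) p.2
  let B3 : (V × V × V) × (Fin τ → V × V) → Prop := fun p =>
    b ≤ ((P3 c F a p.1.2.2).ncard : ℝ) ∧ NotKill2 (P3 c F a p.1.2.2) p.2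
  let C1 : (V × V × V) × (Fin τ → V × V) → Prop := fun p =>
    p.1 ∈ M1 c F a b ∧ NotKill3 (M1 c F a b) p.2
  have hsub : pr (fun p : (V × V × V) × (Fin τ → V × V) => CoreEvent c F p.1 p.2) ≤
      pr (fun p => A1 p ∨ A2 p ∨ A3 p ∨ B1 p ∨ B2 p ∨ B3 p ∨ C1 p) := by
    apply pr_mono
    rintro ⟨⟨x, y, z⟩, g⟩ ⟨hbad, hxy, hxz, hyz⟩
    simp only at hbad hxy hxz hyz
    have hM : (x, y, z) ∈ M c F := hbad
    by_cases hA1 : a ≤ ((L1 c F x y).ncard : ℝ)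
    · left
      refine ⟨hA1, ?_⟩
      obtain ⟨σ, hσ, hval, h3, h4⟩ := hxy
      refine ⟨{v | avoid c σ v}, tr_of_valid c σ g hval, ?_⟩
      intro w hw hw'
      exact hw σ hσ ⟨h3, h4, hw'⟩
    by_cases hA2 : a ≤ ((L2 c F x z).ncard : ℝ)
    · right; left
      refine ⟨hA2, ?_⟩
      obtain ⟨σ, hσ, hval, h3, h4⟩ := hxz
      refine ⟨{v | avoid c σ v}, tr_of_valid c σ g hval, ?_⟩
      intro w hw hw'
      exact hw σ hσ ⟨h3, hw', h4⟩
    by_cases hA3 : a ≤ ((L3 c F y z).ncard : ℝ)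
    · right; right; left
      refine ⟨hA3, ?_⟩
      obtain ⟨σ, hσ, hval, h3, h4⟩ := hyz
      refine ⟨{v | avoid c σ v}, tr_of_valid c σ g hval, ?_⟩
      intro w hw hw'
      exact hw σ hσ ⟨hw', h3, h4⟩
    rw [not_le] at hA1 hA2 hA3
    have hM0 : (x, y, z) ∈ M0 c F a := ⟨hM, hA1, hA2, hA3⟩
    by_cases hB1 : b ≤ ((P1 c F a x).ncard : ℝ)
    · right; right; right; left
      refine ⟨hB1, ?_⟩
      obtain ⟨σ, hσ, hval, h3, h4⟩ := hxy
      refine ⟨{v | avoid c σ v}, tr_of_valid c σ g hval, ?_⟩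
      rintro ⟨u, w⟩ hw ⟨hw1, hw2⟩
      exact hw.1 σ hσ ⟨h3, hw1, hw2⟩
    by_cases hB2 : b ≤ ((P2 c F a y).ncard : ℝ)
    · right; right; right; right; left
      refine ⟨hB2, ?_⟩
      obtain ⟨σ, hσ, hval, h3, h4⟩ := hxy
      refine ⟨{v | avoid c σ v}, tr_of_valid c σ g hval, ?_⟩
      rintro ⟨u, w⟩ hw ⟨hw1, hw2⟩
      exact hw.1 σ hσ ⟨hw1, h4, hw2⟩
    by_cases hB3 : b ≤ ((P3 c F a z).ncard : ℝ)
    · right; right; right; right; right; left
      refine ⟨hB3, ?_⟩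
      obtain ⟨σ, hσ, hval, h3, h4⟩ := hxz
      refine ⟨{v | avoid c σ v}, tr_of_valid c σ g hval, ?_⟩
      rintro ⟨u, w⟩ hw ⟨hw1, hw2⟩
      exact hw.1 σ hσ ⟨hw1, hw2, h4⟩
    rw [not_le] at hB1 hB2 hB3
    right; right; right; right; right; right
    refine ⟨⟨hM0, hB1, hB2, hB3⟩, ?_⟩
    obtain ⟨σ, hσ, hval, h3, h4⟩ := hxy
    refine ⟨{v | avoid c σ v}, tr_of_valid c σ g hval, ?_⟩
    rintro ⟨u, v, w⟩ hw ⟨hw1, hw2, hw3⟩
    exact hw.1.1 σ hσ ⟨hw1, hw2, hw3⟩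
  have key1 : ∀ R : Set V, a ≤ ((R.ncard : ℕ) : ℝ) →
      pr (fun g : Fin τ → V × V => NotKill1 R g) ≤ e1 := fun R h => hKL1 V R τ lam hlam hn1 h
  have key2 : ∀ B : Set (V × V), b ≤ ((B.ncard : ℕ) : ℝ) →
      (∀ v, (({z | (v, z) ∈ B} : Set V).ncard : ℝ) ≤ a) →
      (∀ z, (({v | (v, z) ∈ B} : Set V).ncard : ℝ) ≤ a) →
      pr (fun g : Fin τ → V × V => NotKill2 B g) ≤ e2 :=
    fun B h h' h'' => hKL2 V B m2 τ lam kap hlam hkap hm2 hm2' hn2 h h' h''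
  have hA1 : pr A1 ≤ e1 := by
    refine pr_prod_le (p := A1) he1' ?_
    intro w
    exact pr_and_le (a ≤ ((L1 c F w.1 w.2.1).ncard : ℝ))
      (fun g : Fin τ → V × V => NotKill1 (L1 c F w.1 w.2.1) g) he1' (key1 _)
  have hA2 : pr A2 ≤ e1 := by
    refine pr_prod_le (p := A2) he1' ?_
    intro w
    exact pr_and_le (a ≤ ((L2 c F w.1 w.2.2).ncard : ℝ))
      (fun g : Fin τ → V × V => NotKill1 (L2 c F w.1 w.2.2) g) he1' (key1 _)
  have hA3 : pr A3 ≤ e1 := by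
    refine pr_prod_le (p := A3) he1' ?_
    intro w
    exact pr_and_le (a ≤ ((L3 c F w.2.1 w.2.2).ncard : ℝ))
      (fun g : Fin τ → V × V => NotKill1 (L3 c F w.2.1 w.2.2) g) he1' (key1 _)
  have hB1 : pr B1 ≤ e2 := by
    refine pr_prod_le (p := B1) he2' ?_
    intro w
    refine pr_and_le (b ≤ ((P1 c F a w.1).ncard : ℝ))
      (fun g : Fin τ → V × V => NotKill2 (P1 c F a w.1) g) he2' ?_
    intro hH
    exact key2 (P1 c F a w.1) hH (fun v => line1 c F ha0 (M0 c F a) (fun _ h => h) w.1 v)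
      (fun v => line2 c F ha0 (M0 c F a) (fun _ h => h) w.1 v)
  have hB2 : pr B2 ≤ e2 := by
    refine pr_prod_le (p := B2) he2' ?_
    intro w
    refine pr_and_le (b ≤ ((P2 c F a w.2.1).ncard : ℝ))
      (fun g : Fin τ → V × V => NotKill2 (P2 c F a w.2.1) g) he2' ?_
    intro hH
    exact key2 (P2 c F a w.2.1) hH (fun v => line1 c F ha0 (M0 c F a) (fun _ h => h) v w.2.1)
      (fun v => line3 c F ha0 (M0 c F a) (fun _ h => h) w.2.1 v)
  have hB3 : pr B3 ≤ e2 := by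
    refine pr_prod_le (p := B3) he2' ?_
    intro w
    refine pr_and_le (b ≤ ((P3 c F a w.2.2).ncard : ℝ))
      (fun g : Fin τ → V × V => NotKill2 (P3 c F a w.2.2) g) he2' ?_
    intro hH
    exact key2 (P3 c F a w.2.2) hH (fun v => line2 c F ha0 (M0 c F a) (fun _ h => h) v w.2.2)
      (fun v => line3 c F ha0 (M0 c F a) (fun _ h => h) v w.2.2)
  have hC1 : pr C1 ≤ gam + e3 := by
    by_cases hbig : gam * n ^ 3 ≤ ((M1 c F a b).ncard : ℝ)
    · have h3 : pr C1 ≤ e3 := by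
        have hsub1 : M1 c F a b ⊆ M0 c F a := fun _ h => h.1
        have h4 : pr (fun g : Fin τ → V × V => NotKill3 (M1 c F a b) g) ≤ e3 :=
          hKL3 V (M1 c F a b) m3 τ lam kap gam D hlam hkap hgam hD h1 h2 hm3 hm3' hn3 hbig
            (line1 c F ha0 _ hsub1) (line2 c F ha0 _ hsub1) (line3 c F ha0 _ hsub1)
            (plane1 c F hb0) (plane2 c F hb0) (plane3 c F hb0)
        refine pr_prod_le (p := C1) he3' ?_
        intro w
        exact pr_and_le (w ∈ M1 c F a b)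
          (fun g : Fin τ → V × V => NotKill3 (M1 c F a b) g) he3' (fun _ => h4)
      linarith
    · rw [not_le] at hbig
      have h3 : pr C1 ≤ gam := by
        have h4 : pr C1 ≤ pr (fun p : (V × V × V) × (Fin τ → V × V) => p.1 ∈ M1 c F a b) :=
          pr_mono fun p hp => hp.1
        refine h4.trans ?_
        refine pr_prod_le' (p := fun p : (V × V × V) × (Fin τ → V × V) => p.1 ∈ M1 c F a b) hgam.le ?_
        intro g
        rw [pr_eq_ncard]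
        have h5 : ((Fintype.card (V × V × V) : ℕ) : ℝ) = n ^ 3 := by
          rw [Fintype.card_prod, Fintype.card_prod, hn]
          unfold nn
          push_cast
          ring
        rw [h5, div_le_iff₀ (by positivity)]
        exact hbig.le
      linarith
  have hunion : pr (fun p => A1 p ∨ A2 p ∨ A3 p ∨ B1 p ∨ B2 p ∨ B3 p ∨ C1 p) ≤
      pr A1 + (pr A2 + (pr A3 + (pr B1 + (pr B2 + (pr B3 + pr C1))))) := by
    refine (pr_or_le A1 (fun p => A2 p ∨ A3 p ∨ B1 p ∨ B2 p ∨ B3 p ∨ C1 p)).trans (add_le_add le_rfl ?_)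
    refine (pr_or_le A2 (fun p => A3 p ∨ B1 p ∨ B2 p ∨ B3 p ∨ C1 p)).trans (add_le_add le_rfl ?_)
    refine (pr_or_le A3 (fun p => B1 p ∨ B2 p ∨ B3 p ∨ C1 p)).trans (add_le_add le_rfl ?_)
    refine (pr_or_le B1 (fun p => B2 p ∨ B3 p ∨ C1 p)).trans (add_le_add le_rfl ?_)
    refine (pr_or_le B2 (fun p => B3 p ∨ C1 p)).trans (add_le_add le_rfl ?_)
    exact pr_or_le B3 C1
  linarith

end Pool.ER
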