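import Mathlib

set_option autoImplicit false

namespace Pool.ERK.Growth

open Finset

/-- inequality (I) for one `n` -/
def IneqI (C th P : ℝ) (n : ℕ) (y : ℕ → ℝ) : Prop :=
  ∀ M T : ℕ, 1 ≤ M → (M : ℝ) ≤ P * n → 1 ≤ T → T ≤ n →
    y M ≤ Real.sqrt ((M * (y M - y (M - 1)) + y M ^ 2) * (y (M + T) - y M))
      + C * n * (T : ℝ) ^ (-(1 + th))

lemma sum_b (y : ℕ → ℝ) (M0 L T : ℕ) (y0 : ℝ) (hmono : Monotone y) (hTL : T ≤ L)
    (h0 : y0 = y M0) (h2 : y (M0 + 2 * L) ≤ 2 * y0) :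
    ∑ i ∈ range L, (y (M0 + 1 + i + T) - y (M0 + 1 + i)) ≤ T * y0 := by
  have h1 : ∀ i, y (M0 + 1 + i + T) - y (M0 + 1 + i)
      = ∑ j ∈ range T, (y (M0 + 1 + i + (j + 1)) - y (M0 + 1 + i + j)) := by
    intro i
    rw [Finset.sum_range_sub (fun j => y (M0 + 1 + i + j))]
    simp
  rw [Finset.sum_congr rfl (fun i _ => h1 i), Finset.sum_comm]
  have h3 : ∀ j ∈ range T, ∑ i ∈ range L, (y (M0 + 1 + i + (j + 1)) - y (M0 + 1 + i + j)) ≤ y0 := by
    intro j hj
    have hj' : j < T := Finset.mem_range.mp hj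
    have h4 : ∑ i ∈ range L, (y (M0 + 1 + i + (j + 1)) - y (M0 + 1 + i + j))
        = y (M0 + 1 + L + j) - y (M0 + 1 + j) := by
      have h5 := Finset.sum_range_sub (fun i => y (M0 + 1 + i + j)) L
      simp only [add_zero] at h5
      rw [← h5]
      apply Finset.sum_congr rfl
      intro i _
      congr 2
      all_goals ring_nf
    rw [h4]
    have h6 : y (M0 + 1 + L + j) ≤ y (M0 + 2 * L) := hmono (by omega)
    have h7 : y M0 ≤ y (M0 + 1 + j) := hmono (by omega)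
    linarith
  calc _ ≤ ∑ j ∈ range T, y0 := Finset.sum_le_sum h3
    _ = T * y0 := by simp

lemma core (C th P : ℝ) (n : ℕ) (y : ℕ → ℝ) (hnn : ∀ M, 0 ≤ y M) (hmono : Monotone y)
    (hI : IneqI C th P n y) (M0 L T : ℕ) (hT : 1 ≤ T) (hTL : T ≤ L) (hTn : T ≤ n)
    (hP : ((M0 + L : ℕ) : ℝ) ≤ P * n) (h2 : y (M0 + 2 * L) ≤ 2 * y M0) :
    L * y M0 ≤ Real.sqrt ((P * n + 4 * L * y M0) * T) * y M0 + L * (C * n * (T : ℝ) ^ (-(1 + th))) := by
  set y0 := y M0 with hy0
  set a : ℕ → ℝ := fun i => ((M0 + 1 + i : ℕ) : ℝ) * (y (M0 + 1 + i) - y (M0 + i)) + y (M0 + 1 + i) ^ 2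
    with ha
  set b : ℕ → ℝ := fun i => y (M0 + 1 + i + T) - y (M0 + 1 + i) with hb
  have hy0n : 0 ≤ y0 := hnn M0
  have han : ∀ i, 0 ≤ a i := by
    intro i
    have : y (M0 + i) ≤ y (M0 + 1 + i) := hmono (by omega)
    simp only [ha]
    have h3 : 0 ≤ ((M0 + 1 + i : ℕ) : ℝ) * (y (M0 + 1 + i) - y (M0 + i)) :=
      mul_nonneg (Nat.cast_nonneg _) (by linarith)
    nlinarith [sq_nonneg (y (M0 + 1 + i))]
  have hbn : ∀ i, 0 ≤ b i := by
    intro i
    have : y (M0 + 1 + i) ≤ y (M0 + 1 + i + T) := hmono (by omega)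
    simp only [hb]; linarith
  have hPn : 0 ≤ P * n := le_trans (Nat.cast_nonneg _) hP
  have hstep : ∀ i ∈ range L, y0 ≤ Real.sqrt (a i) * Real.sqrt (b i) + C * n * (T : ℝ) ^ (-(1 + th)) := by
    intro i hi
    have hi' : i < L := Finset.mem_range.mp hi
    have h3 := hI (M0 + 1 + i) T (by omega)
      (le_trans (by exact_mod_cast (by omega : M0 + 1 + i ≤ M0 + L)) hP) hT hTn
    have h4 : M0 + 1 + i - 1 = M0 + i := by omega
    rw [h4] at h3
    have h5 : y0 ≤ y (M0 + 1 + i) := hmono (by omega)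
    rw [← Real.sqrt_mul (han i)]
    exact le_trans h5 h3
  have hsa : ∑ i ∈ range L, a i ≤ (P * n + 4 * L * y0) * y0 := by
    have h3 : ∀ i ∈ range L, a i ≤ P * n * (y (M0 + (i + 1)) - y (M0 + i)) + 4 * y0 ^ 2 := by
      intro i hi
      have hi' : i < L := Finset.mem_range.mp hi
      have h4 : y (M0 + i) ≤ y (M0 + 1 + i) := hmono (by omega)
      have h5 : y (M0 + 1 + i) ≤ 2 * y0 := le_trans (hmono (by omega)) h2
      have h6 : ((M0 + 1 + i : ℕ) : ℝ) ≤ P * n :=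
        le_trans (by exact_mod_cast (by omega : M0 + 1 + i ≤ M0 + L)) hP
      have h7 : y (M0 + (i + 1)) = y (M0 + 1 + i) := by congr 1; omega
      simp only [ha, h7]
      have h8 : ((M0 + 1 + i : ℕ) : ℝ) * (y (M0 + 1 + i) - y (M0 + i))
          ≤ P * n * (y (M0 + 1 + i) - y (M0 + i)) :=
        mul_le_mul_of_nonneg_right h6 (by linarith)
      have h9 : y (M0 + 1 + i) ^ 2 ≤ 4 * y0 ^ 2 := by
        have := hnn (M0 + 1 + i)
        nlinarith
      linarith
    calc _ ≤ ∑ i ∈ range L, (P * n * (y (M0 + (i + 1)) - y (M0 + i)) + 4 * y0 ^ 2) :=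
          Finset.sum_le_sum h3
      _ = P * n * (y (M0 + L) - y M0) + L * (4 * y0 ^ 2) := by
          rw [Finset.sum_add_distrib, ← Finset.mul_sum, Finset.sum_range_sub (fun i => y (M0 + i))]
          simp
      _ ≤ (P * n + 4 * L * y0) * y0 := by
          have h4 : y (M0 + L) ≤ 2 * y0 := le_trans (hmono (by omega)) h2
          have h5 : P * n * (y (M0 + L) - y M0) ≤ P * n * y0 :=
            mul_le_mul_of_nonneg_left (by linarith) hPn
          nlinarith
  have hsb : ∑ i ∈ range L, b i ≤ T * y0 := sum_b y M0 L T y0 hmono hTL rfl h2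
  have hcs := Real.sum_sqrt_mul_sqrt_le (range L) han hbn
  have hL : (L : ℝ) * y0 ≤ ∑ i ∈ range L, (Real.sqrt (a i) * Real.sqrt (b i))
      + L * (C * n * (T : ℝ) ^ (-(1 + th))) := by
    calc (L : ℝ) * y0 = ∑ i ∈ range L, y0 := by simp
      _ ≤ ∑ i ∈ range L, (Real.sqrt (a i) * Real.sqrt (b i) + C * n * (T : ℝ) ^ (-(1 + th))) :=
          Finset.sum_le_sum hstep
      _ = _ := by rw [Finset.sum_add_distrib]; simp
  have hfin : Real.sqrt (∑ i ∈ range L, a i) * Real.sqrt (∑ i ∈ range L, b i)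
      ≤ Real.sqrt ((P * n + 4 * L * y0) * T) * y0 := by
    have hQ : 0 ≤ P * n + 4 * L * y0 := by positivity
    calc _ ≤ Real.sqrt ((P * n + 4 * L * y0) * y0) * Real.sqrt (T * y0) :=
          mul_le_mul (Real.sqrt_le_sqrt hsa) (Real.sqrt_le_sqrt hsb) (Real.sqrt_nonneg _)
            (Real.sqrt_nonneg _)
      _ = Real.sqrt ((P * n + 4 * L * y0) * T) * y0 := by
          rw [← Real.sqrt_mul (by positivity)]
          have : (P * n + 4 * L * y0) * y0 * (T * y0) = (P * n + 4 * L * y0) * T * y0 ^ 2 := by ring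
          rw [this, Real.sqrt_mul (by positivity), Real.sqrt_sq hy0n]
  linarith


/-- the numerical heart: the choice of `T` contradicts `core` -/
lemma numeric (C th P del A B : ℝ) (hC : 0 < C) (hth : 0 < th) (hP : 1 ≤ P) (hdel : 0 < del)
    (hA : 0 < A) (hB : B = 4 * P / del + 16) (hAB : A ^ 2 / (2 * B) = 2 * C + 1)
    (n L : ℕ) (hn : 1 ≤ n) (y0 : ℝ) (hy0 : del ≤ y0) (hx1 : y0 / n ≤ 1)
    (hL1 : A * (y0 / n) ^ (th / (2 * (1 + th))) * n ≤ L) (hLn : L ≤ n) (hL0 : 1 ≤ L) :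
    ∃ T : ℕ, 1 ≤ T ∧ T ≤ L ∧ (P * n + 4 * L * y0) * T ≤ (L : ℝ) ^ 2 / 4 ∧
      2 * C * n / y0 < (T : ℝ) ^ (1 + th) := by
  have hnR : (1 : ℝ) ≤ n := by exact_mod_cast hn
  have hn0 : (0 : ℝ) < n := by linarith
  have hy00 : 0 < y0 := lt_of_lt_of_le hdel hy0
  have hLR : (1 : ℝ) ≤ L := by exact_mod_cast hL0
  have hLnR : (L : ℝ) ≤ n := by exact_mod_cast hLn
  set x := y0 / n with hx
  have hx0 : 0 < x := by positivity
  set W := P * n + 4 * L * y0 with hW
  have hW0 : 0 < W := by positivity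
  have hB0 : 0 < B := by rw [hB]; positivity
  set R := (L : ℝ) ^ 2 / (4 * W) with hR
  have hPn : (L : ℝ) ≤ 4 * W := by
    have : (n : ℝ) ≤ P * n := by nlinarith
    have h2 : 0 ≤ 4 * (L : ℝ) * y0 := by positivity
    rw [hW]; nlinarith
  have hRL : R ≤ L := by
    rw [hR, div_le_iff₀ (by positivity)]
    nlinarith
  -- lower bound of R
  have hWB : 4 * W ≤ n * y0 * B := by
    rw [hW, hB]
    have h1 : P * n ≤ P * n * y0 / del := by
      rw [le_div_iff₀ hdel]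
      have : 0 ≤ P * n := by positivity
      nlinarith
    have h2 : (L : ℝ) * y0 ≤ n * y0 := mul_le_mul_of_nonneg_right hLnR hy00.le
    have h3 : n * y0 * (4 * P / del + 16) = 4 * (P * n * y0 / del) + 16 * (n * y0) := by
      field_simp
    rw [h3]
    nlinarith
  set s := x ^ (th / (2 * (1 + th))) with hs
  have hs0 : 0 < s := Real.rpow_pos_of_pos hx0 _
  have hR1 : A ^ 2 * s ^ 2 / (x * B) ≤ R := by
    rw [hR, div_le_div_iff₀ (by positivity) (by positivity)]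
    have h1 : (A * s * n) ^ 2 ≤ (L : ℝ) ^ 2 := by
      apply pow_le_pow_left₀ (by positivity) hL1
    have h2 : x * n = y0 := by rw [hx]; field_simp
    have h3 : A ^ 2 * s ^ 2 * (4 * W) ≤ A ^ 2 * s ^ 2 * (n * y0 * B) :=
      mul_le_mul_of_nonneg_left hWB (by positivity)
    have h4 : A ^ 2 * s ^ 2 * (n * y0 * B) = (A * s * n) ^ 2 * (x * B) := by
      rw [← h2]; ring
    have h5 : (A * s * n) ^ 2 * (x * B) ≤ (L : ℝ) ^ 2 * (x * B) :=
      mul_le_mul_of_nonneg_right h1 (by positivity)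
    linarith
  have hsx : s ^ 2 / x = x ^ (-(1 / (1 + th))) := by
    have h1 : s ^ 2 = x ^ (th / (1 + th)) := by
      rw [hs, ← Real.rpow_natCast, ← Real.rpow_mul hx0.le]
      congr 1
      push_cast
      field_simp
    have h2 : x = x ^ (1 : ℝ) := (Real.rpow_one x).symm
    calc s ^ 2 / x = x ^ (th / (1 + th)) / x ^ (1 : ℝ) := by rw [h1, Real.rpow_one]
      _ = x ^ (th / (1 + th) - 1) := by rw [← Real.rpow_sub hx0]
      _ = x ^ (-(1 / (1 + th))) := by
          congr 1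
          field_simp
          ring
  set z := x ^ (-(1 / (1 + th))) with hz
  have hz1 : 1 ≤ z := by
    rw [hz]
    apply Real.one_le_rpow_of_pos_of_le_one_of_nonpos hx0 hx1
    have : 0 < 1 / (1 + th) := by positivity
    linarith
  have hA2 : A ^ 2 / B = 2 * (2 * C + 1) := by
    rw [← hAB]; field_simp
  have hR2 : 2 * (2 * C + 1) * z ≤ R := by
    have : A ^ 2 * s ^ 2 / (x * B) = A ^ 2 / B * (s ^ 2 / x) := by field_simp
    rw [this, hA2, hsx] at hR1
    exact hR1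
  have hR3 : 2 ≤ R := by nlinarith
  refine ⟨⌊R⌋₊, ?_, ?_, ?_, ?_⟩
  · apply Nat.le_floor; push_cast; linarith
  · have : ((⌊R⌋₊ : ℕ) : ℝ) ≤ L := le_trans (Nat.floor_le (by linarith)) hRL
    exact_mod_cast this
  · have h1 : ((⌊R⌋₊ : ℕ) : ℝ) ≤ R := Nat.floor_le (by linarith)
    calc W * ((⌊R⌋₊ : ℕ) : ℝ) ≤ W * R := mul_le_mul_of_nonneg_left h1 hW0.le
      _ = (L : ℝ) ^ 2 / 4 := by rw [hR]; field_simp
  · have h1 : R - 1 < ((⌊R⌋₊ : ℕ) : ℝ) := by
      have := Nat.lt_floor_add_one R; linarith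
    have h2 : (2 * C + 1) * z ≤ ((⌊R⌋₊ : ℕ) : ℝ) := by nlinarith
    have h3 : ((2 * C + 1) * z) ^ (1 + th) ≤ ((⌊R⌋₊ : ℕ) : ℝ) ^ (1 + th) :=
      Real.rpow_le_rpow (by positivity) h2 (by positivity)
    have h4 : ((2 * C + 1) * z) ^ (1 + th) = (2 * C + 1) ^ (1 + th) * z ^ (1 + th) :=
      Real.mul_rpow (by positivity) (by linarith)
    have h5 : z ^ (1 + th) = x⁻¹ := by
      rw [hz, ← Real.rpow_mul hx0.le]
      have : -(1 / (1 + th)) * (1 + th) = -1 := by field_simp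
      rw [this, Real.rpow_neg_one]
    have h6 : 2 * C + 1 ≤ (2 * C + 1) ^ (1 + th) := by
      calc 2 * C + 1 = (2 * C + 1) ^ (1 : ℝ) := (Real.rpow_one _).symm
        _ ≤ (2 * C + 1) ^ (1 + th) :=
          Real.rpow_le_rpow_of_exponent_le (by linarith) (by linarith)
    have h7 : 2 * C * n / y0 = 2 * C * x⁻¹ := by
      rw [hx]; field_simp
    rw [h7]
    have hxi : 0 < x⁻¹ := by positivity
    have h8 : 2 * C * x⁻¹ < (2 * C + 1) ^ (1 + th) * x⁻¹ :=
      mul_lt_mul_of_pos_right (by linarith) hxi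
    rw [h4, h5] at h3
    linarith

lemma doubling (C th P1 P del : ℝ) (hC : 0 < C) (hth : 0 < th) (hP1 : P1 ≤ P) (hP : 1 ≤ P)
    (hdel : 0 < del) :
    ∃ A : ℝ, 0 < A ∧ ∃ n0 : ℕ, 1 ≤ n0 ∧ ∀ n : ℕ, n0 ≤ n → ∀ y : ℕ → ℝ, (∀ M, 0 ≤ y M) → Monotone y →
      IneqI C th P1 n y → ∀ M0 : ℕ, del ≤ y M0 → y M0 / n ≤ 1 →
      2 * (A * (y M0 / n) ^ (th / (2 * (1 + th)))) ≤ 1 →
      ∃ L : ℕ, (L : ℝ) ≤ 2 * (A * (y M0 / n) ^ (th / (2 * (1 + th)))) * n ∧
        (((M0 + 2 * L : ℕ) : ℝ) ≤ P1 * n → 2 * y M0 < y (M0 + 2 * L)) := by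
  set B := 4 * P / del + 16 with hB
  have hB0 : 0 < B := by positivity
  set A := Real.sqrt (2 * B * (2 * C + 1)) with hA
  have hA0 : 0 < A := Real.sqrt_pos.mpr (by positivity)
  have hAB : A ^ 2 / (2 * B) = 2 * C + 1 := by
    rw [hA, Real.sq_sqrt (by positivity)]; field_simp
  set e := th / (2 * (1 + th)) with he
  have he0 : 0 < e := by positivity
  have he1 : e < 1 := by
    rw [he, div_lt_one (by positivity)]; linarith
  have htend : Filter.Tendsto (fun n : ℕ => A * del ^ e * (n : ℝ) ^ (1 - e)) Filter.atTop Filter.atTop := by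
    apply Filter.Tendsto.const_mul_atTop (by positivity)
    exact (tendsto_rpow_atTop (by linarith)).comp tendsto_natCast_atTop_atTop
  obtain ⟨n0, hn0⟩ := Filter.eventually_atTop.mp (htend.eventually_ge_atTop 1)
  refine ⟨A, hA0, max n0 1, le_max_right _ _, ?_⟩
  intro n hn y hnn hmono hI M0 hdy hx1 hsmall
  have hn1 : 1 ≤ n := le_trans (le_max_right _ _) hn
  have hn0' := hn0 n (le_trans (le_max_left _ _) hn)
  have hnR : (1 : ℝ) ≤ n := by exact_mod_cast hn1
  have hn00 : (0 : ℝ) < n := by linarith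
  set y0 := y M0 with hy0
  have hy00 : 0 < y0 := lt_of_lt_of_le hdel hdy
  set s := (y0 / n) ^ e with hs
  have hs0 : 0 < s := Real.rpow_pos_of_pos (by positivity) _
  have hl1 : 1 ≤ A * s * n := by
    have h1 : (del / n) ^ e ≤ s := Real.rpow_le_rpow (by positivity)
      (div_le_div_of_nonneg_right hdy hn00.le) he0.le
    have h2 : A * del ^ e * (n : ℝ) ^ (1 - e) = A * (del / n) ^ e * n := by
      rw [Real.div_rpow hdel.le hn00.le, Real.rpow_sub hn00, Real.rpow_one]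
      field_simp
    have h3 : A * (del / n) ^ e * n ≤ A * s * n := by
      apply mul_le_mul_of_nonneg_right _ hn00.le
      exact mul_le_mul_of_nonneg_left h1 hA0.le
    linarith
  set L := ⌈A * s * n⌉₊ with hL
  have hL1 : A * s * n ≤ L := Nat.le_ceil _
  have hL2 : (L : ℝ) ≤ 2 * (A * s) * n := by
    have := Nat.ceil_lt_add_one (show (0 : ℝ) ≤ A * s * n by positivity)
    have h3 : (L : ℝ) < A * s * n + 1 := this
    nlinarith
  have hLn : L ≤ n := by
    have : (L : ℝ) ≤ n := by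
      have h3 : 2 * (A * s) * n ≤ 1 * n := mul_le_mul_of_nonneg_right hsmall hn00.le
      linarith
    exact_mod_cast this
  have hL0 : 1 ≤ L := by
    have : (1 : ℝ) ≤ L := le_trans hl1 hL1
    exact_mod_cast this
  refine ⟨L, hL2, ?_⟩
  intro hPL
  by_contra hcon
  rw [not_lt] at hcon
  obtain ⟨T, hT1, hTL, hT2, hT3⟩ := numeric C th P del A B hC hth hP hdel hA0 hB hAB n L hn1 y0 hdy hx1
    hL1 hLn hL0
  have hPL' : ((M0 + L : ℕ) : ℝ) ≤ P1 * n :=
    le_trans (by exact_mod_cast (by omega : M0 + L ≤ M0 + 2 * L)) hPL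
  have hcore0 := core C th P1 n y hnn hmono hI M0 L T hT1 hTL (le_trans hTL hLn) hPL' hcon
  have hcore : (L : ℝ) * y0 ≤ Real.sqrt ((P * n + 4 * L * y0) * T) * y0
      + L * (C * n * (T : ℝ) ^ (-(1 + th))) := by
    have h1 : Real.sqrt ((P1 * n + 4 * L * y0) * T) ≤ Real.sqrt ((P * n + 4 * L * y0) * T) := by
      apply Real.sqrt_le_sqrt
      apply mul_le_mul_of_nonneg_right _ (Nat.cast_nonneg _)
      have := mul_le_mul_of_nonneg_right hP1 hn00.le
      linarith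
    have h2 := mul_le_mul_of_nonneg_right h1 hy00.le
    linarith
  have hLR : (0 : ℝ) < L := by exact_mod_cast hL0
  have hsq : Real.sqrt ((P * n + 4 * L * y0) * T) ≤ L / 2 := by
    rw [show (L : ℝ) / 2 = Real.sqrt ((L / 2) ^ 2) from (Real.sqrt_sq (by positivity)).symm]
    apply Real.sqrt_le_sqrt
    have : ((L : ℝ) / 2) ^ 2 = (L : ℝ) ^ 2 / 4 := by ring
    rw [this]; exact hT2
  have h1 : Real.sqrt ((P * n + 4 * L * y0) * T) * y0 ≤ L / 2 * y0 :=
    mul_le_mul_of_nonneg_right hsq hy00.le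
  have hTp : (0 : ℝ) < (T : ℝ) ^ (1 + th) := by
    apply Real.rpow_pos_of_pos
    exact_mod_cast hT1
  have h2 : (T : ℝ) ^ (-(1 + th)) = ((T : ℝ) ^ (1 + th))⁻¹ := by
    rw [Real.rpow_neg (Nat.cast_nonneg _)]
  rw [h2] at hcore
  have h3 : (L : ℝ) * y0 ≤ L / 2 * y0 + L * (C * n * ((T : ℝ) ^ (1 + th))⁻¹) := by linarith
  have h4 : y0 / 2 ≤ C * n * ((T : ℝ) ^ (1 + th))⁻¹ := by
    have h5 : (L : ℝ) * (y0 / 2) ≤ L * (C * n * ((T : ℝ) ^ (1 + th))⁻¹) := by linarith
    exact le_of_mul_le_mul_left h5 hLR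
  have h5 : y0 * (T : ℝ) ^ (1 + th) ≤ 2 * C * n := by
    have h6 : y0 / 2 * (T : ℝ) ^ (1 + th) ≤ C * n * ((T : ℝ) ^ (1 + th))⁻¹ * (T : ℝ) ^ (1 + th) :=
      mul_le_mul_of_nonneg_right h4 hTp.le
    rw [mul_assoc (C * n), inv_mul_cancel₀ hTp.ne', mul_one] at h6
    linarith
  rw [div_lt_iff₀ hy00] at hT3
  linarith

/-- the growth theorem: pure real analysis -/
theorem growth (C th K w del : ℝ) (hC : 0 < C) (hth : 0 < th) (hw : 0 < w)
    (hdel : 0 < del) :
    ∃ eps : ℝ, 0 < eps ∧ ∃ n0 : ℕ, ∀ n : ℕ, n0 ≤ n → ∀ y : ℕ → ℝ, (∀ M, 0 ≤ y M) →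
      (∀ M, y M ≤ y (M + 1)) →
      (∀ M T : ℕ, 1 ≤ M → (M : ℝ) ≤ (K + w) * n → 1 ≤ T → T ≤ n →
        y M ≤ Real.sqrt ((M * (y M - y (M - 1)) + y M ^ 2) * (y (M + T) - y M))
          + C * n * (T : ℝ) ^ (-(1 + th))) →
      ∀ M0 : ℕ, (M0 : ℝ) ≤ K * n → del ≤ y M0 → ∀ M1 : ℕ, (M0 : ℝ) + w * n ≤ M1 →
        eps * n ≤ y M1 := by
  set P1 := K + w with hP1
  set P := max P1 1 with hPdef
  obtain ⟨A, hA0, n0, hn01, hdbl⟩ := doubling C th P1 P del hC hth (le_max_left _ _) (le_max_right _ _) hdel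
  set e := th / (2 * (1 + th)) with he
  have he0 : 0 < e := by positivity
  have h2e : 1 < (2 : ℝ) ^ e := Real.one_lt_rpow (by norm_num) he0
  set r := 1 / ((2 : ℝ) ^ e - 1) with hr
  have hr0 : 0 < r := by
    rw [hr]; apply div_pos one_pos; linarith
  have hr1 : r * ((2 : ℝ) ^ e - 1) = 1 := by
    rw [hr]; field_simp; exact div_self (by linarith)
  -- choice of eps
  set Q := 4 * A * r + 4 * A with hQ
  have hQ0 : 0 < Q := by positivity
  set s0 := min (w / Q) (min (1 / (2 * A)) 1) with hs0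
  have hs0p : 0 < s0 := lt_min (by positivity) (lt_min (by positivity) one_pos)
  set eps := s0 ^ (1 / e) with heps
  have heps0 : 0 < eps := Real.rpow_pos_of_pos hs0p _
  have hepse : eps ^ e = s0 := by
    rw [heps, ← Real.rpow_mul hs0p.le]
    have : 1 / e * e = 1 := by field_simp
    rw [this, Real.rpow_one]
  have heps1 : eps ≤ 1 := by
    rw [heps]
    apply Real.rpow_le_one hs0p.le
    · exact le_trans (min_le_right _ _) (min_le_right _ _)
    · positivity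
  refine ⟨eps, heps0, n0, ?_⟩
  intro n hn y hnn hstep hI M0 hM0 hdy M1 hM1
  have hmono : Monotone y := monotone_nat_of_le_succ hstep
  by_contra hcon
  rw [not_le] at hcon
  have hn1 : 1 ≤ n := le_trans hn01 hn
  have hnR : (1 : ℝ) ≤ n := by exact_mod_cast hn1
  have hn00 : (0 : ℝ) < n := by linarith
  have hM1P : (M0 : ℝ) + w * n ≤ P1 * n := by
    rw [hP1]; nlinarith
  -- the induction
  have key : ∀ k : ℕ, ∃ M : ℕ, M0 ≤ M ∧ M ≤ M1 ∧ (2 : ℝ) ^ k * del ≤ y M ∧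
      (M : ℝ) ≤ M0 + 4 * A * r * n * (y M / n) ^ e := by
    intro k
    induction k with
    | zero =>
      refine ⟨M0, le_refl _, ?_, ?_, ?_⟩
      · have : (M0 : ℝ) ≤ M1 := by
          have : 0 ≤ w * n := by positivity
          linarith
        exact_mod_cast this
      · simpa using hdy
      · have : 0 ≤ (y M0 / n) ^ e := Real.rpow_nonneg (div_nonneg (hnn _) hn00.le) _
        have h2 : 0 ≤ 4 * A * r * n * (y M0 / n) ^ e := by positivity
        linarith
    | succ k ih =>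
      obtain ⟨M, hMM0, hMM1, hyM, hMb⟩ := ih
      have hyM1 : y M < eps * n := lt_of_le_of_lt (hmono hMM1) hcon
      have hdelM : del ≤ y M := by
        have h1 : (1 : ℝ) ≤ 2 ^ k := one_le_pow₀ (by norm_num)
        nlinarith
      have hyM0 : 0 < y M := lt_of_lt_of_le hdel hdelM
      have hxe : y M / n ≤ eps := by
        rw [div_le_iff₀ hn00]; exact hyM1.le
      have hx0 : 0 < y M / n := by positivity
      set x := y M / n with hx
      have hxs : x ^ e ≤ s0 := by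
        rw [← hepse]; exact Real.rpow_le_rpow hx0.le hxe he0.le
      have hxe0 : 0 < x ^ e := Real.rpow_pos_of_pos hx0 _
      have hsm : 2 * (A * x ^ e) ≤ 1 := by
        have h1 : x ^ e ≤ 1 / (2 * A) := le_trans hxs (le_trans (min_le_right _ _) (min_le_left _ _))
        rw [le_div_iff₀ (by positivity)] at h1
        linarith
      have hQs : Q * x ^ e ≤ w := by
        have h1 : x ^ e ≤ w / Q := le_trans hxs (min_le_left _ _)
        rw [le_div_iff₀ hQ0] at h1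
        linarith
      obtain ⟨L, hL1, hL2⟩ := hdbl n hn y hnn hmono hI M hdelM (le_trans hxe heps1) hsm
      have hM' : ((M + 2 * L : ℕ) : ℝ) ≤ M0 + Q * x ^ e * n := by
        push_cast
        have h1 : Q * x ^ e * n = 4 * A * r * n * x ^ e + 2 * (2 * (A * x ^ e) * n) := by
          rw [hQ]; ring
        rw [h1]
        linarith
      have hM'2 : ((M + 2 * L : ℕ) : ℝ) ≤ M0 + w * n := by
        have : Q * x ^ e * n ≤ w * n := mul_le_mul_of_nonneg_right hQs hn00.le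
        linarith
      have hdb := hL2 (le_trans hM'2 hM1P)
      have hM'1 : M + 2 * L ≤ M1 := by
        have : ((M + 2 * L : ℕ) : ℝ) ≤ M1 := le_trans hM'2 hM1
        exact_mod_cast this
      refine ⟨M + 2 * L, by omega, hM'1, ?_, ?_⟩
      · rw [pow_succ]; nlinarith
      · have h1 : 2 * x ≤ y (M + 2 * L) / n := by
          rw [hx, le_div_iff₀ hn00]
          have : 2 * (y M / n) * n = 2 * y M := by field_simp
          rw [this]; exact hdb.le
        have h2 : (2 : ℝ) ^ e * x ^ e ≤ (y (M + 2 * L) / n) ^ e := by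
          rw [← Real.mul_rpow (by norm_num) hx0.le]
          exact Real.rpow_le_rpow (by positivity) h1 he0.le
        have h3 : 4 * A * r * n * ((2 : ℝ) ^ e * x ^ e) ≤ 4 * A * r * n * (y (M + 2 * L) / n) ^ e :=
          mul_le_mul_of_nonneg_left h2 (by positivity)
        have h4 : 4 * A * r * n * ((2 : ℝ) ^ e * x ^ e)
            = 4 * A * r * n * x ^ e + 4 * A * n * x ^ e * (r * ((2 : ℝ) ^ e - 1)) := by ring
        rw [hr1, mul_one] at h4
        have h5 : Q * x ^ e * n = 4 * A * r * n * x ^ e + 4 * A * n * x ^ e := by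
          rw [hQ]; ring
        linarith
  -- contradiction
  obtain ⟨k, hk⟩ := pow_unbounded_of_one_lt (eps * n / del) (show (1 : ℝ) < 2 by norm_num)
  obtain ⟨M, _, hMM1, hyM, _⟩ := key k
  have h1 : eps * n < 2 ^ k * del := by
    rw [div_lt_iff₀ hdel] at hk; exact hk
  have h2 : y M ≤ y M1 := hmono hMM1
  linarith

end Pool.ERK.Growth
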