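import Pool.Agent.Work.MP_3e81b4_47.Interface
import Pool.Agent.Work.MP_3e81b4_47.GrowthGen

set_option autoImplicit false

namespace Pool.ER

open Pool.ERK.Growth

lemma ineqI_of_growthHyp {c C : ℝ} {n : ℕ} {y : ℕ → ℝ} (h : GrowthHyp c C n y) :
    IneqI C (1 / 50) c n y := by
  intro M T hM hMc hT hTn
  obtain ⟨m, rfl⟩ : ∃ m, M = m + 1 := ⟨M - 1, by omega⟩
  have h1 := h.ineq m T (by push_cast at hMc; exact hMc) hT hTn
  have h2 : (-(1 + 1 / 50) : ℝ) = -(51 / 50) := by norm_num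
  rw [h2]
  push_cast
  exact h1

theorem double : StmtDouble := by
  intro c C n y M0 L T hC hn h hM hL hT hTL hLn h2 hLT
  have hI := ineqI_of_growthHyp h
  have hnR : (0 : ℝ) < n := by exact_mod_cast hn
  have hLR : (0 : ℝ) < L := by exact_mod_cast hL
  have hP : ((M0 + L : ℕ) : ℝ) ≤ c * n := by
    push_cast; linarith
  have hcore := core C (1 / 50) c n y h.nonneg h.mono hI M0 L T hT hTL (le_trans hTL hLn) hP h2
  have h3 : (-(1 + 1 / 50) : ℝ) = -(51 / 50) := by norm_num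
  rw [h3] at hcore
  have hsq : Real.sqrt ((c * n + 4 * L * y M0) * T) ≤ L / 2 := by
    rw [show (L : ℝ) / 2 = Real.sqrt ((L / 2) ^ 2) from (Real.sqrt_sq (by positivity)).symm]
    apply Real.sqrt_le_sqrt
    have : ((L : ℝ) / 2) ^ 2 = (L : ℝ) ^ 2 / 4 := by ring
    rw [this]; linarith
  have h1 := mul_le_mul_of_nonneg_right hsq (h.nonneg M0)
  have h5 : (L : ℝ) * (y M0 / 2) ≤ L * (C * n * (T : ℝ) ^ (-(51 / 50) : ℝ)) := by linarith
  have h6 := le_of_mul_le_mul_left h5 hLR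
  linarith

end Pool.ER
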