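import Pool.Agent.Work.MP_3e81b4_47.Basic

set_option autoImplicit false

/-! Block ES: Efron-Stein inequality for `Y` of the iid random multigraph. -/

namespace Pool.ER

open Set

namespace ESaux

variable {E : Type*} [Fintype E]

/-- resampling one coordinate does not change the law -/
theorem avg_update {n : ℕ} [Nonempty E] (i : Fin n) (F : (Fin n → E) → ℝ) :
    (avg fun p : (Fin n → E) × E => F (Function.update p.1 i p.2)) = avg F := by
  let e : (Fin n → E) × E ≃ (Fin n → E) × E :=
    { toFun := fun p => (Function.update p.1 i p.2, p.1 i)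
      invFun := fun p => (Function.update p.1 i p.2, p.1 i)
      left_inv := fun p => by
        ext
        · simp
        · simp
      right_inv := fun p => by
        ext
        · simp
        · simp }
  have h := avg_equiv e (fun p : (Fin n → E) × E => F p.1)
  rw [avg_fst] at h
  exact h

theorem avg_cons {n : ℕ} (F : (Fin (n + 1) → E) → ℝ) :
    avg F = avg fun e : E => avg fun x : Fin n → E => F (Fin.cons e x) := by
  rw [← avg_equiv (Fin.consEquiv fun _ : Fin (n + 1) => E) F, avg_prod]
  rfl

/-- variance formula with an independent copy -/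
theorem var_eq [Nonempty E] (f : E → ℝ) :
    (avg fun e => f e ^ 2) - (avg f) ^ 2 =
      1 / 2 * avg fun p : E × E => (f p.1 - f p.2) ^ 2 := by
  have h1 : (avg fun p : E × E => (f p.1 - f p.2) ^ 2) =
      avg fun p : E × E => (f p.1 ^ 2 + f p.2 ^ 2) - 2 * (f p.1 * f p.2) := by
    congr 1
    funext p
    ring
  have h2 : (avg fun p : E × E => f p.1 * f p.2) = avg f * avg f := by
    rw [avg_prod]
    have : (fun a : E => avg fun b : E => f a * f b) = fun a => f a * avg f := by
      funext a
      exact avg_mul_left _ _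
    simp only [this]
    exact avg_mul_right _ _
  rw [h1, avg_sub, avg_add, avg_mul_left, h2, avg_fst (fun e : E => f e ^ 2),
    avg_snd (fun e : E => f e ^ 2)]
  ring

/-- Jensen -/
theorem avg_sq_le [Nonempty E] (f : E → ℝ) : (avg f) ^ 2 ≤ avg fun e => f e ^ 2 := by
  have h := var_eq f
  have h2 : 0 ≤ avg fun p : E × E => (f p.1 - f p.2) ^ 2 := avg_nonneg fun p => sq_nonneg _
  linarith

/-- mean square change under resampling of the coordinate `i` -/
noncomputable def chg {n : ℕ} (f : (Fin n → E) → ℝ) (i : Fin n) : ℝ :=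
  avg fun p : (Fin n → E) × E => (f p.1 - f (Function.update p.1 i p.2)) ^ 2

theorem chg_zero {n : ℕ} (f : (Fin (n + 1) → E) → ℝ) :
    chg f 0 = avg fun x : Fin n → E => avg fun p : E × E =>
      (f (Fin.cons p.1 x) - f (Fin.cons p.2 x)) ^ 2 := by
  unfold chg
  rw [avg_prod, avg_cons, avg_comm]
  congr 1
  funext x
  rw [avg_prod]
  congr 1
  funext e
  congr 1
  funext e'
  simp only
  rw [Fin.update_cons_zero]

theorem chg_succ {n : ℕ} (f : (Fin (n + 1) → E) → ℝ) (j : Fin n) :
    chg f j.succ = avg fun e : E => chg (fun x => f (Fin.cons e x)) j := by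
  unfold chg
  rw [avg_prod, avg_cons]
  congr 1
  funext e
  rw [avg_prod]
  congr 1
  funext x
  congr 1
  funext e'
  simp only
  rw [Fin.cons_update]

theorem efron_stein [Nonempty E] : ∀ (n : ℕ) (f : (Fin n → E) → ℝ),
    (avg fun x => f x ^ 2) - (avg f) ^ 2 ≤ 1 / 2 * ∑ i, chg f i := by
  intro n
  induction n with
  | zero =>
    intro f
    have h : ∀ g : (Fin 0 → E) → ℝ, avg g = g default := by
      intro g
      unfold avg
      simp
    rw [h, h]
    simp
  | succ n ih =>
    intro f
    set g : (Fin n → E) → ℝ := fun x => avg fun e => f (Fin.cons e x) with hg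
    have e1 : (avg fun x => f x ^ 2) =
        avg fun x : Fin n → E => avg fun e : E => f (Fin.cons e x) ^ 2 := by
      rw [avg_cons, avg_comm]
    have e2 : avg f = avg g := by
      rw [avg_cons, avg_comm]
    have e3 : (avg fun x : Fin n → E => avg fun e : E => f (Fin.cons e x) ^ 2) =
        1 / 2 * chg f 0 + avg fun x => g x ^ 2 := by
      rw [chg_zero, ← avg_mul_left, ← avg_add]
      congr 1
      funext x
      have := var_eq fun e => f (Fin.cons e x)
      simp only [hg]
      linarith
    have e4 : ∀ j : Fin n, chg g j ≤ chg f j.succ := by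
      intro j
      rw [chg_succ]
      unfold chg
      rw [avg_comm]
      refine avg_mono fun p => ?_
      have h5 : g p.1 - g (Function.update p.1 j p.2) =
          avg fun e => f (Fin.cons e p.1) - f (Fin.cons e (Function.update p.1 j p.2)) := by
        rw [avg_sub]
      rw [h5]
      exact avg_sq_le _
    have e5 := ih g
    rw [e1, e3, e2, Fin.sum_univ_succ]
    have e6 : ∑ j, chg g j ≤ ∑ j : Fin n, chg f j.succ := Finset.sum_le_sum fun j _ => e4 j
    linarith

end ESaux

open ESaux in
theorem es : StmtES := by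
  classical
  intro k V _ _ M
  set f : (Fin (M + 1) → V × V) → ℝ := fun x => (Y k (range x) : ℝ) with hf
  have hyy : avg f = yy k V (M + 1) := rfl
  -- the graph without the edge `i`
  set A : Fin (M + 1) → (Fin (M + 1) → V × V) → ℝ :=
    fun i x => (Y k (range (x ∘ i.succAbove)) : ℝ) with hA
  have hAavg : ∀ i, avg (A i) = yy k V M := by
    intro i
    exact avg_marginal i.succAbove Fin.succAbove_right_injective
      (fun x : Fin M → V × V => (Y k (range x) : ℝ))
  have hrange : ∀ (i : Fin (M + 1)) (x : Fin (M + 1) → V × V),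
      range x = insert (x i) (range (x ∘ i.succAbove)) := by
    intro i x
    ext e
    constructor
    · rintro ⟨j, rfl⟩
      rcases Fin.eq_self_or_eq_succAbove i j with rfl | ⟨l, rfl⟩
      · exact Or.inl rfl
      · exact Or.inr ⟨l, rfl⟩
    · rintro (rfl | ⟨l, rfl⟩)
      · exact ⟨i, rfl⟩
      · exact ⟨i.succAbove l, rfl⟩
  have hupd : ∀ (i : Fin (M + 1)) (x : Fin (M + 1) → V × V) (e : V × V),
      A i (Function.update x i e) = A i x := by
    intro i x e
    simp only [hA]
    congr 3
    funext l
    simp [Function.comp]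
  have hinc : ∀ (i : Fin (M + 1)) (x : Fin (M + 1) → V × V),
      ∃ a : ℝ, (a = 0 ∨ a = 1) ∧ f x = A i x + a := by
    intro i x
    refine ⟨ind (∀ σ ∈ S k (range (x ∘ i.succAbove)), ¬ ok σ (x i)), ?_, ?_⟩
    · unfold ind
      split_ifs
      · exact Or.inr rfl
      · exact Or.inl rfl
    · simp only [hf, hA]
      rw [hrange i x]
      exact Y_insert_eq_ind _ _
  have hchg : ∀ i, chg f i ≤ 2 * (yy k V (M + 1) - yy k V M) := by
    intro i
    have h1 : chg f i ≤ avg fun p : (Fin (M + 1) → V × V) × (V × V) =>
        (f p.1 + f (Function.update p.1 i p.2)) - 2 * A i p.1 := by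
      refine avg_mono fun p => ?_
      obtain ⟨a, ha, ha'⟩ := hinc i p.1
      obtain ⟨b, hb, hb'⟩ := hinc i (Function.update p.1 i p.2)
      rw [hupd] at hb'
      rw [ha', hb']
      rcases ha with rfl | rfl <;> rcases hb with rfl | rfl <;> ring_nf <;> norm_num
    rw [avg_sub, avg_add, avg_mul_left, avg_fst f, avg_update i f, avg_fst (A i), hAavg, hyy] at h1
    linarith
  have h := efron_stein (M + 1) f
  have hsum : ∑ i, chg f i ≤ (M + 1) * (2 * (yy k V (M + 1) - yy k V M)) := by
    calc ∑ i, chg f i ≤ ∑ _i : Fin (M + 1), 2 * (yy k V (M + 1) - yy k V M) :=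
          Finset.sum_le_sum fun i _ => hchg i
      _ = _ := by
          rw [Finset.sum_const, Finset.card_univ, Fintype.card_fin, nsmul_eq_mul]
          push_cast
          ring
  rw [hyy] at h
  linarith

end Pool.ER
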