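import Pool.Agent.Work.MP_3e81b4_47.DOUBLE

set_option autoImplicit false

namespace Pool.ER

theorem growth : StmtGrowth := by
  intro c C _hc hC w hw δ hδ
  obtain ⟨eps, heps, n0, hn0⟩ := Pool.ERK.Growth.growth C (1 / 50) (c - w) w δ hC (by norm_num) hw hδ
  refine ⟨eps, heps, n0, ?_⟩
  intro n hn y h M0 hM0 hd M hM
  have hI := ineqI_of_growthHyp h
  apply hn0 n hn y h.nonneg (fun M => h.mono (Nat.le_succ M)) _ M0 _ hd M hM
  · intro M T hM1 hMc hT hTn
    have : (c - w + w) * (n : ℝ) = c * n := by ring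
    rw [this] at hMc
    exact hI M T hM1 hMc hT hTn
  · have : (c - w) * (n : ℝ) = c * n - w * n := by ring
    rw [this]; linarith

end Pool.ER
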