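import Pool.Agent.Work.MP_3e81b4_47.Basic

set_option autoImplicit false

/-! Block INEQ: inequality (I). -/

namespace Pool.ER

open Set

/-- the expected `Y` of the union of two independent random graphs -/
theorem avg_Y_union (k : ℕ) (V : Type) [Fintype V] (M T : ℕ) :
    (avg fun p : (Fin M → V × V) × (Fin T → V × V) => (Y k (range p.1 ∪ range p.2) : ℝ)) =
      yy k V (M + T) := by
  have h1 := avg_sumArrow (ι := Fin M) (κ := Fin T) (E := V × V)
    (fun x : Fin M ⊕ Fin T → V × V => (Y k (range x) : ℝ))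
  have h2 := avg_arrow_congr (ι := Fin (M + T)) (κ := Fin M ⊕ Fin T) (E := V × V) finSumFinEquiv
    (fun x : Fin M ⊕ Fin T → V × V => (Y k (range x) : ℝ))
  have h3 : (fun g : Fin (M + T) → V × V => (Y k (range (g ∘ finSumFinEquiv)) : ℝ)) =
      fun g => (Y k (range g) : ℝ) := by
    funext g
    rw [EquivLike.range_comp]
  have h4 : (fun p : (Fin M → V × V) × (Fin T → V × V) => (Y k (range (Sum.elim p.1 p.2)) : ℝ)) =
      fun p => (Y k (range p.1 ∪ range p.2) : ℝ) := by
    funext p
    rw [Sum.elim_range]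
  rw [h3] at h2
  rw [h4] at h1
  rw [← h1, ← h2]
  rfl

theorem ineq (hK : StmtKey) (hE : StmtES) : StmtIneq := by
  intro k hk c
  obtain ⟨C, hC, hkey⟩ := hK k hk c
  refine ⟨C, hC, ?_⟩
  intro V _ _ M T hM hT hTn
  have h1 := hkey V (M + 1) T (by push_cast; exact hM) hT hTn
  set Ω := (Fin (M + 1) → V × V) × (Fin T → V × V)
  set f : Ω → ℝ := fun p => (Y k (range p.1) : ℝ) with hf
  set q : Ω → ℝ := fun p => ind (Y k (range p.1 ∪ range p.2) = Y k (range p.1)) with hq
  set r : Ω → ℝ := fun p => ind (¬ (Y k (range p.1 ∪ range p.2) = Y k (range p.1))) with hr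
  have hy : avg f = yy k V (M + 1) :=
    avg_fst (fun x : Fin (M + 1) → V × V => (Y k (range x) : ℝ))
  have hsq : (avg fun p : Ω => f p ^ 2) ≤
      (M + 1) * (yy k V (M + 1) - yy k V M) + yy k V (M + 1) ^ 2 := by
    have := avg_fst (Ω' := Fin T → V × V)
      (fun x : Fin (M + 1) → V × V => (Y k (range x) : ℝ) ^ 2)
    calc (avg fun p : Ω => f p ^ 2)
        = avg fun x : Fin (M + 1) → V × V => (Y k (range x) : ℝ) ^ 2 := this
      _ ≤ _ := hE k V M
  have hpr : (avg fun p : Ω => r p ^ 2) ≤ yy k V (M + 1 + T) - yy k V (M + 1) := by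
    rw [← avg_Y_union, ← hy, ← avg_sub]
    refine avg_mono fun p => ?_
    have hmono : Y k (range p.1) ≤ Y k (range p.1 ∪ range p.2) := Y_mono subset_union_left
    simp only [hr, hf, ind_sq]
    by_cases h : Y k (range p.1 ∪ range p.2) = Y k (range p.1)
    · rw [ind_false (not_not.2 h), h]; simp
    · rw [ind_true h]
      have h2 : Y k (range p.1) + 1 ≤ Y k (range p.1 ∪ range p.2) := by omega
      have h3 : (Y k (range p.1) : ℝ) + 1 ≤ (Y k (range p.1 ∪ range p.2) : ℝ) := by exact_mod_cast h2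
      linarith
  have hsplit : avg f = (avg fun p => f p * q p) + avg fun p => f p * r p := by
    rw [← avg_add]
    congr 1
    funext p
    simp only [hq, hr, ind_not]
    ring
  have hcs : (avg fun p => f p * r p) ≤
      Real.sqrt (((M + 1) * (yy k V (M + 1) - yy k V M) + yy k V (M + 1) ^ 2) *
        (yy k V (M + 1 + T) - yy k V (M + 1))) := by
    refine (avg_mul_le_sqrt f r).trans (Real.sqrt_le_sqrt ?_)
    have h0 : 0 ≤ avg fun p : Ω => f p ^ 2 := avg_nonneg fun p => sq_nonneg _
    have h0' : 0 ≤ avg fun p : Ω => r p ^ 2 := avg_nonneg fun p => sq_nonneg _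
    exact mul_le_mul hsq hpr h0' (h0.trans hsq)
  rw [← hy] at *
  rw [hsplit]
  have h1' : (avg fun p => f p * q p) ≤ C * nn V * (T : ℝ) ^ (-(51 / 50) : ℝ) := h1
  rw [← hsplit]
  linarith

end Pool.ER
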