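import Pool.Agent.Work.MP_3e81b4_47.Interface

set_option autoImplicit false

/-! Basic facts on `ok`, `valid`, `cost`, `Y`, `S`, `Yu`, `Su`. -/

namespace Pool.ER

open Set

variable {V : Type} {k : ℕ}

theorem valid_mono {σ : PC V k} {A B : Set (V × V)} (h : A ⊆ B) (hB : valid σ B) : valid σ A :=
  fun e he => hB e (h he)

theorem valid_union {σ : PC V k} {A B : Set (V × V)} :
    valid σ (A ∪ B) ↔ valid σ A ∧ valid σ B :=
  ⟨fun h => ⟨valid_mono subset_union_left h, valid_mono subset_union_right h⟩,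
    fun h e he => he.elim (h.1 e) (h.2 e)⟩

theorem valid_insert {σ : PC V k} {e : V × V} {A : Set (V × V)} :
    valid σ (insert e A) ↔ ok σ e ∧ valid σ A :=
  ⟨fun h => ⟨h e (mem_insert _ _), valid_mono (subset_insert _ _) h⟩,
    fun h e' he' => he'.elim (fun h' => h' ▸ h.1) (h.2 e')⟩

theorem valid_range {ι : Type*} {σ : PC V k} {g : ι → V × V} :
    valid σ (range g) ↔ ∀ i, ok σ (g i) :=
  ⟨fun h i => h _ ⟨i, rfl⟩, fun h e ⟨i, hi⟩ => hi ▸ h i⟩

theorem valid_empty (σ : PC V k) : valid σ (∅ : Set (V × V)) := fun _ h => h.elim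

theorem valid_none (A : Set (V × V)) : valid (fun _ => none : PC V k) A :=
  fun _ _ => Or.inr (Or.inl rfl)

theorem ok_iff_not {σ : PC V k} {e : V × V} :
    ok σ e ↔ ¬ (e.1 ≠ e.2 ∧ σ e.1 ≠ none ∧ σ e.1 = σ e.2) := by
  unfold ok; tauto

theorem ok_loop (σ : PC V k) (a : V) : ok σ (a, a) := Or.inl rfl

theorem exists_opt (k : ℕ) (A : Set (V × V)) : ∃ σ : PC V k, valid σ A ∧ cost σ = Y k A := by
  have h : ({c : ℕ | ∃ σ : PC V k, valid σ A ∧ cost σ = c} : Set ℕ).Nonempty :=
    ⟨_, fun _ => none, valid_none A, rfl⟩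
  exact Nat.sInf_mem h

theorem S_nonempty (k : ℕ) (A : Set (V × V)) : (S k A).Nonempty := exists_opt k A

theorem Y_le {σ : PC V k} {A : Set (V × V)} (h : valid σ A) : Y k A ≤ cost σ :=
  Nat.sInf_le ⟨σ, h, rfl⟩

theorem Y_mono {A B : Set (V × V)} (h : A ⊆ B) : Y k A ≤ Y k B := by
  obtain ⟨σ, h1, h2⟩ := exists_opt k B
  exact h2 ▸ Y_le (valid_mono h h1)

theorem cost_le_card [Fintype V] (σ : PC V k) : cost σ ≤ Fintype.card V := by
  unfold cost
  rw [← Nat.card_eq_fintype_card]
  exact Finite.card_subtype_le _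

theorem Y_le_card [Fintype V] (k : ℕ) (A : Set (V × V)) : Y k A ≤ Fintype.card V := by
  obtain ⟨σ, _, h2⟩ := exists_opt k A
  exact h2 ▸ cost_le_card σ

theorem cost_eq_ncard (σ : PC V k) : cost σ = {v | σ v = none}.ncard := rfl

theorem cost_update_le [Finite V] [DecidableEq V] (σ : PC V k) (u : V) :
    cost (Function.update σ u none) ≤ cost σ + 1 := by
  rw [cost_eq_ncard, cost_eq_ncard]
  calc _ ≤ (insert u {v | σ v = none}).ncard := by
        apply ncard_le_ncard _ (toFinite _)
        intro v hv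
        by_cases h : v = u
        · exact Or.inl h
        · right
          simpa [Function.update, h] using hv
    _ ≤ _ := ncard_insert_le _ _

theorem valid_update_none [DecidableEq V] {σ : PC V k} {A : Set (V × V)} (h : valid σ A) (u : V) :
    valid (Function.update σ u none) A := by
  intro e he
  rcases h e he with h | h | h
  · exact Or.inl h
  · by_cases h1 : e.1 = u
    · right; left; rw [h1]; simp
    · right; left; simpa [Function.update, h1] using h
  · by_cases h1 : e.1 = u
    · right; left; rw [h1]; simp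
    · by_cases h3 : σ e.1 = none
      · right; left; simpa [Function.update, h1] using h3
      · right; right
        by_cases h2 : e.2 = u
        · rw [h2]; simpa [Function.update, h1] using h3
        · simpa [Function.update, h1, h2] using h

theorem Y_insert_le [Finite V] (k : ℕ) (e : V × V) (A : Set (V × V)) :
    Y k (insert e A) ≤ Y k A + 1 := by
  classical
  obtain ⟨σ, h1, h2⟩ := exists_opt k A
  have h3 : valid (Function.update σ e.1 none) (insert e A) := by
    rw [valid_insert]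
    refine ⟨?_, valid_update_none h1 _⟩
    right; left; simp
  calc Y k (insert e A) ≤ cost (Function.update σ e.1 none) := Y_le h3
    _ ≤ cost σ + 1 := cost_update_le σ e.1
    _ = Y k A + 1 := by rw [h2]

theorem Y_union_finset_le [Finite V] (k : ℕ) (A : Set (V × V)) (B : Finset (V × V)) :
    Y k (A ∪ ↑B) ≤ Y k A + B.card := by
  classical
  induction B using Finset.induction_on with
  | empty => simp
  | insert b B hb ih =>
    rw [Finset.coe_insert, Set.union_insert, Finset.card_insert_of_notMem hb]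
    have := Y_insert_le k b (A ∪ ↑B)
    omega

theorem Y_union_range_le [Finite V] (k : ℕ) (A : Set (V × V)) {T : ℕ} (g : Fin T → V × V) :
    Y k (A ∪ range g) ≤ Y k A + T := by
  classical
  have h := Y_union_finset_le k A (Finset.univ.image g)
  have h2 : (Finset.univ.image g).card ≤ T := by
    simpa using Finset.card_image_le (s := Finset.univ) (f := g)
  have h3 : ((Finset.univ.image g : Finset (V × V)) : Set (V × V)) = range g := by simp
  rw [h3] at h
  omega

theorem mem_S {σ : PC V k} {A : Set (V × V)} : σ ∈ S k A ↔ valid σ A ∧ cost σ = Y k A := Iff.rfl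

/-- (F3) -/
theorem mem_S_union {A B : Set (V × V)} (h : Y k (A ∪ B) = Y k A) {σ : PC V k} :
    σ ∈ S k (A ∪ B) ↔ σ ∈ S k A ∧ valid σ B := by
  rw [mem_S, mem_S, h, valid_union]; tauto

theorem Y_union_eq_of_exists {A B : Set (V × V)} {σ : PC V k} (h : σ ∈ S k A) (hB : valid σ B) :
    Y k (A ∪ B) = Y k A := by
  apply le_antisymm
  · rw [← h.2]; exact Y_le (valid_union.2 ⟨h.1, hB⟩)
  · exact Y_mono subset_union_left

theorem Y_union_eq_iff {A B : Set (V × V)} :
    Y k (A ∪ B) = Y k A ↔ ∃ σ ∈ S k A, valid σ B := by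
  constructor
  · intro h
    obtain ⟨σ, hσ⟩ := S_nonempty k (A ∪ B)
    exact ⟨σ, (mem_S_union h).1 hσ⟩
  · rintro ⟨σ, h1, h2⟩
    exact Y_union_eq_of_exists h1 h2

theorem Y_insert_eq_iff {A : Set (V × V)} {e : V × V} :
    Y k (insert e A) = Y k A ↔ ∃ σ ∈ S k A, ok σ e := by
  have h1 : insert e A = A ∪ {e} := by rw [union_singleton]
  rw [h1, Y_union_eq_iff]
  constructor
  · rintro ⟨σ, h1, h2⟩; exact ⟨σ, h1, h2 e rfl⟩
  · rintro ⟨σ, h1, h2⟩; exact ⟨σ, h1, fun e' he' => by rw [mem_singleton_iff.1 he']; exact h2⟩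

/-- (F2) -/
theorem Y_insert_succ_iff [Finite V] {A : Set (V × V)} {e : V × V} :
    Y k (insert e A) = Y k A + 1 ↔ ∀ σ ∈ S k A, ¬ ok σ e := by
  have h1 := Y_insert_le k e A
  have h2 : Y k A ≤ Y k (insert e A) := Y_mono (subset_insert _ _)
  have h3 := Y_insert_eq_iff (k := k) (A := A) (e := e)
  constructor
  · intro h σ hσ hok
    have := h3.2 ⟨σ, hσ, hok⟩
    omega
  · intro h
    have h4 : Y k (insert e A) ≠ Y k A := fun h' => by
      obtain ⟨σ, h5, h6⟩ := h3.1 h'
      exact h σ h5 h6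
    omega

/-- the increment of `Y` as an indicator -/
theorem Y_insert_eq_ind [Finite V] (A : Set (V × V)) (e : V × V) :
    (Y k (insert e A) : ℝ) = Y k A + ind (∀ σ ∈ S k A, ¬ ok σ e) := by
  by_cases h : ∀ σ ∈ S k A, ¬ ok σ e
  · rw [ind_true h, Y_insert_succ_iff.2 h]; push_cast; ring
  · rw [ind_false h, add_zero]
    push Not at h
    obtain ⟨σ, h1, h2⟩ := h
    rw [Y_insert_eq_iff.2 ⟨σ, h1, h2⟩]

theorem cost_eq_zero_iff [Finite V] {σ : PC V k} : cost σ = 0 ↔ ∀ v, σ v ≠ none := by
  rw [cost_eq_ncard, ncard_eq_zero (toFinite _)]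
  rw [eq_empty_iff_forall_notMem]
  rfl

theorem Y_eq_zero_iff [Finite V] {A : Set (V × V)} :
    Y k A = 0 ↔ ∃ f : V → Fin k, ∀ e ∈ A, e.1 ≠ e.2 → f e.1 ≠ f e.2 := by
  constructor
  · intro h
    obtain ⟨σ, h1, h2⟩ := exists_opt k A
    rw [h, cost_eq_zero_iff] at h2
    choose f hf using fun v => Option.ne_none_iff_exists'.1 (h2 v)
    refine ⟨f, fun e he hne heq => ?_⟩
    rcases h1 e he with h | h | h
    · exact hne h
    · exact h2 _ h
    · apply h; rw [hf, hf, heq]
  · rintro ⟨f, hf⟩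
    have h1 : valid (fun v => some (f v) : PC V k) A := by
      intro e he
      by_cases h : e.1 = e.2
      · exact Or.inl h
      · right; right
        intro h2
        exact hf e he h (Option.some_injective _ h2)
    have h2 : cost (fun v => some (f v) : PC V k) = 0 := by
      rw [cost_eq_zero_iff]; intro v; simp
    have := Y_le h1
    omega

/-! colour permutations -/

theorem ok_map (π : Equiv.Perm (Fin k)) (σ : PC V k) (e : V × V) :
    ok (fun v => (σ v).map π) e ↔ ok σ e := by
  unfold ok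
  have h1 : ((σ e.1).map π = none) ↔ σ e.1 = none := by simp
  have h2 : ((σ e.1).map π ≠ (σ e.2).map π) ↔ σ e.1 ≠ σ e.2 := by
    rw [not_iff_not]
    exact (Option.map_injective π.injective).eq_iff
  rw [h1, h2]

theorem valid_map (π : Equiv.Perm (Fin k)) (σ : PC V k) (A : Set (V × V)) :
    valid (fun v => (σ v).map π) A ↔ valid σ A :=
  forall₂_congr fun e _ => ok_map π σ e

theorem cost_map (π : Equiv.Perm (Fin k)) (σ : PC V k) :
    cost (fun v => (σ v).map π) = cost σ := by
  unfold cost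
  simp

theorem Sym_S (k : ℕ) (A : Set (V × V)) : Sym (S k A) := by
  intro π σ h
  refine ⟨(valid_map π σ A).2 h.1, ?_⟩
  have := cost_map π σ
  rw [this]; exact h.2

theorem Sym_sep {F : Set (PC V k)} (h : Sym F) (B : Set (V × V)) : Sym {σ ∈ F | valid σ B} := by
  intro π σ hσ
  exact ⟨h π σ hσ.1, (valid_map π σ B).2 hσ.2⟩

theorem Sym_Su (k : ℕ) (A : Set (V × V)) (u : V) : Sym (Su k A u) := by
  intro π σ h
  refine ⟨(valid_map π σ A).2 h.1, ?_, ?_⟩
  · simp [h.2.1]
  · have := cost_map π σ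
    rw [this]; exact h.2.2

/-- a valid partial colouring gives a transversal -/
theorem tr_avoid {ι : Type} (c : Fin k) {σ : PC V k} {g : ι → V × V} (h : valid σ (range g)) :
    Tr {v | avoid c σ v} g := by
  intro i hi
  by_contra hcon
  push Not at hcon
  simp only [mem_setOf_eq, avoid, not_not] at hcon
  rcases h (g i) ⟨i, rfl⟩ with h | h | h
  · exact hi h
  · rw [hcon.1] at h; simp at h
  · exact h (hcon.1.trans hcon.2.symm)

/-- colour symmetry: fewer than `k` vertices can be made to avoid the colour `c` -/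
theorem sym_avoid {F : Set (PC V k)} (hF : Sym F) (c : Fin k) {σ : PC V k} (hσ : σ ∈ F)
    (I : Finset V) (hI : I.card < k) :
    ∃ π : Equiv.Perm (Fin k), (fun v => (σ v).map π) ∈ F ∧
      ∀ v ∈ I, avoid c (fun v => (σ v).map π) v := by
  classical
  -- a colour not used on I
  have h1 : ∃ a : Fin k, ∀ v ∈ I, σ v ≠ some a := by
    by_contra hcon
    push Not at hcon
    choose f hf hf2 using hcon
    have hinj : Function.Injective f := by
      intro a b hab
      have h2 := hf2 a
      rw [hab, hf2 b] at h2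
      exact (Option.some_injective _ h2).symm
    have h3 : (Finset.univ.image f).card ≤ I.card :=
      Finset.card_le_card (fun v hv => by
        rw [Finset.mem_image] at hv
        obtain ⟨a, _, rfl⟩ := hv
        exact hf a)
    rw [Finset.card_image_of_injective _ hinj] at h3
    simp at h3
    omega
  obtain ⟨a, ha⟩ := h1
  refine ⟨Equiv.swap a c, hF _ σ hσ, ?_⟩
  intro v hv hcon
  simp only [Option.map_eq_some_iff] at hcon
  obtain ⟨b, hb, hb2⟩ := hcon
  have : b = a := by
    have h4 := (Equiv.swap a c).injective (hb2.trans (Equiv.swap_apply_left a c).symm)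
    exact h4
  exact ha v hv (this ▸ hb)

/-! `Yu` and `Su` -/

theorem exists_optU (k : ℕ) (A : Set (V × V)) (u : V) :
    ∃ σ : PC V k, valid σ A ∧ σ u = none ∧ cost σ = Yu k A u := by
  have h : ({c : ℕ | ∃ σ : PC V k, valid σ A ∧ σ u = none ∧ cost σ = c} : Set ℕ).Nonempty :=
    ⟨_, fun _ => none, valid_none A, rfl, rfl⟩
  exact Nat.sInf_mem h

theorem Su_nonempty (k : ℕ) (A : Set (V × V)) (u : V) : (Su k A u).Nonempty := exists_optU k A u

theorem Yu_le {σ : PC V k} {A : Set (V × V)} {u : V} (h : valid σ A) (hu : σ u = none) :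
    Yu k A u ≤ cost σ :=
  Nat.sInf_le ⟨σ, h, hu, rfl⟩

theorem Y_le_Yu (k : ℕ) (A : Set (V × V)) (u : V) : Y k A ≤ Yu k A u := by
  obtain ⟨σ, h1, _, h3⟩ := exists_optU k A u
  exact h3 ▸ Y_le h1

/-- if `u` is uncoloured, only the edges not at `u` matter -/
theorem valid_congr_of_none {σ : PC V k} {A A' : Set (V × V)} {u : V} (hu : σ u = none)
    (h : ∀ e : V × V, e.1 ≠ u → e.2 ≠ u → (e ∈ A ↔ e ∈ A')) : valid σ A ↔ valid σ A' := by
  have key : ∀ A A' : Set (V × V), (∀ e : V × V, e.1 ≠ u → e.2 ≠ u → (e ∈ A ↔ e ∈ A')) →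
      valid σ A → valid σ A' := by
    intro A A' h hA e he
    by_cases h1 : e.1 = u
    · right; left; rw [h1, hu]
    by_cases h2 : e.2 = u
    · by_cases h3 : σ e.1 = none
      · right; left; exact h3
      · right; right; rw [h2, hu]; exact h3
    · exact hA e ((h e h1 h2).2 he)
  exact ⟨key A A' h, key A' A fun e h1 h2 => (h e h1 h2).symm⟩

theorem Su_congr {A A' : Set (V × V)} {u : V}
    (h : ∀ e : V × V, e.1 ≠ u → e.2 ≠ u → (e ∈ A ↔ e ∈ A')) : Su k A u = Su k A' u := by
  have h1 : Yu k A u = Yu k A' u := by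
    unfold Yu
    congr 1
    ext c
    constructor
    · rintro ⟨σ, h1, h2, h3⟩
      exact ⟨σ, (valid_congr_of_none h2 h).1 h1, h2, h3⟩
    · rintro ⟨σ, h1, h2, h3⟩
      exact ⟨σ, (valid_congr_of_none h2 h).2 h1, h2, h3⟩
  ext σ
  unfold Su
  simp only [mem_setOf_eq, h1]
  constructor
  · rintro ⟨h2, h3, h4⟩
    exact ⟨(valid_congr_of_none h3 h).1 h2, h3, h4⟩
  · rintro ⟨h2, h3, h4⟩
    exact ⟨(valid_congr_of_none h3 h).2 h2, h3, h4⟩

end Pool.ER
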