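import Pool.Agent.Work.MP_3e81b4_47.Interface
import Pool.Agent.Work.MP_3e81b4_47.Basic

set_option autoImplicit false

/-! Block INTERP: `StmtInterpSwap -> StmtInterpAdd -> StmtInterpPart -> StmtInterpRem -> StmtInterp`. -/

namespace Pool.ER

open Set

namespace InterpAux

theorem Y_equiv_le {V W : Type} (k : ℕ) {ι : Type} (e : V ≃ W) (x : ι → V × V) :
    Y k (range fun j => (e (x j).1, e (x j).2)) ≤ Y k (range x) := by
  obtain ⟨σ, hσ, hc⟩ := exists_opt k (range x)
  have hv : valid (fun w => σ (e.symm w)) (range fun j => (e (x j).1, e (x j).2)) := by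
    rintro _ ⟨j, rfl⟩
    have h := hσ (x j) ⟨j, rfl⟩
    unfold ok at h ⊢
    simp only [Equiv.symm_apply_apply]
    rcases h with h | h | h
    · exact Or.inl (by rw [h])
    · exact Or.inr (Or.inl h)
    · exact Or.inr (Or.inr h)
  have hcost : cost (fun w => σ (e.symm w)) = cost σ := by
    unfold cost
    exact Nat.card_congr (Equiv.subtypeEquiv e.symm (fun w => Iff.rfl))
  calc Y k (range fun j => (e (x j).1, e (x j).2)) ≤ cost (fun w => σ (e.symm w)) := Y_le hv
    _ = Y k (range x) := by rw [hcost, hc]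

theorem Y_equiv {V W : Type} (k : ℕ) {ι : Type} (e : V ≃ W) (x : ι → V × V) :
    Y k (range fun j => (e (x j).1, e (x j).2)) = Y k (range x) := by
  refine le_antisymm (Y_equiv_le k e x) ?_
  have h := Y_equiv_le k e.symm (fun j => (e (x j).1, e (x j).2))
  simp only [Equiv.symm_apply_apply] at h
  exact h

theorem yy_equiv {V W : Type} [Fintype V] [Fintype W] (k M : ℕ) (e : V ≃ W) :
    yy k V M = yy k W M := by
  unfold yy
  rw [← avg_equiv (Equiv.arrowCongr (Equiv.refl (Fin M)) (Equiv.prodCongr e e))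
    (fun x : Fin M → W × W => (Y k (range x) : ℝ))]
  congr 1
  funext x
  have h := Y_equiv k e x
  have h2 : (Equiv.arrowCongr (Equiv.refl (Fin M)) (Equiv.prodCongr e e)) x =
      fun j => (e (x j).1, e (x j).2) := by
    funext j
    rfl
  rw [h2, h]

/-- the real arithmetic -/
theorem arith {c M m N n p y : ℝ} (hc : 0 ≤ c) (hn : 1 ≤ n) (hp : 1 ≤ p) (hpn : p * n ≤ N)
    (hN : N < (p + 1) * n) (hy : 0 ≤ y) (hM0 : 0 ≤ M) (hM : M ≤ c * N) (hM' : c * N - 1 ≤ M)
    (hm : m ≤ c * n) (hm' : c * n - 1 ≤ m) :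
    (p * (y + Real.sqrt (M / p) + |M / p - m|) + M / n + (N - p * n)) / N ≤
      y / n + (Real.sqrt (2 * c) + c + 2) / Real.sqrt n + (Real.sqrt (2 * c) + c + 2) * n / N := by
  have hn0 : 0 < n := by linarith
  have hp0 : 0 < p := by linarith
  have hN0 : 0 < N := lt_of_lt_of_le (by positivity) hpn
  have hsn : 0 < Real.sqrt n := Real.sqrt_pos.2 hn0
  have hsc : 0 ≤ Real.sqrt (2 * c) := Real.sqrt_nonneg _
  -- p / N ≤ 1 / n
  have h1 : p / N ≤ 1 / n := by
    rw [div_le_div_iff₀ hN0 hn0]; linarith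
  -- sqrt
  have h2 : Real.sqrt (M / p) ≤ Real.sqrt (2 * c) * Real.sqrt n := by
    rw [← Real.sqrt_mul (by linarith)]
    apply Real.sqrt_le_sqrt
    rw [div_le_iff₀ hp0]
    have : N ≤ 2 * n * p := by nlinarith
    nlinarith
  -- abs
  have h3 : |M / p - m| ≤ (c * n + 1) / p + 1 := by
    have e1 : M / p ≤ c * n + c * n / p := by
      rw [div_le_iff₀ hp0]
      have e2 : (c * n + c * n / p) * p = c * n * p + c * n := by field_simp
      rw [e2]
      nlinarith
    have e3 : c * n - 1 / p ≤ M / p := by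
      rw [le_div_iff₀ hp0]
      have e4 : (c * n - 1 / p) * p = c * n * p - 1 := by field_simp
      rw [e4]
      nlinarith
    have e5 : (c * n + 1) / p = c * n / p + 1 / p := by rw [add_div]
    have e6 : 0 ≤ c * n / p := by positivity
    have e7 : 0 ≤ 1 / p := by positivity
    rw [abs_le]
    constructor
    · rw [e5]; linarith
    · rw [e5]; linarith
  have key : p * (y + Real.sqrt (M / p) + |M / p - m|) + M / n + (N - p * n) ≤
      N * (y / n) + N * ((Real.sqrt (2 * c)) / Real.sqrt n) + (c * n + 1 + p) + c * N / n + n := by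
    have hpN : p ≤ N / n := by rw [le_div_iff₀ hn0]; exact hpn
    have a1 : p * y ≤ N * (y / n) := by
      calc p * y ≤ (N / n) * y := mul_le_mul_of_nonneg_right hpN hy
        _ = N * (y / n) := by ring
    have a2 : p * Real.sqrt (M / p) ≤ N * ((Real.sqrt (2 * c)) / Real.sqrt n) := by
      calc p * Real.sqrt (M / p) ≤ (N / n) * (Real.sqrt (2 * c) * Real.sqrt n) :=
            mul_le_mul hpN h2 (Real.sqrt_nonneg _) (by positivity)
        _ = N * ((Real.sqrt (2 * c)) / Real.sqrt n) := by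
          have : n = Real.sqrt n * Real.sqrt n := (Real.mul_self_sqrt hn0.le).symm
          rw [div_mul_eq_mul_div, div_eq_iff hn0.ne']
          have h5 : N * (Real.sqrt (2 * c) / Real.sqrt n) * n =
              N * (Real.sqrt (2 * c) / Real.sqrt n) * (Real.sqrt n * Real.sqrt n) := by
            rw [← this]
          rw [h5]
          field_simp
    have a3 : p * |M / p - m| ≤ c * n + 1 + p := by
      calc p * |M / p - m| ≤ p * ((c * n + 1) / p + 1) := mul_le_mul_of_nonneg_left h3 hp0.le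
        _ = c * n + 1 + p := by field_simp
    have a4 : M / n ≤ c * N / n := div_le_div_of_nonneg_right hM hn0.le
    have a5 : N - p * n ≤ n := by nlinarith
    nlinarith
  rw [div_le_iff₀ hN0]
  refine key.trans ?_
  have hs1 : Real.sqrt n ≤ n := by
    rw [Real.sqrt_le_left (by linarith)]
    nlinarith
  have b1 : p ≤ N / Real.sqrt n := by
    rw [le_div_iff₀ hsn]
    calc p * Real.sqrt n ≤ p * n := mul_le_mul_of_nonneg_left hs1 hp0.le
      _ ≤ N := hpn
  have b2 : c * N / n ≤ c * N / Real.sqrt n :=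
    div_le_div_of_nonneg_left (by positivity) hsn hs1
  have b3 : (1 : ℝ) ≤ n := hn
  have e : (y / n + (Real.sqrt (2 * c) + c + 2) / Real.sqrt n +
      (Real.sqrt (2 * c) + c + 2) * n / N) * N =
      N * (y / n) + N * (Real.sqrt (2 * c) / Real.sqrt n) + (c * N / Real.sqrt n) +
        2 * (N / Real.sqrt n) + (Real.sqrt (2 * c) + c + 2) * n := by
    field_simp
    ring
  rw [e]
  have b4 : 0 ≤ N / Real.sqrt n := by positivity
  have b5 : 0 ≤ Real.sqrt (2 * c) * n := by positivity
  nlinarith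

end InterpAux

open InterpAux in
theorem INTERP (hS : StmtInterpSwap) (hA : StmtInterpAdd) (hP : StmtInterpPart)
    (hR : StmtInterpRem) : StmtInterp := by
  intro k c hc
  refine ⟨Real.sqrt (2 * c) + c + 2, fun n hn N hnN => ?_⟩
  set p := N / n with hp
  have hn0 : 0 < n := hn
  have hp1 : 1 ≤ p := (Nat.one_le_div_iff hn0).2 hnN
  have hpn : p * n ≤ N := Nat.div_mul_le_self N n
  have hN : N < (p + 1) * n := by
    have := Nat.lt_div_mul_add hn0 (a := N)
    rw [add_mul, one_mul]; exact this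
  set M := ⌊c * (N : ℝ)⌋₊ with hM
  set m := ⌊c * (n : ℝ)⌋₊ with hm
  haveI : Nonempty (Fin p) := ⟨⟨0, hp1⟩⟩
  haveI : Nonempty (Fin n) := ⟨⟨0, hn0⟩⟩
  have r1 : yy k (Fin N) M ≤ yy k (Fin (p * n)) M + ((N : ℝ) - ((p * n : ℕ) : ℝ)) :=
    hR k N (p * n) M hpn (Nat.mul_pos hp1 hn0)
  have r2 : yy k (Fin (p * n)) M = yy k (Fin p × Fin n) M :=
    (yy_equiv k M finProdFinEquiv).symm
  have r3 := hS k (Fin p) (Fin n) M
  have r4 : (avg fun x : Fin M → Fin p × Fin n × Fin n =>
      (Y k (range fun j => splitE (x j)) : ℝ)) =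
      ∑ i : Fin p, avg fun x : Fin M → Fin p × Fin n × Fin n => (Y k (partEdges x i) : ℝ) := by
    rw [← avg_sum]
    congr 1
    funext x
    rw [hA k (Fin p) (Fin n) M x]
    push_cast
    rfl
  have r5 : ∑ i : Fin p, (avg fun x : Fin M → Fin p × Fin n × Fin n =>
      (Y k (partEdges x i) : ℝ)) ≤
      (p : ℝ) * (yy k (Fin n) m + Real.sqrt (M / p) + |(M : ℝ) / p - m|) := by
    have h : ∀ i ∈ (Finset.univ : Finset (Fin p)),
        (avg fun x : Fin M → Fin p × Fin n × Fin n => (Y k (partEdges x i) : ℝ)) ≤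
        yy k (Fin n) m + Real.sqrt (M / p) + |(M : ℝ) / p - m| := by
      intro i _
      have := hP k (Fin p) (Fin n) M m i
      simp only [nn, Fintype.card_fin] at this
      exact this
    have h2 := Finset.sum_le_card_nsmul _ _ _ h
    rw [Finset.card_univ, Fintype.card_fin, nsmul_eq_mul] at h2
    exact h2
  have r6 : yy k (Fin N) M ≤
      (p : ℝ) * (yy k (Fin n) m + Real.sqrt (M / p) + |(M : ℝ) / p - m|) + (M : ℝ) / n +
        ((N : ℝ) - (p : ℝ) * n) := by
    simp only [nn, Fintype.card_fin] at r3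
    rw [r4] at r3
    rw [r2] at r1
    push_cast at r1
    linarith
  have hN0 : (0 : ℝ) < N := by exact_mod_cast lt_of_lt_of_le hn0 hnN
  have hy : 0 ≤ yy k (Fin n) m := avg_nonneg fun x => Nat.cast_nonneg _
  have fl1 : (M : ℝ) ≤ c * N := Nat.floor_le (by positivity)
  have fl2 : c * N - 1 ≤ (M : ℝ) := by
    have := Nat.lt_floor_add_one (c * (N : ℝ))
    rw [← hM] at this; linarith
  have fl3 : (m : ℝ) ≤ c * n := Nat.floor_le (by positivity)
  have fl4 : c * n - 1 ≤ (m : ℝ) := by
    have := Nat.lt_floor_add_one (c * (n : ℝ))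
    rw [← hm] at this; linarith
  have a := arith (c := c) (M := M) (m := m) (N := N) (n := n) (p := p) (y := yy k (Fin n) m)
    hc (by exact_mod_cast hn) (by exact_mod_cast hp1) (by exact_mod_cast hpn)
    (by exact_mod_cast hN) hy (Nat.cast_nonneg _) fl1 fl2 fl3 fl4
  exact (div_le_div_of_nonneg_right r6 hN0.le).trans a

end Pool.ER
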