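import Pool.Agent.Work.MP_3e81b4_47.Interface

set_option autoImplicit false

/-! Block ADD: additivity of `Y` on disjoint unions. -/

namespace Pool.ER

open Set

namespace AddBlk

variable {V : Type} {k : ℕ}

theorem exists_opt (A : Set (V × V)) : ∃ σ : PC V k, valid σ A ∧ cost σ = Y k A := by
  have h : ({c : ℕ | ∃ σ : PC V k, valid σ A ∧ cost σ = c}).Nonempty :=
    ⟨cost (fun _ => none : PC V k), fun _ => none, fun e _ => Or.inr (Or.inl rfl), rfl⟩
  exact Nat.sInf_mem h

theorem Y_le_cost {A : Set (V × V)} {σ : PC V k} (h : valid σ A) : Y k A ≤ cost σ :=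
  Nat.sInf_le ⟨σ, h, rfl⟩

variable {P W : Type}

theorem cost_prod [Fintype P] [Fintype W] (σ : PC (P × W) k) :
    cost σ = ∑ i : P, cost (fun w => σ (i, w)) := by
  unfold cost
  rw [← Nat.card_sigma]
  refine Nat.card_congr ?_
  exact
    { toFun := fun v => ⟨v.1.1, ⟨v.1.2, v.2⟩⟩
      invFun := fun u => ⟨(u.1, u.2.1), u.2.2⟩
      left_inv := fun v => rfl
      right_inv := fun u => rfl }

theorem valid_split {M : ℕ} (x : Fin M → P × W × W) (σ : PC (P × W) k) :
    valid σ (range fun j => splitE (x j)) ↔ ∀ i, valid (fun w => σ (i, w)) (partEdges x i) := by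
  constructor
  · rintro h i e ⟨j, hj⟩
    have h1 := h (splitE (x j)) ⟨j, rfl⟩
    rw [hj] at h1
    rcases h1 with h2 | h2 | h2
    · left
      have := congrArg Prod.snd h2
      exact this
    · exact Or.inr (Or.inl h2)
    · exact Or.inr (Or.inr h2)
  · rintro h e ⟨j, rfl⟩
    have h1 := h (x j).1 (x j).2 ⟨j, rfl⟩
    rcases h1 with h2 | h2 | h2
    · left
      show (((x j).1, (x j).2.1) : P × W) = ((x j).1, (x j).2.2)
      rw [h2]
    · exact Or.inr (Or.inl h2)
    · exact Or.inr (Or.inr h2)

end AddBlk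

open AddBlk in
theorem InterpAdd : StmtInterpAdd := by
  intro k P W _ _ M x
  apply le_antisymm
  · choose σ hσ hc using fun i : P => exists_opt (k := k) (partEdges x i)
    have hv : valid (fun v : P × W => σ v.1 v.2) (range fun j => splitE (x j)) := by
      rw [valid_split]
      exact fun i => hσ i
    refine (Y_le_cost hv).trans (le_of_eq ?_)
    rw [cost_prod]
    exact Finset.sum_congr rfl fun i _ => hc i
  · obtain ⟨σ, hσ, hc⟩ := exists_opt (k := k) (range fun j => splitE (x j))
    rw [← hc, cost_prod]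
    rw [valid_split] at hσ
    exact Finset.sum_le_sum fun i _ => Y_le_cost (hσ i)

end Pool.ER
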