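import Pool.Agent.Work.MP_3e81b4_47.Interface

set_option autoImplicit false

/-! Block PART of S19279: one part of the split graph (StmtInterpPart). -/

namespace Pool.ER

namespace Part

section basic

variable {V : Type} {k : ℕ}

theorem costSet_nonempty (k : ℕ) (A : Set (V × V)) :
    {c : ℕ | ∃ σ : PC V k, valid σ A ∧ cost σ = c}.Nonempty :=
  ⟨_, fun _ => none, fun _ _ => Or.inr (Or.inl rfl), rfl⟩

theorem exists_opt (k : ℕ) (A : Set (V × V)) :
    ∃ σ : PC V k, valid σ A ∧ cost σ = Y k A :=
  Nat.sInf_mem (costSet_nonempty k A)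

theorem Y_le {A : Set (V × V)} {σ : PC V k} (h : valid σ A) : Y k A ≤ cost σ :=
  Nat.sInf_le ⟨σ, h, rfl⟩

theorem Y_mono {A B : Set (V × V)} (h : A ⊆ B) : Y k A ≤ Y k B := by
  obtain ⟨σ, hσ, hc⟩ := exists_opt k B
  rw [← hc]
  exact Y_le fun e he => hσ e (h he)

theorem cost_update [Finite V] (σ : PC V k) (v : V) [DecidableEq V] :
    cost (Function.update σ v none) ≤ cost σ + 1 := by
  classical
  unfold cost
  rw [← Set.coe_ofPred, ← Set.coe_ofPred, Nat.card_coe_set_eq, Nat.card_coe_set_eq]
  have h : {w | Function.update σ v none w = none} ⊆ insert v {w | σ w = none} := by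
    intro w hw
    by_cases hwv : w = v
    · exact Or.inl hwv
    · right
      simpa [Function.update_of_ne hwv] using hw
  exact (Set.ncard_le_ncard h (Set.toFinite _)).trans (Set.ncard_insert_le _ _)

theorem Y_insert_le [Finite V] (A : Set (V × V)) (e : V × V) :
    Y k (insert e A) ≤ Y k A + 1 := by
  classical
  obtain ⟨σ, hσ, hc⟩ := exists_opt k A
  rw [← hc]
  refine (Y_le (σ := Function.update σ e.1 none) ?_).trans (cost_update σ e.1)
  intro f hf
  by_cases h1 : f.1 = e.1
  · right; left
    rw [h1, Function.update_self]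
  · rcases hf with hf | hf
    · exact absurd (congrArg Prod.fst hf) h1
    · rcases hσ f hf with h | h | h
      · exact Or.inl h
      · right; left
        rw [Function.update_of_ne h1]; exact h
      · by_cases h2 : f.2 = e.1
        · by_cases h3 : σ f.1 = none
          · right; left
            rw [Function.update_of_ne h1]; exact h3
          · right; right
            rw [Function.update_of_ne h1, h2, Function.update_self]
            exact h3
        · right; right
          rw [Function.update_of_ne h1, Function.update_of_ne h2]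
          exact h

end basic

section yyl

variable (k : ℕ) (V : Type) [Fintype V] [Nonempty V]

theorem yy_le_succ (M : ℕ) : yy k V M ≤ yy k V (M + 1) := by
  unfold yy
  rw [← avg_marginal (ι := Fin (M + 1)) (κ := Fin M) (E := V × V) Fin.castSucc
    (Fin.castSucc_injective M) (fun x => (Y k (Set.range x) : ℝ))]
  refine avg_mono fun x => ?_
  have : Y k (Set.range (x ∘ Fin.castSucc)) ≤ Y k (Set.range x) :=
    Y_mono (Set.range_comp_subset_range _ _)
  exact_mod_cast this

theorem yy_succ_le (M : ℕ) : yy k V (M + 1) ≤ yy k V M + 1 := by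
  unfold yy
  rw [← avg_marginal (ι := Fin (M + 1)) (κ := Fin M) (E := V × V) Fin.castSucc
    (Fin.castSucc_injective M) (fun x => (Y k (Set.range x) : ℝ))]
  have h1 : (1 : ℝ) = avg (fun _ : Fin (M + 1) → V × V => (1 : ℝ)) := (avg_const 1).symm
  conv_rhs => rw [h1]
  rw [← avg_add]
  refine avg_mono fun x => ?_
  have h2 : Set.range x ⊆ insert (x (Fin.last M)) (Set.range (x ∘ Fin.castSucc)) := by
    rintro _ ⟨j, rfl⟩
    induction j using Fin.lastCases with
    | last => exact Or.inl rfl
    | cast j => exact Or.inr ⟨j, rfl⟩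
  have : Y k (Set.range x) ≤ Y k (Set.range (x ∘ Fin.castSucc)) + 1 :=
    (Y_mono h2).trans (Y_insert_le _ _)
  exact_mod_cast this

theorem yy_mono : Monotone (yy k V) := monotone_nat_of_le_succ (yy_le_succ k V)

theorem yy_add_le (M a : ℕ) : yy k V (M + a) ≤ yy k V M + a := by
  induction a with
  | zero => simp
  | succ a ih =>
    have := yy_succ_le k V (M + a)
    rw [← add_assoc]
    push_cast
    linarith

theorem yy_le_abs (N m : ℕ) : yy k V N ≤ yy k V m + |(N : ℝ) - m| := by
  rcases le_total N m with h | h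
  · exact (yy_mono k V h).trans (le_add_of_nonneg_right (abs_nonneg _))
  · obtain ⟨a, rfl⟩ := Nat.exists_eq_add_of_le h
    refine (yy_add_le k V m a).trans ?_
    have : ((m + a : ℕ) : ℝ) - m = a := by push_cast; ring
    rw [this, abs_of_nonneg (Nat.cast_nonneg a)]

end yyl

section variance

variable {P : Type} [Fintype P] [Nonempty P]

/-- sum of centred iid variables: mean zero -/
theorem avg_sum_iid_zero (X : P → ℝ) (hX : avg X = 0) (M : ℕ) :
    (avg fun a : Fin M → P => ∑ j, X (a j)) = 0 := by
  classical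
  have h : ∀ j : Fin M, (avg fun a : Fin M → P => X (a j)) = 0 := by
    intro j
    have := avg_marginal (ι := Fin M) (κ := Unit) (E := P) (fun _ => j)
      (fun _ _ _ => rfl) (fun x => X (x ()))
    have h2 : (avg fun x : Unit → P => X (x ())) = avg X :=
      avg_equiv (Equiv.funUnique Unit P) X
    rw [h2, hX] at this
    exact this
  have h3 := avg_sum (Ω := Fin M → P) Finset.univ (fun j a => X (a j))
  rw [h3]
  exact Finset.sum_eq_zero fun j _ => h j

theorem avg_cons {E : Type} [Fintype E] [Nonempty E] (M : ℕ) (f : (Fin (M + 1) → E) → ℝ) :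
    avg f = avg fun p : E => avg fun a : Fin M → E => f (Fin.cons p a) := by
  rw [← avg_prod (fun q : E × (Fin M → E) => f (Fin.cons q.1 q.2))]
  exact (avg_equiv (Fin.consEquiv (fun _ : Fin (M + 1) => E)) f).symm

theorem avg_sq_sum_iid (X : P → ℝ) (hX : avg X = 0) (M : ℕ) :
    (avg fun a : Fin M → P => (∑ j, X (a j)) ^ 2) = M * avg fun p => X p ^ 2 := by
  induction M with
  | zero => simp [avg_const]
  | succ M ih =>
    rw [avg_cons]
    have h1 : ∀ p : P, (avg fun a : Fin M → P =>
        (∑ j, X ((Fin.cons p a : Fin (M + 1) → P) j)) ^ 2)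
        = X p ^ 2 + M * avg fun p => X p ^ 2 := by
      intro p
      have h2 : (fun a : Fin M → P => (∑ j, X ((Fin.cons p a : Fin (M + 1) → P) j)) ^ 2)
          = fun a => (X p ^ 2 + 2 * X p * ∑ j, X (a j)) + (∑ j, X (a j)) ^ 2 := by
        funext a
        rw [Fin.sum_univ_succ]
        simp only [Fin.cons_zero, Fin.cons_succ]
        ring
      rw [h2, avg_add, avg_add, ih, avg_const, avg_mul_left, avg_sum_iid_zero X hX]
      ring
    simp only [h1]
    rw [avg_add, avg_const]
    push_cast
    ring

/-- number of indices with value `i` -/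
noncomputable def cnt {M : ℕ} (i : P) (a : Fin M → P) : ℕ := Nat.card {j : Fin M // a j = i}

omit [Fintype P] [Nonempty P] in
theorem cnt_eq {M : ℕ} (i : P) (a : Fin M → P) : (cnt i a : ℝ) = ∑ j, ind (a j = i) := by
  classical
  unfold cnt ind
  rw [Nat.card_eq_fintype_card, Fintype.card_subtype, Finset.sum_ite, Finset.sum_const_zero,
    add_zero, Finset.sum_const, nsmul_eq_mul, mul_one]

omit [Nonempty P] in
theorem avg_ind_eq (i : P) : (avg fun p : P => ind (p = i)) = 1 / nn P := by
  classical
  unfold avg ind nn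
  congr 1
  rw [Finset.sum_ite, Finset.sum_const_zero, add_zero, Finset.sum_const, nsmul_eq_mul, mul_one]
  have : (Finset.univ.filter fun p : P => p = i) = {i} := by ext; simp
  rw [this]; simp

theorem avg_abs_cnt_le {M : ℕ} (i : P) :
    (avg fun a : Fin M → P => |(cnt i a : ℝ) - M / nn P|) ≤ Real.sqrt (M / nn P) := by
  classical
  have hp : 0 < nn P := by unfold nn; exact_mod_cast Fintype.card_pos
  set X : P → ℝ := fun p => ind (p = i) - 1 / nn P with hXdef
  have hX : avg X = 0 := by
    rw [hXdef, avg_sub, avg_ind_eq, avg_const]; ring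
  have hX2 : (avg fun p => X p ^ 2) ≤ 1 / nn P := by
    have h1 : (fun p => X p ^ 2) = fun p => (1 - 2 * (1 / nn P)) * ind (p = i)
        + (1 / nn P) ^ 2 := by
      funext p
      have := ind_sq (p = i)
      simp only [hXdef]
      nlinarith [this]
    rw [h1, avg_add, avg_mul_left, avg_ind_eq, avg_const]
    have : (0:ℝ) ≤ (1 / nn P) ^ 2 := by positivity
    nlinarith
  have hsum : ∀ a : Fin M → P, (cnt i a : ℝ) - M / nn P = ∑ j, X (a j) := by
    intro a
    rw [cnt_eq]
    simp only [hXdef]
    rw [Finset.sum_sub_distrib, Finset.sum_const, Finset.card_univ, Fintype.card_fin,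
      nsmul_eq_mul]
    ring
  have h1 := avg_mul_le_sqrt (Ω := Fin M → P) (fun a => |(cnt i a : ℝ) - M / nn P|) (fun _ => 1)
  simp only [mul_one, one_pow, avg_const, sq_abs] at h1
  refine h1.trans (Real.sqrt_le_sqrt ?_)
  have h2 : (fun a : Fin M → P => ((cnt i a : ℝ) - M / nn P) ^ 2)
      = fun a => (∑ j, X (a j)) ^ 2 := by
    funext a; rw [hsum]
  rw [h2, avg_sq_sum_iid X hX]
  have hM : (0:ℝ) ≤ M := Nat.cast_nonneg M
  calc (M : ℝ) * avg (fun p => X p ^ 2) ≤ M * (1 / nn P) := mul_le_mul_of_nonneg_left hX2 hM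
    _ = M / nn P := by ring

end variance

/-- conditional on the parts, the part `i` is an iid multigraph with `cnt i a` edges -/
theorem avg_part {P W : Type} [Fintype P] [Fintype W] [Nonempty W] (k M : ℕ) (i : P)
    (a : Fin M → P) :
    (avg fun b : Fin M → W × W => (Y k {e | ∃ j, a j = i ∧ b j = e} : ℝ)) = yy k W (cnt i a) := by
  classical
  have e : Fin (cnt i a) ≃ {j : Fin M // a j = i} :=
    (Finite.equivFin {j : Fin M // a j = i}).symm
  unfold yy
  rw [← avg_marginal (ι := Fin M) (κ := Fin (cnt i a)) (E := W × W) (fun t => (e t : Fin M))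
    (fun s t h => e.injective (Subtype.ext h)) (fun x => (Y k (Set.range x) : ℝ))]
  congr 1
  funext b
  congr 2
  ext f
  constructor
  · rintro ⟨j, hj, hb⟩
    refine ⟨e.symm ⟨j, hj⟩, ?_⟩
    simp only [Function.comp, Equiv.apply_symm_apply]
    exact hb
  · rintro ⟨t, ht⟩
    exact ⟨e t, (e t).2, ht⟩

end Part

theorem part : StmtInterpPart := by
  intro k P W _ _ _ _ M m i
  classical
  have h0 : (avg fun x : Fin M → P × W × W => (Y k (partEdges x i) : ℝ))
      = avg fun a : Fin M → P => yy k W (Part.cnt i a) := by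
    have h1 := avg_equiv (Equiv.arrowProdEquivProdArrow (Fin M) (fun _ => P) (fun _ => W × W))
      (fun q : (Fin M → P) × (Fin M → W × W) => (Y k {e | ∃ j, q.1 j = i ∧ q.2 j = e} : ℝ))
    rw [avg_prod] at h1
    simp only [Part.avg_part] at h1
    rw [← h1]
    congr 1
    funext x
    congr 2
    ext e
    simp only [partEdges, Set.mem_ofPred_eq]
    constructor
    · rintro ⟨j, hj⟩
      refine ⟨j, ?_, ?_⟩
      · change (x j).1 = i
        rw [hj]
      · change (x j).2 = e
        rw [hj]
    · rintro ⟨j, hj1, hj2⟩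
      exact ⟨j, Prod.ext hj1 hj2⟩
  rw [h0]
  have h2 : (avg fun a : Fin M → P => yy k W (Part.cnt i a))
      ≤ avg fun a : Fin M → P => (yy k W m + |(M : ℝ) / nn P - m|)
        + |(Part.cnt i a : ℝ) - M / nn P| := by
    refine avg_mono fun a => ?_
    have h3 := Part.yy_le_abs k W (Part.cnt i a) m
    have h4 : |(Part.cnt i a : ℝ) - m| ≤ |(Part.cnt i a : ℝ) - M / nn P|
        + |(M : ℝ) / nn P - m| := abs_sub_le _ _ _
    linarith
  rw [avg_add, avg_const] at h2
  have h5 := Part.avg_abs_cnt_le (M := M) i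
  linarith

end Pool.ER
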