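import Pool.Agent.Work.MP_3e81b4_47.Interface

set_option autoImplicit false

/-! Block REM: removing vertices. -/

namespace Pool.ER

open Set

namespace RemBlk

theorem exists_opt {V : Type} {k : ℕ} (A : Set (V × V)) : ∃ σ : PC V k, valid σ A ∧ cost σ = Y k A := by
  have h : ({c : ℕ | ∃ σ : PC V k, valid σ A ∧ cost σ = c}).Nonempty :=
    ⟨cost (fun _ => none : PC V k), fun _ => none, fun e _ => Or.inr (Or.inl rfl), rfl⟩
  exact Nat.sInf_mem h

theorem Y_le_cost {V : Type} {k : ℕ} {A : Set (V × V)} {σ : PC V k} (h : valid σ A) :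
    Y k A ≤ cost σ :=
  Nat.sInf_le ⟨σ, h, rfl⟩

/-- extend a partial colouring of `Fin N'` by `none` -/
def ext {k N : ℕ} (N' : ℕ) (σ : PC (Fin N') k) : PC (Fin N) k :=
  fun v => if h : v.1 < N' then σ ⟨v.1, h⟩ else none

theorem cost_ext {k N N' : ℕ} (h : N' ≤ N) (σ : PC (Fin N') k) :
    cost (ext (N := N) N' σ) ≤ cost σ + (N - N') := by
  unfold cost
  have h2 : Nat.card ({v : Fin N' // σ v = none} ⊕ Fin (N - N')) =
      Nat.card {v : Fin N' // σ v = none} + (N - N') := by
    rw [Nat.card_sum, Nat.card_fin]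
  rw [← h2]
  let f : {v : Fin N // ext (N := N) N' σ v = none} → {v : Fin N' // σ v = none} ⊕ Fin (N - N') :=
    fun v => if hv : v.1.1 < N' then
      Sum.inl ⟨⟨v.1.1, hv⟩, by have := v.2; unfold ext at this; rw [dif_pos hv] at this; exact this⟩
      else Sum.inr ⟨v.1.1 - N', by have := v.1.2; omega⟩
  refine Nat.card_le_card_of_injective f ?_
  intro a b hab
  by_cases ha : a.1.1 < N'
  · by_cases hb : b.1.1 < N'
    · simp only [f, dif_pos ha, dif_pos hb] at hab
      have h3 := Sum.inl.inj hab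
      have h4 := congrArg (fun u => u.1.1) h3
      exact Subtype.ext (Fin.ext h4)
    · simp only [f, dif_pos ha, dif_neg hb] at hab
      exact absurd hab (by simp)
  · by_cases hb : b.1.1 < N'
    · simp only [f, dif_neg ha, dif_pos hb] at hab
      exact absurd hab (by simp)
    · simp only [f, dif_neg ha, dif_neg hb] at hab
      have h3 := Sum.inr.inj hab
      have h4 := congrArg (fun u => u.1) h3
      refine Subtype.ext (Fin.ext ?_)
      simp only at h4
      omega

/-- pairs of vertices of the small graph, as pairs of the large one -/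
def emb {N N' : ℕ} (h : N' ≤ N) (e : Fin N' × Fin N') : Fin N × Fin N :=
  (Fin.castLE h e.1, Fin.castLE h e.2)

theorem emb_inj {N N' : ℕ} (h : N' ≤ N) : Function.Injective (emb h) := by
  rintro ⟨a, b⟩ ⟨c, d⟩ hab
  simp only [emb, Prod.mk.injEq, Fin.castLE_inj] at hab
  exact Prod.ext hab.1 hab.2

/-- deterministic comparison -/
theorem Y_le_of_agree {k N N' M : ℕ} (h : N' ≤ N) (x : Fin M → Fin N × Fin N)
    (z : Fin M → Fin N' × Fin N') (hxz : ∀ j e, x j = emb h e → z j = e) :
    Y k (range x) ≤ Y k (range z) + (N - N') := by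
  obtain ⟨σ, hσ, hc⟩ := exists_opt (k := k) (range z)
  have hv : valid (ext (N := N) N' σ) (range x) := by
    rintro e ⟨j, rfl⟩
    by_cases h1 : (x j).1.1 < N'
    · by_cases h2 : (x j).2.1 < N'
      · have h3 : x j = emb h (⟨(x j).1.1, h1⟩, ⟨(x j).2.1, h2⟩) := by
          refine Prod.ext (Fin.ext ?_) (Fin.ext ?_) <;> rfl
        have h4 := hxz j _ h3
        have h5 := hσ (z j) ⟨j, rfl⟩
        rw [h4] at h5
        unfold ok ext
        rw [dif_pos h1, dif_pos h2]
        rcases h5 with h6 | h6 | h6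
        · left
          have := congrArg Fin.val h6
          exact Fin.ext this
        · exact Or.inr (Or.inl h6)
        · exact Or.inr (Or.inr h6)
      · unfold ok ext
        rw [dif_pos h1, dif_neg h2]
        by_cases h6 : σ ⟨(x j).1.1, h1⟩ = none
        · exact Or.inr (Or.inl h6)
        · exact Or.inr (Or.inr h6)
    · unfold ok ext
      rw [dif_neg h1]
      exact Or.inr (Or.inl rfl)
  refine (Y_le_cost hv).trans ?_
  rw [← hc]
  exact cost_ext h σ

/-- resampling equivalence: if `ι` is an injection `E' → E` there is a bijection of `E × E'` with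
`E' × E` whose first component is `e'` on the pairs `(ι e', _)` -/
theorem exists_resample {E E' : Type} (ι : E' → E) (hι : Function.Injective ι) :
    ∃ Φ : E × E' ≃ E' × E, ∀ e' y, (Φ (ι e', y)).1 = e' := by
  classical
  let e0 : E' ⊕ {i : E // i ∉ Set.range ι} ≃ E :=
    (Equiv.sumCongr (Equiv.ofInjective ι hι) (Equiv.refl _)).trans
      (Equiv.Set.sumCompl (Set.range ι))
  have he : ∀ a, e0 (Sum.inl a) = ι a := fun a => rfl
  let Ψ : (E' ⊕ {i : E // i ∉ Set.range ι}) × E' ≃ E' × (E' ⊕ {i : E // i ∉ Set.range ι}) :=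
    { toFun := fun p => match p with
        | (Sum.inl a, b) => (a, Sum.inl b)
        | (Sum.inr r, b) => (b, Sum.inr r)
      invFun := fun p => match p with
        | (a, Sum.inl b) => (Sum.inl a, b)
        | (a, Sum.inr r) => (Sum.inr r, a)
      left_inv := by
        rintro ⟨a | r, b⟩ <;> rfl
      right_inv := by
        rintro ⟨a, b | r⟩ <;> rfl }
  refine ⟨((Equiv.prodCongr e0.symm (Equiv.refl E')).trans Ψ).trans
    (Equiv.prodCongr (Equiv.refl E') e0), ?_⟩
  intro e' y
  have h1 : e0.symm (ι e') = Sum.inl e' := by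
    rw [Equiv.symm_apply_eq]; exact (he e').symm
  show (Equiv.prodCongr (Equiv.refl E') e0 (Ψ (e0.symm (ι e'), y))).1 = e'
  rw [h1]
  rfl

end RemBlk

open RemBlk in
theorem InterpRem : StmtInterpRem := by
  classical
  intro k N N' M h h0
  have : Nonempty (Fin N') := ⟨⟨0, h0⟩⟩
  have : Nonempty (Fin N) := ⟨⟨0, by omega⟩⟩
  obtain ⟨Φ, hΦ⟩ := exists_resample (emb h) (emb_inj h)
  unfold yy
  -- add the auxiliary edges
  have h1 : (avg fun x : Fin M → Fin N × Fin N => (Y k (range x) : ℝ)) =
      avg fun s : Fin M → (Fin N × Fin N) × (Fin N' × Fin N') =>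
        (Y k (range fun j => (s j).1) : ℝ) := by
    rw [← avg_fst (Ω' := Fin M → Fin N' × Fin N')
      (fun x : Fin M → Fin N × Fin N => (Y k (range x) : ℝ))]
    exact (avg_equiv (Equiv.arrowProdEquivProdArrow (Fin M) (fun _ => Fin N × Fin N) (fun _ => Fin N' × Fin N'))
      (fun p : (Fin M → Fin N × Fin N) × (Fin M → Fin N' × Fin N') =>
        (Y k (range p.1) : ℝ))).symm
  have h2 : (avg fun z : Fin M → Fin N' × Fin N' => (Y k (range z) : ℝ)) =
      avg fun s : Fin M → (Fin N × Fin N) × (Fin N' × Fin N') =>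
        (Y k (range fun j => (Φ (s j)).1) : ℝ) := by
    rw [← avg_fst (Ω' := Fin M → Fin N × Fin N)
      (fun x : Fin M → Fin N' × Fin N' => (Y k (range x) : ℝ))]
    rw [← avg_equiv (Equiv.arrowProdEquivProdArrow (Fin M) (fun _ => Fin N' × Fin N') (fun _ => Fin N × Fin N))
      (fun p : (Fin M → Fin N' × Fin N') × (Fin M → Fin N × Fin N) =>
        (Y k (range p.1) : ℝ))]
    exact (avg_equiv (Equiv.arrowCongr (Equiv.refl (Fin M)) Φ)
      (fun t : Fin M → (Fin N' × Fin N') × (Fin N × Fin N) =>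
        (Y k (range fun j => (t j).1) : ℝ))).symm
  rw [h1, h2, ← avg_const (Ω := Fin M → (Fin N × Fin N) × (Fin N' × Fin N')) ((N : ℝ) - N'), ← avg_add]
  refine avg_mono fun s => ?_
  have h3 := Y_le_of_agree (k := k) h (fun j => (s j).1) (fun j => (Φ (s j)).1) (by
    intro j e he
    have : s j = (emb h e, (s j).2) := Prod.ext he rfl
    rw [this]
    exact hΦ e _)
  have h4 : ((N - N' : ℕ) : ℝ) = (N : ℝ) - N' := Nat.cast_sub h
  rw [← h4]
  exact_mod_cast h3

end Pool.ER
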