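import Pool.Agent.Work.MP_3e81b4_47.Interface
import Pool.Agent.Work.MP_3e81b4_h44.Kill3

set_option autoImplicit false

/-! Blocks KL1, KL2, KL3 (helper44): conversion of the counting lemmas of `MP_3e81b4_h44`. -/

namespace Pool.ER

open Set

theorem KL_pr_le {V : Type} [Fintype V] [Nonempty V] {τ : ℕ} (P : (Fin τ → V × V) → Prop)
    (c : ℝ) (h : Pool.KCol.cnt P ≤ c * ((Fintype.card V : ℝ) ^ 2) ^ τ) : pr P ≤ c := by
  classical
  rw [pr_eq_ncard]
  have h1 : ({ω | P ω}.ncard : ℝ) = Pool.KCol.cnt P := by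
    rw [Pool.KCol.cnt_eq, Set.ncard_eq_toFinset_card']
    congr 2
    ext ω; simp
  have h2 : (Fintype.card (Fin τ → V × V) : ℝ) = ((Fintype.card V : ℝ) ^ 2) ^ τ := by
    rw [Fintype.card_fun, Fintype.card_fin, Fintype.card_prod]
    push_cast; ring
  have h3 : 0 < ((Fintype.card V : ℝ) ^ 2) ^ τ := by
    have : (0:ℝ) < Fintype.card V := by exact_mod_cast Fintype.card_pos
    positivity
  rw [h1, h2, div_le_iff₀ h3]
  exact h

theorem KL_tr {V : Type} [Fintype V] [DecidableEq V] {τ : ℕ} (N : Set V) [DecidablePred (· ∈ N)]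
    (g : Fin τ → V × V) (h : Tr N g) : Pool.KCol.Transv g N.toFinset := by
  intro i hi
  simpa using h i hi

theorem KL_exp (τ m : ℕ) (h : m ≤ τ) (ρ : ℝ) :
    Real.exp (-((τ - m : ℕ) : ℝ) * (ρ ^ 2 / 2)) = Real.exp (-((τ : ℝ) - m) * ρ ^ 2 / 2) := by
  rw [Nat.cast_sub h]
  congr 1
  ring

theorem kl1 : StmtKL1 := by
  classical
  intro V _ _ R τ lam h0 hn hR
  rcases Nat.eq_zero_or_pos τ with hτ | hτ
  · subst hτ
    refine (pr_le_one _).trans ?_
    simp
  have hc : (R.ncard : ℝ) = (R.toFinset.card : ℝ) := by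
    rw [Set.ncard_eq_toFinset_card']
  have hpos : (0:ℝ) < Fintype.card V := by exact_mod_cast Fintype.card_pos
  have h1 : lam ≤ 1 := by
    have h2 : (R.toFinset.card : ℝ) ≤ Fintype.card V := by exact_mod_cast Finset.card_le_univ _
    have h3 : lam * Fintype.card V ≤ 1 * Fintype.card V := by
      rw [one_mul]
      exact (hR.trans (le_of_eq hc)).trans h2
    exact le_of_mul_le_mul_right h3 hpos
  refine KL_pr_le _ _ ?_
  have key := Pool.KCol.kl1 (τ := τ) R.toFinset lam h0.le h1 hn (hR.trans (le_of_eq hc)) hτ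
  refine (Pool.KCol.cnt_mono ?_).trans (key.trans (le_of_eq ?_))
  · rintro g ⟨N, hN, hRN⟩ hk
    obtain ⟨a, ha, haN⟩ := hk N.toFinset (KL_tr N g hN)
    exact hRN a (by simpa using ha) (by simpa using haN)
  · congr 1
    congr 1
    ring

end Pool.ER
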