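import Pool.Agent.Work.MP_3e81b4_47.KL1

set_option autoImplicit false

/-! Block KL2 (helper44). -/

namespace Pool.ER

open Set

theorem kl2 : StmtPick → StmtKL2 := by
  classical
  intro _ V _ _ B m τ lam kap h0 hk0 hmτ hm hn hB hrow hcol
  set n : ℝ := nn V with hnn
  have hnV : n = Fintype.card V := rfl
  have hpos : 0 < n := by rw [hnV]; exact_mod_cast Fintype.card_pos
  have hBc : (B.ncard : ℝ) = (B.toFinset.card : ℝ) := by rw [Set.ncard_eq_toFinset_card']
  have hrow' : ∀ v, ((Pool.KCol.rowOf B.toFinset v).card : ℝ) ≤ lam * n := by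
    intro v
    refine le_trans (le_of_eq ?_) (hrow v)
    rw [Set.ncard_eq_toFinset_card']
    congr 2
    ext z; simp [Pool.KCol.rowOf]
  have hcol' : ∀ v, ((Pool.KCol.colOf B.toFinset v).card : ℝ) ≤ lam * n := by
    intro v
    refine le_trans (le_of_eq ?_) (hcol v)
    rw [Set.ncard_eq_toFinset_card']
    congr 2
    ext z; simp [Pool.KCol.colOf]
  have hm1 : 1 ≤ 2 * lam * m := by
    rw [div_le_iff₀ (by positivity)] at hm
    linarith
  have hmpos : 1 ≤ m := by
    by_contra hc
    have : m = 0 := by omega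
    rw [this] at hm1; simp at hm1; linarith
  have hkl : kap ≤ lam := by
    have h1 : (B.toFinset.card : ℝ) ≤ n * (lam * n) := by
      have h2 : (∑ v, ((Pool.KCol.rowOf B.toFinset v).card : ℝ)) = B.toFinset.card := by
        exact_mod_cast Pool.KCol.card_rows B.toFinset
      rw [← h2]
      calc (∑ v, ((Pool.KCol.rowOf B.toFinset v).card : ℝ)) ≤ ∑ v : V, lam * n :=
            Finset.sum_le_sum fun v _ => hrow' v
        _ = n * (lam * n) := by rw [Finset.sum_const, nsmul_eq_mul, Finset.card_univ, ← hnV]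
    have h3 : kap * n ^ 2 ≤ lam * n ^ 2 := by rw [hBc] at hB; nlinarith
    exact le_of_mul_le_mul_right h3 (by positivity)
  have hr1 : kap / (4 * lam) ≤ 1 := by
    rw [div_le_one (by positivity)]; linarith
  refine KL_pr_le _ _ ?_
  have key := Pool.KCol.kl2 (τ := τ) B.toFinset kap lam (kap / (4 * lam)) n hnV h0
    (by field_simp) (by rw [← hBc]; exact hB) hrow' hcol' hr1 hn m hm1 hmτ (by omega)
  refine (Pool.KCol.cnt_mono ?_).trans (key.trans (le_of_eq ?_))
  · rintro g ⟨N, hN, hRN⟩ hk
    obtain ⟨a, ha, haN⟩ := hk N.toFinset (KL_tr N g hN)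
    exact hRN a (by simpa using ha) (by simpa using haN)
  · rw [errT, KL_exp τ m hmτ, hnV]

end Pool.ER
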