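import Pool.Agent.Work.MP_3e81b4_47.Interface

/-!
# MP_3e81b4_pr, section 2: the killing lemma KL3 (helper67)
-/

set_option autoImplicit false

open Finset

namespace Pool.ER

namespace KL3

theorem ncard_eq {α : Type*} [Fintype α] (S : Set α) : (S.ncard : ℝ) = ∑ a, ind (a ∈ S) := by
  classical
  rw [Set.ncard_eq_toFinset_card']
  unfold ind
  rw [Finset.sum_boole]
  congr 2
  ext a; simp

theorem ncard_le {α : Type*} [Fintype α] {S T : Set α} (h : S ⊆ T) :
    (S.ncard : ℝ) ≤ (T.ncard : ℝ) := by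
  exact_mod_cast Set.ncard_le_ncard h (Set.toFinite _)

theorem ncard_disj {α : Type*} [Fintype α] {S T W : Set α} (h1 : S ⊆ W) (h2 : T ⊆ W)
    (hd : ∀ a ∈ S, a ∉ T) : (S.ncard : ℝ) + (T.ncard : ℝ) ≤ (W.ncard : ℝ) := by
  rw [ncard_eq, ncard_eq, ncard_eq, ← sum_add_distrib]
  refine sum_le_sum fun a _ => ?_
  by_cases hS : a ∈ S
  · rw [ind_true hS, ind_false (hd a hS), ind_true (h1 hS)]; norm_num
  · rw [ind_false hS, zero_add]
    exact ind_mono fun h => h2 h

theorem markov {α : Type*} [Fintype α] (x : α → ℝ) (A b a : ℝ) (hA : 0 ≤ A) (hb : 0 ≤ b)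
    (hx : ∀ v, x v ≤ A) (hs : a ≤ ∑ v, x v) :
    a ≤ A * (({v | b ≤ x v} : Set α).ncard : ℝ) + b * (Fintype.card α : ℝ) := by
  rw [ncard_eq, mul_sum]
  have h1 : b * (Fintype.card α : ℝ) = ∑ _v : α, b := by
    rw [sum_const, card_univ, nsmul_eq_mul, mul_comm]
  rw [h1, ← sum_add_distrib]
  refine hs.trans (sum_le_sum fun v _ => ?_)
  by_cases h : b ≤ x v
  · rw [ind_true (show v ∈ {v | b ≤ x v} from h)]
    have := hx v; linarith
  · rw [ind_false (show v ∉ {v | b ≤ x v} from h)]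
    push Not at h; linarith

variable {V : Type} [Fintype V]

/-- step of phase 2 (`= KL2`) -/
theorem claimA (B : Set (V × V)) (lam kap : ℝ) (h0 : 0 < lam) (hk : 0 < kap) (hn : 0 < nn V)
    (hB : kap * nn V ^ 2 ≤ (B.ncard : ℝ))
    (hr : ∀ v, (({z | (v, z) ∈ B} : Set V).ncard : ℝ) ≤ lam * nn V)
    (hc : ∀ z, (({v | (v, z) ∈ B} : Set V).ncard : ℝ) ≤ lam * nn V)
    (U : Set V) (hU : (U.ncard : ℝ) < kap / (4 * lam) * nn V) :
    kap / (4 * lam) * nn V ≤
      (({v | kap / 2 * nn V ≤ (({z | (v, z) ∈ B ∧ z ∉ U} : Set V).ncard : ℝ)} : Set V).ncard : ℝ) := by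
  have h1 : (B.ncard : ℝ) ≤
      ∑ v, (({z | (v, z) ∈ B ∧ z ∉ U} : Set V).ncard : ℝ) + lam * nn V * (U.ncard : ℝ) := by
    have e1 : (B.ncard : ℝ) = ∑ v, ∑ z, ind ((v, z) ∈ B) := by
      rw [ncard_eq, Fintype.sum_prod_type]
    have e2 : ∑ z, ∑ v, ind ((v, z) ∈ B) * ind (z ∈ U) ≤ lam * nn V * (U.ncard : ℝ) := by
      rw [ncard_eq U, mul_sum]
      refine sum_le_sum fun z _ => ?_
      rw [← sum_mul]
      refine mul_le_mul_of_nonneg_right ?_ (ind_nonneg _)
      have := hc z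
      rw [ncard_eq] at this
      exact this
    have e3 : ∀ v, (({z | (v, z) ∈ B ∧ z ∉ U} : Set V).ncard : ℝ) =
        ∑ z, ind ((v, z) ∈ B ∧ z ∉ U) := fun v => by rw [ncard_eq]; rfl
    simp_rw [e3]
    rw [sum_comm] at e2
    rw [e1]
    refine le_trans ?_ (add_le_add_right e2 _)
    rw [← sum_add_distrib]
    refine sum_le_sum fun v _ => ?_
    rw [← sum_add_distrib]
    refine sum_le_sum fun z _ => ?_
    rw [ind_and, ind_not]
    apply le_of_eq
    ring
  have h2 : lam * nn V * (U.ncard : ℝ) ≤ kap / 4 * nn V ^ 2 := by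
    have : lam * nn V * (U.ncard : ℝ) ≤ lam * nn V * (kap / (4 * lam) * nn V) :=
      mul_le_mul_of_nonneg_left hU.le (by positivity)
    refine this.trans (le_of_eq ?_)
    field_simp
  have h3 := markov (fun v => (({z | (v, z) ∈ B ∧ z ∉ U} : Set V).ncard : ℝ)) (lam * nn V)
    (kap / 2 * nn V) (3 / 4 * kap * nn V ^ 2) (by positivity) (by positivity)
    (fun v => (ncard_le (fun z hz => hz.1)).trans (hr v)) (by linarith)
  have h4 : (Fintype.card V : ℝ) = nn V := rfl
  rw [h4] at h3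
  have h5 : kap / 4 * nn V ^ 2 ≤ lam * nn V *
      (({v | kap / 2 * nn V ≤ (({z | (v, z) ∈ B ∧ z ∉ U} : Set V).ncard : ℝ)} : Set V).ncard : ℝ) := by
    nlinarith
  have h6 : kap / (4 * lam) * nn V = (kap / 4 * nn V ^ 2) / (lam * nn V) := by
    field_simp
  rw [h6, div_le_iff₀ (by positivity)]
  linarith

/-- saturated pairs -/
def Sat (D : ℝ) (U : Set (V × V)) (p : V × V) : Prop :=
  D / 2 * nn V ≤ (({z | (p.1, z) ∈ U} : Set V).ncard : ℝ) ∨
    D / 2 * nn V ≤ (({y | (y, p.2) ∈ U} : Set V).ncard : ℝ)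

theorem sat_rows (D : ℝ) (U : Set (V × V)) :
    D / 2 * nn V * (({y | D / 2 * nn V ≤ (({z | (y, z) ∈ U} : Set V).ncard : ℝ)} : Set V).ncard : ℝ) ≤
      (U.ncard : ℝ) := by
  have e1 : (U.ncard : ℝ) = ∑ y, ∑ z, ind ((y, z) ∈ U) := by
    rw [ncard_eq, Fintype.sum_prod_type]
  rw [e1, ncard_eq, mul_sum]
  refine sum_le_sum fun y _ => ?_
  by_cases h : D / 2 * nn V ≤ (({z | (y, z) ∈ U} : Set V).ncard : ℝ)
  · rw [ind_true (by exact h), mul_one]
    rw [ncard_eq] at h
    exact h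
  · rw [ind_false (by exact h), mul_zero]
    exact sum_nonneg fun z _ => ind_nonneg _

theorem sat_cols (D : ℝ) (U : Set (V × V)) :
    D / 2 * nn V * (({z | D / 2 * nn V ≤ (({y | (y, z) ∈ U} : Set V).ncard : ℝ)} : Set V).ncard : ℝ) ≤
      (U.ncard : ℝ) := by
  have e1 : (U.ncard : ℝ) = ∑ z, ∑ y, ind ((y, z) ∈ U) := by
    rw [ncard_eq, Fintype.sum_prod_type, sum_comm]
  rw [e1, ncard_eq, mul_sum]
  refine sum_le_sum fun z _ => ?_
  by_cases h : D / 2 * nn V ≤ (({y | (y, z) ∈ U} : Set V).ncard : ℝ)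
  · rw [ind_true (by exact h), mul_one]
    rw [ncard_eq] at h
    exact h
  · rw [ind_false (by exact h), mul_zero]
    exact sum_nonneg fun z _ => ind_nonneg _

/-- step of phase 1 -/
theorem claimB (M : Set (V × V × V)) (lam kap gam D : ℝ) (h0 : 0 < lam) (hk : 0 < kap)
    (hg : 0 < gam) (hD : 0 < D) (hDl : D * lam ≤ 4 * kap) (hn : 0 < nn V)
    (hM : gam * nn V ^ 3 ≤ (M.ncard : ℝ))
    (hx : ∀ y z, (({x | (x, y, z) ∈ M} : Set V).ncard : ℝ) ≤ lam * nn V)
    (hP1 : ∀ x, (({p | (x, p.1, p.2) ∈ M} : Set (V × V)).ncard : ℝ) ≤ kap * nn V ^ 2)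
    (hP2 : ∀ y, (({p | (p.1, y, p.2) ∈ M} : Set (V × V)).ncard : ℝ) ≤ kap * nn V ^ 2)
    (hP3 : ∀ z, (({p | (p.1, p.2, z) ∈ M} : Set (V × V)).ncard : ℝ) ≤ kap * nn V ^ 2)
    (U : Set (V × V)) (hU : (U.ncard : ℝ) < gam * D / (32 * kap) * nn V ^ 2) :
    gam / (4 * kap) * nn V ≤
      (({v | gam / 2 * nn V ^ 2 ≤ (({p | (v, p.1, p.2) ∈ M ∧ p ∉ U ∧ ¬ Sat D U p} :
        Set (V × V)).ncard : ℝ)} : Set V).ncard : ℝ) := by
  set YS : Set V := {y | D / 2 * nn V ≤ (({z | (y, z) ∈ U} : Set V).ncard : ℝ)} with hYS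
  set ZS : Set V := {z | D / 2 * nn V ≤ (({y | (y, z) ∈ U} : Set V).ncard : ℝ)} with hZS
  have eM : (M.ncard : ℝ) = ∑ v, ∑ y, ∑ z, ind ((v, y, z) ∈ M) := by
    rw [ncard_eq, Fintype.sum_prod_type]
    refine sum_congr rfl fun v _ => ?_
    rw [Fintype.sum_prod_type]
  have eX : ∀ v, (({p | (v, p.1, p.2) ∈ M ∧ p ∉ U ∧ ¬ Sat D U p} : Set (V × V)).ncard : ℝ) =
      ∑ y, ∑ z, ind ((v, y, z) ∈ M ∧ (y, z) ∉ U ∧ ¬ Sat D U (y, z)) := by
    intro v
    rw [ncard_eq, Fintype.sum_prod_type]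
    rfl
  -- part in U
  have h1 : ∑ v, ∑ y, ∑ z, ind ((v, y, z) ∈ M) * ind ((y, z) ∈ U) ≤
      lam * nn V * (U.ncard : ℝ) := by
    rw [ncard_eq U, mul_sum, Fintype.sum_prod_type, sum_comm]
    refine sum_le_sum fun y _ => ?_
    rw [sum_comm]
    refine sum_le_sum fun z _ => ?_
    rw [← sum_mul]
    refine mul_le_mul_of_nonneg_right ?_ (ind_nonneg _)
    have := hx y z
    rw [ncard_eq] at this
    exact this
  have h2 : ∑ v, ∑ y, ∑ z, ind ((v, y, z) ∈ M) * ind (y ∈ YS) ≤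
      kap * nn V ^ 2 * (YS.ncard : ℝ) := by
    rw [ncard_eq YS, mul_sum, sum_comm]
    refine sum_le_sum fun y _ => ?_
    simp_rw [← sum_mul]
    refine mul_le_mul_of_nonneg_right ?_ (ind_nonneg _)
    have := hP2 y
    rw [ncard_eq, Fintype.sum_prod_type] at this
    exact this
  have h3 : ∑ v, ∑ y, ∑ z, ind ((v, y, z) ∈ M) * ind (z ∈ ZS) ≤
      kap * nn V ^ 2 * (ZS.ncard : ℝ) := by
    have e : ∑ v, ∑ y, ∑ z, ind ((v, y, z) ∈ M) * ind (z ∈ ZS) =
        ∑ z, ∑ v, ∑ y, ind ((v, y, z) ∈ M) * ind (z ∈ ZS) := by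
      have e0 : ∀ v, ∑ y, ∑ z, ind ((v, y, z) ∈ M) * ind (z ∈ ZS) =
          ∑ z, ∑ y, ind ((v, y, z) ∈ M) * ind (z ∈ ZS) := fun v => sum_comm
      rw [sum_congr rfl fun v _ => e0 v, sum_comm]
    rw [e, ncard_eq ZS, mul_sum]
    refine sum_le_sum fun z _ => ?_
    simp_rw [← sum_mul]
    refine mul_le_mul_of_nonneg_right ?_ (ind_nonneg _)
    have := hP3 z
    rw [ncard_eq, Fintype.sum_prod_type] at this
    exact this
  have h4 : (M.ncard : ℝ) ≤
      ∑ v, (({p | (v, p.1, p.2) ∈ M ∧ p ∉ U ∧ ¬ Sat D U p} : Set (V × V)).ncard : ℝ) +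
        lam * nn V * (U.ncard : ℝ) + kap * nn V ^ 2 * (YS.ncard : ℝ) +
        kap * nn V ^ 2 * (ZS.ncard : ℝ) := by
    have h5 : (M.ncard : ℝ) ≤
        ∑ v, (({p | (v, p.1, p.2) ∈ M ∧ p ∉ U ∧ ¬ Sat D U p} : Set (V × V)).ncard : ℝ) +
        ∑ v, ∑ y, ∑ z, ind ((v, y, z) ∈ M) * ind ((y, z) ∈ U) +
        ∑ v, ∑ y, ∑ z, ind ((v, y, z) ∈ M) * ind (y ∈ YS) +
        ∑ v, ∑ y, ∑ z, ind ((v, y, z) ∈ M) * ind (z ∈ ZS) := by
      rw [eM]
      simp_rw [eX]
      simp_rw [← sum_add_distrib]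
      refine sum_le_sum fun v _ => sum_le_sum fun y _ => sum_le_sum fun z _ => ?_
      by_cases hm : (v, y, z) ∈ M
      · rw [ind_true hm, one_mul, one_mul, one_mul]
        by_cases hu : (y, z) ∈ U
        · rw [ind_true hu]
          have a1 := ind_nonneg ((v, y, z) ∈ M ∧ (y, z) ∉ U ∧ ¬ Sat D U (y, z))
          have a2 := ind_nonneg (y ∈ YS)
          have a3 := ind_nonneg (z ∈ ZS)
          linarith
        · by_cases hs : Sat D U (y, z)
          · have a1 := ind_nonneg ((v, y, z) ∈ M ∧ (y, z) ∉ U ∧ ¬ Sat D U (y, z))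
            have a2 := ind_nonneg ((y, z) ∈ U)
            have a3 := ind_nonneg (y ∈ YS)
            have a4 := ind_nonneg (z ∈ ZS)
            rcases hs with hs | hs
            · rw [ind_true (show y ∈ YS from hs)]; linarith
            · rw [ind_true (show z ∈ ZS from hs)]; linarith
          · rw [ind_true (show (v, y, z) ∈ M ∧ (y, z) ∉ U ∧ ¬ Sat D U (y, z) from ⟨hm, hu, hs⟩)]
            have a2 := ind_nonneg ((y, z) ∈ U)
            have a3 := ind_nonneg (y ∈ YS)
            have a4 := ind_nonneg (z ∈ ZS)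
            linarith
      · rw [ind_false hm, zero_mul, zero_mul, zero_mul, add_zero, add_zero, add_zero]
        exact ind_nonneg _
    linarith
  have hn2 : 0 < nn V ^ 2 := by positivity
  have h6 : lam * nn V * (U.ncard : ℝ) ≤ gam / 8 * nn V ^ 3 := by
    have h61 : lam * nn V * (U.ncard : ℝ) ≤ lam * nn V * (gam * D / (32 * kap) * nn V ^ 2) :=
      mul_le_mul_of_nonneg_left hU.le (by positivity)
    have h62 : lam * nn V * (gam * D / (32 * kap) * nn V ^ 2) =
        (D * lam) * (gam / (32 * kap) * nn V ^ 3) := by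
      field_simp
    have h63 : (D * lam) * (gam / (32 * kap) * nn V ^ 3) ≤ (4 * kap) *
        (gam / (32 * kap) * nn V ^ 3) :=
      mul_le_mul_of_nonneg_right hDl (by positivity)
    have h64 : (4 * kap) * (gam / (32 * kap) * nn V ^ 3) = gam / 8 * nn V ^ 3 := by
      field_simp; norm_num
    linarith
  have sat_aux : ∀ s : ℝ, D / 2 * nn V * s ≤ (U.ncard : ℝ) →
      kap * nn V ^ 2 * s ≤ gam / 16 * nn V ^ 3 := by
    intro s hs
    have h71 : D / 2 * nn V * s ≤ gam * D / (32 * kap) * nn V ^ 2 := hs.trans hU.le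
    have h72 : kap * nn V ^ 2 * s = (2 * kap * nn V / D) * (D / 2 * nn V * s) := by
      field_simp
    have h73 : (2 * kap * nn V / D) * (D / 2 * nn V * s) ≤ (2 * kap * nn V / D) *
        (gam * D / (32 * kap) * nn V ^ 2) := mul_le_mul_of_nonneg_left h71 (by positivity)
    have h74 : (2 * kap * nn V / D) * (gam * D / (32 * kap) * nn V ^ 2) =
        gam / 16 * nn V ^ 3 := by
      field_simp; norm_num
    linarith
  have h7 := sat_aux _ (sat_rows D U)
  have h8 := sat_aux _ (sat_cols D U)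
  have h9 := markov (fun v => (({p | (v, p.1, p.2) ∈ M ∧ p ∉ U ∧ ¬ Sat D U p} :
      Set (V × V)).ncard : ℝ)) (kap * nn V ^ 2) (gam / 2 * nn V ^ 2) (3 / 4 * gam * nn V ^ 3)
      (by positivity) (by positivity)
      (fun v => (ncard_le (fun p hp => hp.1)).trans (hP1 v)) (by linarith)
  have h10 : (Fintype.card V : ℝ) = nn V := rfl
  rw [h10] at h9
  have h11 : gam / 4 * nn V ^ 3 ≤ kap * nn V ^ 2 *
      (({v | gam / 2 * nn V ^ 2 ≤ (({p | (v, p.1, p.2) ∈ M ∧ p ∉ U ∧ ¬ Sat D U p} :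
        Set (V × V)).ncard : ℝ)} : Set V).ncard : ℝ) := by
    nlinarith
  have h12 : gam / (4 * kap) * nn V = (gam / 4 * nn V ^ 3) / (kap * nn V ^ 2) := by
    field_simp
  rw [h12, div_le_iff₀ (by positivity)]
  linarith

/-! ## The strategy -/

/-- state of phase 1 -/
noncomputable def Ust (M : Set (V × V × V)) (u1 D : ℝ) : List V → Set (V × V)
  | [] => ∅
  | v :: r => open Classical in
      if ((Ust M u1 D r).ncard : ℝ) < u1 * nn V ^ 2 then
        Ust M u1 D r ∪ {p | (v, p.1, p.2) ∈ M ∧ p ∉ Ust M u1 D r ∧ ¬ Sat D (Ust M u1 D r) p}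
      else Ust M u1 D r

/-- state of phase 2 -/
def U2 (M : Set (V × V × V)) (u1 D : ℝ) (r : List V) : Set V :=
  {z | ∃ v ∈ r, (v, z) ∈ Ust M u1 D r}

/-- the strategy -/
noncomputable def Rst (M : Set (V × V × V)) (u1 D gam ρ : ℝ) (r : List V) : Set V :=
  open Classical in
  if ((Ust M u1 D r).ncard : ℝ) < u1 * nn V ^ 2 then
    {v | gam / 2 * nn V ^ 2 ≤ (({p | (v, p.1, p.2) ∈ M ∧ p ∉ Ust M u1 D r ∧
      ¬ Sat D (Ust M u1 D r) p} : Set (V × V)).ncard : ℝ)}
  else if ((U2 M u1 D r).ncard : ℝ) < ρ * nn V then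
    {v | u1 / 2 * nn V ≤ (({z | (v, z) ∈ Ust M u1 D r ∧ z ∉ U2 M u1 D r} : Set V).ncard : ℝ)}
  else U2 M u1 D r

theorem Ust_cons_lt {M : Set (V × V × V)} {u1 D : ℝ} {r : List V} (v : V)
    (h : ((Ust M u1 D r).ncard : ℝ) < u1 * nn V ^ 2) :
    Ust M u1 D (v :: r) =
      Ust M u1 D r ∪ {p | (v, p.1, p.2) ∈ M ∧ p ∉ Ust M u1 D r ∧ ¬ Sat D (Ust M u1 D r) p} := by
  rw [Ust, if_pos h]

theorem Ust_cons_ge {M : Set (V × V × V)} {u1 D : ℝ} {r : List V} (v : V)
    (h : ¬ ((Ust M u1 D r).ncard : ℝ) < u1 * nn V ^ 2) :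
    Ust M u1 D (v :: r) = Ust M u1 D r := by
  rw [Ust, if_neg h]

/-- rows and columns of the state stay small -/
theorem Ust_rows (M : Set (V × V × V)) (lam u1 D : ℝ) (hD : 0 < D) (hlD : lam ≤ D / 2)
    (hn : 0 < nn V)
    (hz : ∀ x y, (({z | (x, y, z) ∈ M} : Set V).ncard : ℝ) ≤ lam * nn V)
    (hy : ∀ x z, (({y | (x, y, z) ∈ M} : Set V).ncard : ℝ) ≤ lam * nn V) (r : List V) :
    (∀ y, (({z | (y, z) ∈ Ust M u1 D r} : Set V).ncard : ℝ) ≤ D * nn V) ∧
    (∀ z, (({y | (y, z) ∈ Ust M u1 D r} : Set V).ncard : ℝ) ≤ D * nn V) := by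
  induction r with
  | nil =>
    have : ∀ S : Set V, S = ∅ → (S.ncard : ℝ) ≤ D * nn V := by
      intro S hS; rw [hS, Set.ncard_empty, Nat.cast_zero]; positivity
    constructor
    · intro y; exact this _ (by ext z; simp [Ust])
    · intro z; exact this _ (by ext y; simp [Ust])
  | cons v r ih =>
    by_cases h : ((Ust M u1 D r).ncard : ℝ) < u1 * nn V ^ 2
    · rw [Ust_cons_lt v h]
      have hl : lam * nn V ≤ D / 2 * nn V := mul_le_mul_of_nonneg_right hlD hn.le
      constructor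
      · intro y
        by_cases hs : D / 2 * nn V ≤ (({z | (y, z) ∈ Ust M u1 D r} : Set V).ncard : ℝ)
        · refine (ncard_le ?_).trans (ih.1 y)
          intro z hz'
          rcases hz' with hz' | hz'
          · exact hz'
          · exact absurd (Or.inl hs) hz'.2.2
        · push Not at hs
          have h1 : (({z | (y, z) ∈ Ust M u1 D r ∪ {p | (v, p.1, p.2) ∈ M ∧ p ∉ Ust M u1 D r ∧
              ¬ Sat D (Ust M u1 D r) p}} : Set V).ncard : ℝ) ≤
              (({z | (y, z) ∈ Ust M u1 D r} : Set V).ncard : ℝ) +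
              (({z | (v, y, z) ∈ M} : Set V).ncard : ℝ) := by
            have h2 : ({z | (y, z) ∈ Ust M u1 D r ∪ {p | (v, p.1, p.2) ∈ M ∧ p ∉ Ust M u1 D r ∧
              ¬ Sat D (Ust M u1 D r) p}} : Set V) ⊆
              {z | (y, z) ∈ Ust M u1 D r} ∪ {z | (v, y, z) ∈ M} := by
              intro z hz'
              rcases hz' with hz' | hz'
              · exact Or.inl hz'
              · exact Or.inr hz'.1
            refine (ncard_le h2).trans ?_
            exact_mod_cast Set.ncard_union_le _ _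
          have h3 := hz v y
          linarith
      · intro z
        by_cases hs : D / 2 * nn V ≤ (({y | (y, z) ∈ Ust M u1 D r} : Set V).ncard : ℝ)
        · refine (ncard_le ?_).trans (ih.2 z)
          intro y hy'
          rcases hy' with hy' | hy'
          · exact hy'
          · exact absurd (Or.inr hs) hy'.2.2
        · push Not at hs
          have h1 : (({y | (y, z) ∈ Ust M u1 D r ∪ {p | (v, p.1, p.2) ∈ M ∧ p ∉ Ust M u1 D r ∧
              ¬ Sat D (Ust M u1 D r) p}} : Set V).ncard : ℝ) ≤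
              (({y | (y, z) ∈ Ust M u1 D r} : Set V).ncard : ℝ) +
              (({y | (v, y, z) ∈ M} : Set V).ncard : ℝ) := by
            have h2 : ({y | (y, z) ∈ Ust M u1 D r ∪ {p | (v, p.1, p.2) ∈ M ∧ p ∉ Ust M u1 D r ∧
              ¬ Sat D (Ust M u1 D r) p}} : Set V) ⊆
              {y | (y, z) ∈ Ust M u1 D r} ∪ {y | (v, y, z) ∈ M} := by
              intro y hy'
              rcases hy' with hy' | hy'
              · exact Or.inl hy'
              · exact Or.inr hy'.1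
            refine (ncard_le h2).trans ?_
            exact_mod_cast Set.ncard_union_le _ _
          have h3 := hy v z
          linarith
    · rw [Ust_cons_ge v h]; exact ih

theorem Ust_mem {M : Set (V × V × V)} {u1 D : ℝ} {r : List V} {p : V × V}
    (hp : p ∈ Ust M u1 D r) : ∃ w ∈ r, (w, p.1, p.2) ∈ M := by
  induction r with
  | nil => exact absurd hp (by simp [Ust])
  | cons v r ih =>
    by_cases h : ((Ust M u1 D r).ncard : ℝ) < u1 * nn V ^ 2
    · rw [Ust_cons_lt v h] at hp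
      rcases hp with hp | hp
      · obtain ⟨w, hw, hwM⟩ := ih hp
        exact ⟨w, List.mem_cons_of_mem _ hw, hwM⟩
      · exact ⟨v, by simp, hp.1⟩
    · rw [Ust_cons_ge v h] at hp
      obtain ⟨w, hw, hwM⟩ := ih hp
      exact ⟨w, List.mem_cons_of_mem _ hw, hwM⟩

/-- progress along legal sequences -/
theorem progress (M : Set (V × V × V)) (u1 D gam ρ : ℝ) (hu1 : 0 < u1) (hg : 0 < gam)
    (hn : 0 < nn V) (l : List V) (hl : Legal (Rst M u1 D gam ρ) l) :
    (((Ust M u1 D l).ncard : ℝ) < u1 * nn V ^ 2 ∧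
      (l.length : ℝ) * (gam / 2 * nn V ^ 2) ≤ ((Ust M u1 D l).ncard : ℝ)) ∨
    (u1 * nn V ^ 2 ≤ ((Ust M u1 D l).ncard : ℝ) ∧
      (ρ * nn V ≤ ((U2 M u1 D l).ncard : ℝ) ∨
        ((l.length : ℝ) - (2 * u1 / gam + 1)) * (u1 / 2 * nn V) ≤ ((U2 M u1 D l).ncard : ℝ))) := by
  induction hl with
  | nil =>
    left
    simp only [Ust, Set.ncard_empty, Nat.cast_zero, List.length_nil, zero_mul, le_refl, and_true]
    positivity
  | @cons l v hl hv ih =>
    have hlen : ((v :: l).length : ℝ) = (l.length : ℝ) + 1 := by simp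
    by_cases h : ((Ust M u1 D l).ncard : ℝ) < u1 * nn V ^ 2
    · have ih1 : (l.length : ℝ) * (gam / 2 * nn V ^ 2) ≤ ((Ust M u1 D l).ncard : ℝ) := by
        rcases ih with ih | ih
        · exact ih.2
        · exact absurd ih.1 (not_le.mpr h)
      have hv' : gam / 2 * nn V ^ 2 ≤ (({p | (v, p.1, p.2) ∈ M ∧ p ∉ Ust M u1 D l ∧
          ¬ Sat D (Ust M u1 D l) p} : Set (V × V)).ncard : ℝ) := by
        rw [Rst, if_pos h] at hv; exact hv
      have h1 : ((Ust M u1 D l).ncard : ℝ) + (({p | (v, p.1, p.2) ∈ M ∧ p ∉ Ust M u1 D l ∧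
          ¬ Sat D (Ust M u1 D l) p} : Set (V × V)).ncard : ℝ) ≤
          ((Ust M u1 D (v :: l)).ncard : ℝ) := by
        rw [Ust_cons_lt v h]
        exact ncard_disj Set.subset_union_left Set.subset_union_right (fun a ha hb => hb.2.1 ha)
      by_cases h2 : ((Ust M u1 D (v :: l)).ncard : ℝ) < u1 * nn V ^ 2
      · left
        refine ⟨h2, ?_⟩
        rw [hlen]
        nlinarith
      · right
        push Not at h2
        refine ⟨h2, Or.inr ?_⟩
        rw [hlen]
        have h3 : (l.length : ℝ) * (gam / 2 * nn V ^ 2) < u1 * nn V ^ 2 := ih1.trans_lt h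
        have h4 : (l.length : ℝ) < 2 * u1 / gam := by
          rw [lt_div_iff₀ hg]
          have hn2 : 0 < nn V ^ 2 := by positivity
          have h5 : (l.length : ℝ) * (gam / 2) * nn V ^ 2 < u1 * nn V ^ 2 := by linarith
          have h6 := lt_of_mul_lt_mul_right h5 hn2.le
          linarith
        have h7 : ((l.length : ℝ) + 1 - (2 * u1 / gam + 1)) * (u1 / 2 * nn V) ≤ 0 := by
          have h8 : (l.length : ℝ) + 1 - (2 * u1 / gam + 1) ≤ 0 := by linarith
          exact mul_nonpos_of_nonpos_of_nonneg h8 (by positivity)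
        exact h7.trans (Nat.cast_nonneg _)
    · have hU : Ust M u1 D (v :: l) = Ust M u1 D l := Ust_cons_ge v h
      push Not at h
      right
      rw [hU]
      refine ⟨h, ?_⟩
      have hsub : U2 M u1 D l ⊆ U2 M u1 D (v :: l) := by
        rintro z ⟨w, hw, hwz⟩
        exact ⟨w, List.mem_cons_of_mem _ hw, by rw [hU]; exact hwz⟩
      by_cases h2 : ((U2 M u1 D l).ncard : ℝ) < ρ * nn V
      · right
        have ih2 : ((l.length : ℝ) - (2 * u1 / gam + 1)) * (u1 / 2 * nn V) ≤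
            ((U2 M u1 D l).ncard : ℝ) := by
          rcases ih with ih | ih
          · exact absurd ih.1 (not_lt.mpr h)
          · rcases ih.2 with ih2 | ih2
            · exact absurd ih2 (not_le.mpr h2)
            · exact ih2
        have hv' : u1 / 2 * nn V ≤
            (({z | (v, z) ∈ Ust M u1 D l ∧ z ∉ U2 M u1 D l} : Set V).ncard : ℝ) := by
          rw [Rst, if_neg (not_lt.mpr h), if_pos h2] at hv; exact hv
        have h3 : ((U2 M u1 D l).ncard : ℝ) +
            (({z | (v, z) ∈ Ust M u1 D l ∧ z ∉ U2 M u1 D l} : Set V).ncard : ℝ) ≤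
            ((U2 M u1 D (v :: l)).ncard : ℝ) := by
          refine ncard_disj hsub ?_ (fun a ha hb => hb.2 ha)
          intro z hz
          exact ⟨v, by simp, by rw [hU]; exact hz.1⟩
        rw [hlen]
        nlinarith
      · left
        push Not at h2
        exact h2.trans (ncard_le hsub)

end KL3

open KL3 in
/-- the killing lemma for triples -/
theorem kl3 (hPick : StmtPick) : StmtKL3 := by
  intro V _ _ M m τ lam kap gam D hlam hkap hgam hD hlD hDl hmτ hm hρn hM hz hy hx hP1 hP2 hP3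
  have hn : 0 < nn V := by unfold nn; exact_mod_cast Fintype.card_pos
  set u1 : ℝ := gam * D / (32 * kap) with hu1
  set ρ : ℝ := gam / (128 * kap) with hρ
  have hu1p : 0 < u1 := by positivity
  have hρp : 0 < ρ := by positivity
  have hρu : u1 / (4 * D) = ρ := by rw [hu1, hρ]; field_simp; norm_num
  have h2u : 2 * u1 / gam = D / (16 * kap) := by rw [hu1]; field_simp; norm_num
  refine (pr_mono ?_).trans (hPick V (Rst M u1 D gam ρ) m τ ρ hmτ hρp hρn ?_)
  · rintro g ⟨N, hN, hno⟩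
    refine ⟨N, hN, ?_⟩
    rintro ⟨l, hl, hlen, hlN⟩
    cases hl with
    | nil => simp at hlen
    | @cons l v hl hv =>
      have hlen' : l.length = m := by simpa using hlen
      have hpr := progress M u1 D gam ρ hu1p hgam hn l hl
      rw [hlen'] at hpr
      have hm0 : (0 : ℝ) < 1 / (2 * D) := by positivity
      have key : u1 * nn V ^ 2 ≤ ((Ust M u1 D l).ncard : ℝ) ∧
          ρ * nn V ≤ ((U2 M u1 D l).ncard : ℝ) := by
        rcases hpr with ⟨h1, h2⟩ | ⟨h1, h2⟩
        · exfalso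
          have h3 : (m : ℝ) * (gam / 2 * nn V ^ 2) < u1 * nn V ^ 2 := h2.trans_lt h1
          have hn2 : 0 < nn V ^ 2 := by positivity
          have h5 : (m : ℝ) * (gam / 2) * nn V ^ 2 < u1 * nn V ^ 2 := by linarith
          have h6 := lt_of_mul_lt_mul_right h5 hn2.le
          have h7 : (m : ℝ) < 2 * u1 / gam := by
            rw [lt_div_iff₀ hgam]; linarith
          rw [h2u] at h7
          linarith
        · refine ⟨h1, ?_⟩
          rcases h2 with h2 | h2
          · exact h2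
          · refine le_trans ?_ h2
            rw [h2u]
            have h8 : 1 / (2 * D) ≤ (m : ℝ) - (D / (16 * kap) + 1) := by linarith
            have h9 : 1 / (2 * D) * (u1 / 2 * nn V) ≤ ((m : ℝ) - (D / (16 * kap) + 1)) *
                (u1 / 2 * nn V) := mul_le_mul_of_nonneg_right h8 (by positivity)
            refine le_trans (le_of_eq ?_) h9
            rw [← hρu]
            field_simp
            norm_num
      rw [Rst, if_neg (not_lt.mpr key.1), if_neg (not_lt.mpr key.2)] at hv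
      obtain ⟨y, hy', hyv⟩ := hv
      obtain ⟨w, hw, hwM⟩ := Ust_mem hyv
      exact hno (w, y, v) hwM ⟨hlN w (List.mem_cons_of_mem _ hw),
        hlN y (List.mem_cons_of_mem _ hy'), hlN v (by simp)⟩
  · intro l _ _
    have hrc := Ust_rows M lam u1 D hD hlD hn hz hy l
    by_cases h1 : ((Ust M u1 D l).ncard : ℝ) < u1 * nn V ^ 2
    · rw [Rst, if_pos h1]
      have h2 := claimB M lam kap gam D hlam hkap hgam hD hDl hn hM hx hP1 hP2 hP3
        (Ust M u1 D l) h1
      refine le_trans ?_ h2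
      refine mul_le_mul_of_nonneg_right ?_ hn.le
      rw [hρ]
      exact div_le_div_of_nonneg_left hgam.le (by positivity) (by linarith)
    · by_cases h2 : ((U2 M u1 D l).ncard : ℝ) < ρ * nn V
      · rw [Rst, if_neg h1, if_pos h2]
        push Not at h1
        rw [← hρu] at h2 ⊢
        exact claimA (Ust M u1 D l) D u1 hD hu1p hn h1 hrc.1 hrc.2 (U2 M u1 D l) h2
      · rw [Rst, if_neg h1, if_neg h2]
        push Not at h2
        exact h2

end Pool.ER
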