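import Pool.Agent.Work.MP_3e81b4_47.Interface

set_option autoImplicit false

/-! Block KEYDEC (helper43): the decomposition along the non-loop edges at `u`. -/

namespace Pool.ER

open Set

namespace KD

variable {V : Type} {k : ℕ}

/-- an event on `A` covered by the image of an event on `B` -/
theorem pr_le_of_image {A B : Type*} [Fintype A] [Fintype B] [Nonempty B] (φ : B → A)
    (P : A → Prop) (Q : B → Prop) (h : ∀ a, P a → ∃ b, Q b ∧ φ b = a) :
    pr P ≤ (Fintype.card B : ℝ) / (Fintype.card A : ℝ) * pr Q := by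
  classical
  rw [pr_eq_ncard, pr_eq_ncard]
  have hB : (0 : ℝ) < (Fintype.card B : ℝ) := by exact_mod_cast Fintype.card_pos
  have h1 : {a | P a}.ncard ≤ {b | Q b}.ncard := by
    have h2 : {a | P a} ⊆ φ '' {b | Q b} := by
      intro a ha
      obtain ⟨b, hb, hba⟩ := h a ha
      exact ⟨b, hb, hba⟩
    exact (Set.ncard_le_ncard h2 (Set.toFinite _)).trans (Set.ncard_image_le (Set.toFinite _))
  have h3 : (({a | P a}.ncard : ℕ) : ℝ) ≤ (({b | Q b}.ncard : ℕ) : ℝ) := by exact_mod_cast h1
  have h4 : (Fintype.card B : ℝ) / (Fintype.card A : ℝ) *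
      ((({b | Q b}.ncard : ℕ) : ℝ) / (Fintype.card B : ℝ)) =
      (({b | Q b}.ncard : ℕ) : ℝ) / (Fintype.card A : ℝ) := by
    field_simp
  rw [h4]
  exact div_le_div_of_nonneg_right h3 (by positivity)

theorem ok_map (π : Equiv.Perm (Fin k)) {σ : PC V k} {e : V × V} (h : ok σ e) :
    ok (fun v => (σ v).map π) e := by
  rcases h with h | h | h
  · exact Or.inl h
  · right; left
    simp [h]
  · right; right
    intro h'
    exact h (Option.map_injective π.injective h')

theorem cost_map (π : Equiv.Perm (Fin k)) (σ : PC V k) :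
    cost (fun v => (σ v).map π) = cost σ := by
  unfold cost
  refine Nat.card_congr (Equiv.subtypeEquivRight fun v => ?_)
  simp

theorem sym_Su (A : Set (V × V)) (u : V) : Sym (Su k A u) := by
  intro π σ hσ
  obtain ⟨h1, h2, h3⟩ := hσ
  refine ⟨fun e he => ok_map π (h1 e he), ?_, ?_⟩
  · simp [h2]
  · rw [cost_map]; exact h3

/-- `e` is a non-loop edge at `u` -/
def Inc (u : V) (e : V × V) : Prop := e.1 ≠ e.2 ∧ (e.1 = u ∨ e.2 = u)

theorem ok_of_inc {u : V} {σ : PC V k} (hσ : σ u = none) {e : V × V} (he : Inc u e) : ok σ e := by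
  rcases he.2 with h | h
  · right; left
    rw [h]; exact hσ
  · right
    by_cases h1 : σ e.1 = none
    · exact Or.inl h1
    · right
      rw [h, hσ]; exact h1

theorem valid_iff {u : V} {σ : PC V k} (hσ : σ u = none) {A B : Set (V × V)} (hBA : B ⊆ A)
    (hA : ∀ e ∈ A, e ∉ B → Inc u e) : valid σ A ↔ valid σ B := by
  constructor
  · intro h e he
    exact h e (hBA he)
  · intro h e he
    by_cases heB : e ∈ B
    · exact h e heB
    · exact ok_of_inc hσ (hA e he heB)

theorem Su_congr {u : V} {A B : Set (V × V)} (hBA : B ⊆ A)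
    (hA : ∀ e ∈ A, e ∉ B → Inc u e) : Su k A u = Su k B u := by
  have h1 : Yu k A u = Yu k B u := by
    unfold Yu
    congr 1
    ext c
    constructor
    · rintro ⟨σ, h1, h2, h3⟩
      exact ⟨σ, (valid_iff h2 hBA hA).1 h1, h2, h3⟩
    · rintro ⟨σ, h1, h2, h3⟩
      exact ⟨σ, (valid_iff h2 hBA hA).2 h1, h2, h3⟩
  ext σ
  constructor
  · rintro ⟨h2, h3, h4⟩
    exact ⟨(valid_iff h3 hBA hA).1 h2, h3, h4.trans h1⟩
  · rintro ⟨h2, h3, h4⟩
    exact ⟨(valid_iff h3 hBA hA).2 h2, h3, h4.trans h1.symm⟩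

open Classical in
/-- the set of the non-loop edges at `u` -/
noncomputable def Jx (u : V) {M : ℕ} (x : Fin M → V × V) : Finset (Fin M) :=
  Finset.univ.filter fun j => Inc u (x j)

theorem mem_Jx {u : V} {M : ℕ} {x : Fin M → V × V} {j : Fin M} : j ∈ Jx u x ↔ Inc u (x j) := by
  unfold Jx
  simp

/-- splitting the coordinates along `J` -/
noncomputable def E1 {M : ℕ} (J : Finset (Fin M)) (E G : Type) :
    ({j : Fin M // j ∉ J} → E) × (({j : Fin M // j ∈ J} → E) × G) ≃ (Fin M → E) × G where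
  toFun q := (fun j => if h : j ∈ J then q.2.1 ⟨j, h⟩ else q.1 ⟨j, h⟩, q.2.2)
  invFun p := (fun j => p.1 j.1, (fun j => p.1 j.1, p.2))
  left_inv q := by
    refine Prod.ext ?_ (Prod.ext ?_ rfl)
    · funext j
      simp [j.2]
    · funext j
      simp [j.2]
  right_inv p := by
    refine Prod.ext ?_ rfl
    funext j
    by_cases h : j ∈ J <;> simp [h]

/-- one set `J` -/
theorem one_J [Fintype V] [Nonempty V] (c : Fin k) (M T : ℕ) (Φ : ℕ → ℝ) (hΦ : ∀ D, 0 ≤ Φ D)
    (H : ∀ (F : Set (PC V k)) (D : ℕ), Sym F →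
      pr (fun p : (Fin D → V) × (Fin T → V × V) =>
        BadTuple c F Finset.univ p.1 ∧ ∃ σ ∈ F, valid σ (range p.2)) ≤ Φ D)
    (u : V) (J : Finset (Fin M)) :
    pr (fun p : (Fin M → V × V) × (Fin T → V × V) => Jx u p.1 = J ∧ BadU c p.1 p.2 u)
      ≤ (2 / nn V) ^ J.card * Φ J.card := by
  classical
  have hn : (0 : ℝ) < nn V := by
    unfold nn
    exact_mod_cast Fintype.card_pos
  rw [← pr_equiv (E1 J (V × V) (Fin T → V × V))]
  refine pr_prod_le (mul_nonneg (by positivity) (hΦ _)) fun b => ?_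
  -- the family attached to `b`
  set F : Set (PC V k) := Su k (range b) u with hF
  let Q : ({j : Fin M // j ∈ J} → Bool) × (({j : Fin M // j ∈ J} → V) × (Fin T → V × V)) → Prop :=
    fun q => (∀ σ ∈ F, ∃ j, ¬ avoid c σ (q.2.1 j)) ∧ ∃ σ ∈ F, valid σ (range q.2.2)
  let φ : ({j : Fin M // j ∈ J} → Bool) × (({j : Fin M // j ∈ J} → V) × (Fin T → V × V)) →
      ({j : Fin M // j ∈ J} → V × V) × (Fin T → V × V) :=
    fun q => (fun j => if q.1 j = true then (u, q.2.1 j) else (q.2.1 j, u), q.2.2)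
  refine (pr_le_of_image φ _ Q ?_).trans ?_
  · rintro ⟨a, g⟩ ⟨hJ, hbad⟩
    set x : Fin M → V × V := ((E1 J (V × V) (Fin T → V × V)) (b, a, g)).1 with hx
    have hxJ : ∀ (j : Fin M) (h : j ∈ J), x j = a ⟨j, h⟩ := by
      intro j h
      rw [hx]
      simp [E1, h]
    have hxN : ∀ (j : Fin M) (h : j ∉ J), x j = b ⟨j, h⟩ := by
      intro j h
      rw [hx]
      simp [E1, h]
    have hg : ((E1 J (V × V) (Fin T → V × V)) (b, a, g)).2 = g := rfl
    rw [hg] at hbad
    have hinc : ∀ j : {j : Fin M // j ∈ J}, Inc u (a j) := by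
      intro j
      have h1 : j.1 ∈ Jx u x := by
        rw [hJ]; exact j.2
      have h2 := mem_Jx.1 h1
      rwa [hxJ j.1 j.2] at h2
    have hSu : Su k (range x) u = F := by
      rw [hF]
      refine Su_congr ?_ ?_
      · rintro _ ⟨j, rfl⟩
        exact ⟨j.1, hxN j.1 j.2⟩
      · rintro _ ⟨j, rfl⟩ hj
        by_cases h : j ∈ J
        · rw [hxJ j h]; exact hinc _
        · exact absurd ⟨⟨j, h⟩, (hxN j h).symm⟩ hj
    refine ⟨(fun j => decide ((a j).1 = u), (fun j => if (a j).1 = u then (a j).2 else (a j).1, g)),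
      ⟨?_, ?_⟩, ?_⟩
    · intro σ hσ
      rw [← hSu] at hσ
      obtain ⟨j, w, hw, hxj, hav⟩ := hbad.1 σ hσ
      have hjJ : j ∈ J := by
        rw [← hJ, mem_Jx]
        rcases hxj with h | h
        · rw [h]; exact ⟨fun h' => hw h'.symm, Or.inl rfl⟩
        · rw [h]; exact ⟨hw, Or.inr rfl⟩
      refine ⟨⟨j, hjJ⟩, ?_⟩
      rw [hxJ j hjJ] at hxj
      rcases hxj with h | h
      · simp only [h, if_true]; exact hav
      · have h2 : ¬ ((w, u) : V × V).1 = u := hw
        simp only [h, if_neg h2]; exact hav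
    · obtain ⟨σ, hσ, hv⟩ := hbad.2
      rw [hSu] at hσ
      exact ⟨σ, hσ, hv⟩
    · refine Prod.ext ?_ rfl
      funext j
      simp only [φ, decide_eq_true_eq]
      by_cases h : (a j).1 = u
      · rw [if_pos h, if_pos h]
        exact Prod.ext h.symm rfl
      · rw [if_neg h, if_neg h]
        have h2 : (a j).2 = u := by
          rcases (hinc j).2 with h3 | h3
          · exact absurd h3 h
          · exact h3
        exact Prod.ext rfl h2.symm
  · -- the probability of `Q`
    have hQ : pr Q ≤ Φ J.card := by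
      refine pr_prod_le (hΦ _) fun s => ?_
      let e : ({j : Fin M // j ∈ J} → V) × (Fin T → V × V) ≃
          (Fin J.card → V) × (Fin T → V × V) :=
        Equiv.prodCongr (Equiv.arrowCongr J.equivFin (Equiv.refl V)) (Equiv.refl _)
      have h1 := H F J.card (sym_Su _ _)
      rw [← pr_equiv e] at h1
      refine le_trans (pr_mono ?_) h1
      rintro ⟨w, g⟩ ⟨hq1, hq2⟩
      refine ⟨?_, hq2⟩
      intro σ hσ
      obtain ⟨j, hj⟩ := hq1 σ hσ
      refine ⟨J.equivFin j, Finset.mem_univ _, ?_⟩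
      simpa [e] using hj
    have hc : (Fintype.card (({j : Fin M // j ∈ J} → Bool) ×
        (({j : Fin M // j ∈ J} → V) × (Fin T → V × V))) : ℝ) /
        (Fintype.card (({j : Fin M // j ∈ J} → V × V) × (Fin T → V × V)) : ℝ) =
        (2 / nn V) ^ J.card := by
      have hG : (0 : ℝ) < (Fintype.card (Fin T → V × V) : ℝ) := by
        exact_mod_cast Fintype.card_pos
      have hn' : (0 : ℝ) < (Fintype.card V : ℝ) := hn
      have h1 : Fintype.card ({j : Fin M // j ∈ J} → V × V) =
          (Fintype.card V * Fintype.card V) ^ J.card := by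
        rw [Fintype.card_fun, Fintype.card_prod, Fintype.card_coe]
      have h2 : Fintype.card ({j : Fin M // j ∈ J} → V) = Fintype.card V ^ J.card := by
        rw [Fintype.card_fun, Fintype.card_coe]
      have h3 : Fintype.card ({j : Fin M // j ∈ J} → Bool) = 2 ^ J.card := by
        rw [Fintype.card_fun, Fintype.card_coe, Fintype.card_bool]
      rw [Fintype.card_prod, Fintype.card_prod, Fintype.card_prod, h1, h2, h3]
      push_cast
      unfold nn
      rw [div_pow, mul_pow]
      field_simp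
    rw [hc]
    exact mul_le_mul_of_nonneg_left hQ (by positivity)

end KD

open KD in
theorem keydec : StmtKeyDecomp := by
  intro V _ _ k c M T Φ hΦ H u
  classical
  have h1 : pr (fun p : (Fin M → V × V) × (Fin T → V × V) => BadU c p.1 p.2 u) ≤
      ∑ J : Finset (Fin M), pr (fun p : (Fin M → V × V) × (Fin T → V × V) =>
        Jx u p.1 = J ∧ BadU c p.1 p.2 u) := by
    refine le_trans (pr_mono fun p hp => ?_) (pr_exists_fintype_le _)
    exact ⟨Jx u p.1, rfl, hp⟩
  refine h1.trans ((Finset.sum_le_sum fun J _ => one_J c M T Φ hΦ H u J).trans ?_)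
  have h2 := Finset.sum_powerset_apply_card (x := (Finset.univ : Finset (Fin M)))
    (fun D => (2 / nn V) ^ D * Φ D)
  rw [Finset.powerset_univ, Finset.card_univ, Fintype.card_fin] at h2
  rw [h2]
  refine Finset.sum_le_sum fun D _ => ?_
  rw [nsmul_eq_mul, mul_assoc]

end Pool.ER
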