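import Pool.Agent.Work.MP_3e81b4_47.Basic

set_option autoImplicit false

/-! Block KEYDET (section 5, deterministic part). -/

namespace Pool.ER

open Set

/-- colouring an uncoloured vertex lowers the cost -/
theorem cost_update_some_lt {V : Type} [Finite V] [DecidableEq V] {k : ℕ} (σ : PC V k) (u : V)
    (hu : σ u = none) (c : Fin k) : cost (Function.update σ u (some c)) < cost σ := by
  rw [cost_eq_ncard, cost_eq_ncard]
  apply ncard_lt_ncard _ (toFinite _)
  constructor
  · intro v hv
    by_cases h : v = u
    · subst h
      exact hu
    · simpa [Function.update, h] using hv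
  · intro h
    have h1 : u ∈ {v | Function.update σ u (some c) v = none} := h hu
    simp at h1

theorem keyDet : StmtKeyDet := by
  intro V _ k c M T x g hY
  classical
  obtain ⟨σ, hσS, hσg⟩ := Y_union_eq_iff.1 hY
  have hbad : ∀ u : V, σ u = none → BadU c x g u := by
    intro u hu
    have hYu : Yu k (range x) u = Y k (range x) :=
      le_antisymm (hσS.2 ▸ Yu_le hσS.1 hu) (Y_le_Yu k _ u)
    refine ⟨?_, σ, ⟨hσS.1, hu, hσS.2.trans hYu.symm⟩, hσg⟩
    intro τ hτ
    by_contra hcon
    push Not at hcon
    have hval : valid (Function.update τ u (some c)) (range x) := by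
      rintro e ⟨j, rfl⟩
      by_cases h12 : (x j).1 = (x j).2
      · exact Or.inl h12
      by_cases h1 : (x j).1 = u
      · have h2 : (x j).2 ≠ u := fun h => h12 (h1.trans h.symm)
        have h3 := hcon j (x j).2 h2 (Or.inl (Prod.ext h1 rfl))
        right; right
        rw [h1, Function.update_self, Function.update_of_ne h2]
        exact fun h => h3 h.symm
      by_cases h2 : (x j).2 = u
      · have h3 := hcon j (x j).1 h1 (Or.inr (Prod.ext rfl h2))
        by_cases h4 : τ (x j).1 = none
        · right; left
          rw [Function.update_of_ne h1]; exact h4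
        · right; right
          rw [h2, Function.update_self, Function.update_of_ne h1]
          exact h3
      · rcases hτ.1 (x j) ⟨j, rfl⟩ with h | h | h
        · exact Or.inl h
        · right; left
          rw [Function.update_of_ne h1]; exact h
        · right; right
          rw [Function.update_of_ne h1, Function.update_of_ne h2]; exact h
    have h5 := Y_le hval
    have h6 := cost_update_some_lt τ u hτ.2.1 c
    have h7 : cost τ = Y k (range x) := hτ.2.2.trans hYu
    omega
  have h1 : (Y k (range x) : ℝ) = ∑ u : V, ind (σ u = none) := by
    rw [← hσS.2]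
    have h2 : ∀ u : V, ind (σ u = none) = if σ u = none then (1 : ℝ) else 0 := by
      intro u
      by_cases h : σ u = none
      · rw [ind_true h, if_pos h]
      · rw [ind_false h, if_neg h]
    simp only [h2]
    unfold cost
    rw [Finset.sum_boole, Nat.card_eq_fintype_card, Fintype.card_subtype]
  rw [h1]
  exact Finset.sum_le_sum fun u _ => ind_mono (hbad u)

end Pool.ER
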