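import Pool.Agent.Work.MP_3e81b4_47.Prob

set_option autoImplicit false

/-! Block statements for S19279.  Every block `X` is a theorem `Pool.ER.X : StmtX` (or an implication
between statements).  Proof on paper: note 2410 / team-store er_PROOF.txt. -/

namespace Pool.ER

open Set

variable {V : Type} {k : ℕ}

/-- the number of vertices, as a real -/
noncomputable def nn (V : Type) [Fintype V] : ℝ := (Fintype.card V : ℝ)

/-! ### Section 1-2: picking and killing lemmas -/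

def StmtPick : Prop := ∀ (V : Type) [Fintype V] [Nonempty V] (R : List V → Set V) (m τ : ℕ) (ρ : ℝ),
  m ≤ τ → 0 < ρ → 2 ≤ ρ * nn V →
  (∀ l, Legal R l → l.length ≤ m → ρ * nn V ≤ ((R l).ncard : ℝ)) →
  pr (fun g : Fin τ → V × V => ∃ N : Set V, Tr N g ∧
      ¬ ∃ l, Legal R l ∧ l.length = m + 1 ∧ ∀ v ∈ l, v ∈ N)
    ≤ (m + 1) * (2 * τ) ^ m * Real.exp (-((τ : ℝ) - m) * ρ ^ 2 / 2)

def StmtKL1 : Prop := ∀ (V : Type) [Fintype V] [Nonempty V] (R : Set V) (τ : ℕ) (lam : ℝ),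
  0 < lam → 2 ≤ lam * nn V → lam * nn V ≤ (R.ncard : ℝ) →
  pr (fun g : Fin τ → V × V => NotKill1 R g) ≤ Real.exp (-(τ : ℝ) * lam ^ 2 / 2)

/-- the error term of the killing lemmas -/
noncomputable def errT (m τ : ℕ) (ρ : ℝ) : ℝ :=
  (m + 1) * (2 * τ) ^ m * Real.exp (-((τ : ℝ) - m) * ρ ^ 2 / 2)

def StmtKL2 : Prop := ∀ (V : Type) [Fintype V] [Nonempty V] (B : Set (V × V)) (m τ : ℕ) (lam kap : ℝ),
  0 < lam → 0 < kap → m ≤ τ → 1 / (2 * lam) ≤ m → 2 ≤ kap / (4 * lam) * nn V →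
  kap * nn V ^ 2 ≤ (B.ncard : ℝ) →
  (∀ v, (({z | (v, z) ∈ B} : Set V).ncard : ℝ) ≤ lam * nn V) →
  (∀ z, (({v | (v, z) ∈ B} : Set V).ncard : ℝ) ≤ lam * nn V) →
  pr (fun g : Fin τ → V × V => NotKill2 B g) ≤ errT m τ (kap / (4 * lam))

def StmtKL3 : Prop := ∀ (V : Type) [Fintype V] [Nonempty V] (M : Set (V × V × V)) (m τ : ℕ)
    (lam kap gam D : ℝ),
  0 < lam → 0 < kap → 0 < gam → 0 < D → lam ≤ D / 2 → D * lam ≤ 4 * kap →
  m ≤ τ → D / (16 * kap) + 1 / (2 * D) + 2 ≤ m → 2 ≤ gam / (128 * kap) * nn V →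
  gam * nn V ^ 3 ≤ (M.ncard : ℝ) →
  (∀ x y, (({z | (x, y, z) ∈ M} : Set V).ncard : ℝ) ≤ lam * nn V) →
  (∀ x z, (({y | (x, y, z) ∈ M} : Set V).ncard : ℝ) ≤ lam * nn V) →
  (∀ y z, (({x | (x, y, z) ∈ M} : Set V).ncard : ℝ) ≤ lam * nn V) →
  (∀ x, (({p | (x, p.1, p.2) ∈ M} : Set (V × V)).ncard : ℝ) ≤ kap * nn V ^ 2) →
  (∀ y, (({p | (p.1, y, p.2) ∈ M} : Set (V × V)).ncard : ℝ) ≤ kap * nn V ^ 2) →
  (∀ z, (({p | (p.1, p.2, z) ∈ M} : Set (V × V)).ncard : ℝ) ≤ kap * nn V ^ 2) →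
  pr (fun g : Fin τ → V × V => NotKill3 M g) ≤ errT m τ (gam / (128 * kap))

/-! ### Section 3: the core lemma -/

def BadTriple (c : Fin k) (F : Set (PC V k)) (w : V × V × V) : Prop :=
  ∀ σ ∈ F, ¬ (avoid c σ w.1 ∧ avoid c σ w.2.1 ∧ avoid c σ w.2.2)

def PairOK (c : Fin k) (F : Set (PC V k)) (A : Set (V × V)) (a b : V) : Prop :=
  ∃ σ ∈ F, valid σ A ∧ avoid c σ a ∧ avoid c σ b

/-- bad for `F`, but every pair of the triple is fine for `F + g` -/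
def CoreEvent (c : Fin k) (F : Set (PC V k)) {τ : ℕ} (w : V × V × V) (g : Fin τ → V × V) : Prop :=
  BadTriple c F w ∧ PairOK c F (range g) w.1 w.2.1 ∧ PairOK c F (range g) w.1 w.2.2 ∧
    PairOK c F (range g) w.2.1 w.2.2

/-- parametric core lemma -/
def StmtCorePar : Prop := ∀ (k : ℕ) (c : Fin k) (V : Type) [Fintype V] [Nonempty V]
    (F : Set (PC V k)) (τ m2 m3 : ℕ) (lam kap gam D : ℝ),
  0 < lam → 0 < kap → 0 < gam → 0 < D → lam ≤ D / 2 → D * lam ≤ 4 * kap →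
  m2 ≤ τ → 1 / (2 * lam) ≤ m2 → m3 ≤ τ → D / (16 * kap) + 1 / (2 * D) + 2 ≤ m3 →
  2 ≤ lam * nn V → 2 ≤ kap / (4 * lam) * nn V → 2 ≤ gam / (128 * kap) * nn V →
  pr (fun p : (V × V × V) × (Fin τ → V × V) => CoreEvent c F p.1 p.2)
    ≤ gam + 3 * Real.exp (-(τ : ℝ) * lam ^ 2 / 2) + 3 * errT m2 τ (kap / (4 * lam))
      + errT m3 τ (gam / (128 * kap))

/-- the core lemma, exponent `51/50` -/
def StmtCore : Prop := ∃ C : ℝ, 0 < C ∧ ∀ (k : ℕ) (c : Fin k) (V : Type) [Fintype V] [Nonempty V]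
    (F : Set (PC V k)) (τ : ℕ), 1 ≤ τ → τ ≤ Fintype.card V →
  pr (fun p : (V × V × V) × (Fin τ → V × V) => CoreEvent c F p.1 p.2)
    ≤ C * (τ : ℝ) ^ (-(51 / 50) : ℝ)

/-! ### Section 4: the chain lemma -/

def BadTuple (c : Fin k) (F : Set (PC V k)) {D : ℕ} (I : Finset (Fin D)) (w : Fin D → V) : Prop :=
  ∀ σ ∈ F, ∃ j ∈ I, ¬ avoid c σ (w j)

/-- deterministic part of the chain lemma -/
def StmtChainDet : Prop := ∀ (V : Type) (k : ℕ) (c : Fin k) (D : ℕ) (w : Fin D → V)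
    (F : ℕ → Set (PC V k)), (∀ i, F (i + 1) ⊆ F i) → (∀ i, i ≤ D → (F i).Nonempty) →
  BadTuple c (F 0) Finset.univ w →
  ∃ i < D, ∃ I : Finset (Fin D), BadTuple c (F i) I w ∧ ∀ J, J ⊂ I → ¬ BadTuple c (F (i + 1)) J w

def StmtChain : Prop := ∀ (k : ℕ), 3 ≤ k → ∃ C : ℝ, 0 < C ∧ ∀ (c : Fin k) (V : Type) [Fintype V]
    [Nonempty V] (F : Set (PC V k)) (D T : ℕ), Sym F → 1 ≤ T → T ≤ Fintype.card V →
  pr (fun p : (Fin D → V) × (Fin T → V × V) =>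
      BadTuple c F Finset.univ p.1 ∧ ∃ σ ∈ F, valid σ (range p.2))
    ≤ C * (D : ℝ) ^ 3 * 4 ^ D * (T : ℝ) ^ (-(51 / 50) : ℝ)

/-! ### Section 5: the key lemma -/

/-- minimal cost of a valid partial colouring that leaves `u` uncoloured -/
noncomputable def Yu (k : ℕ) (A : Set (V × V)) (u : V) : ℕ :=
  sInf {c : ℕ | ∃ σ : PC V k, valid σ A ∧ σ u = none ∧ cost σ = c}

def Su (k : ℕ) (A : Set (V × V)) (u : V) : Set (PC V k) :=
  {σ | valid σ A ∧ σ u = none ∧ cost σ = Yu k A u}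

/-- `x` and `g` make `u` bad: every `σ ∈ Su` uses colour `c` on a neighbour of `u`,
and some `σ ∈ Su` is valid for `g` -/
def BadU (c : Fin k) {M T : ℕ} (x : Fin M → V × V) (g : Fin T → V × V) (u : V) : Prop :=
  (∀ σ ∈ Su k (range x) u, ∃ j w, w ≠ u ∧ (x j = (u, w) ∨ x j = (w, u)) ∧ ¬ avoid c σ w) ∧
  ∃ σ ∈ Su k (range x) u, valid σ (range g)

def StmtKeyDet : Prop := ∀ (V : Type) [Fintype V] (k : ℕ) (c : Fin k) (M T : ℕ)
    (x : Fin M → V × V) (g : Fin T → V × V),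
  Y k (range x ∪ range g) = Y k (range x) →
  (Y k (range x) : ℝ) ≤ ∑ u : V, ind (BadU c x g u)

/-- the decomposition along the edges at `u` -/
def StmtKeyDecomp : Prop := ∀ (V : Type) [Fintype V] [Nonempty V] (k : ℕ) (c : Fin k) (M T : ℕ)
    (Φ : ℕ → ℝ), (∀ D, 0 ≤ Φ D) →
  (∀ (F : Set (PC V k)) (D : ℕ), Sym F → 
    pr (fun p : (Fin D → V) × (Fin T → V × V) =>
      BadTuple c F Finset.univ p.1 ∧ ∃ σ ∈ F, valid σ (range p.2)) ≤ Φ D) →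
  ∀ u : V, pr (fun p : (Fin M → V × V) × (Fin T → V × V) => BadU c p.1 p.2 u)
    ≤ ∑ D ∈ Finset.range (M + 1), (M.choose D : ℝ) * (2 / nn V) ^ D * Φ D

def StmtKey : Prop := ∀ (k : ℕ), 3 ≤ k → ∀ c : ℝ, ∃ C : ℝ, 0 < C ∧
  ∀ (V : Type) [Fintype V] [Nonempty V] (M T : ℕ),
  (M : ℝ) ≤ c * nn V → 1 ≤ T → T ≤ Fintype.card V →
  (avg fun p : (Fin M → V × V) × (Fin T → V × V) =>
     (Y k (range p.1) : ℝ) * ind (Y k (range p.1 ∪ range p.2) = Y k (range p.1)))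
  ≤ C * nn V * (T : ℝ) ^ (-(51 / 50) : ℝ)

/-! ### Sections 6-7: Efron-Stein and the inequality (I) -/

def StmtES : Prop := ∀ (k : ℕ) (V : Type) [Fintype V] [Nonempty V] (M : ℕ),
  (avg fun x : Fin (M + 1) → V × V => (Y k (range x) : ℝ) ^ 2) ≤
    (M + 1) * (yy k V (M + 1) - yy k V M) + yy k V (M + 1) ^ 2

def StmtIneq : Prop := ∀ (k : ℕ), 3 ≤ k → ∀ c : ℝ, ∃ C : ℝ, 0 < C ∧
  ∀ (V : Type) [Fintype V] [Nonempty V] (M T : ℕ),
  (M : ℝ) + 1 ≤ c * nn V → 1 ≤ T → T ≤ Fintype.card V →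
  yy k V (M + 1) ≤
    Real.sqrt (((M + 1) * (yy k V (M + 1) - yy k V M) + yy k V (M + 1) ^ 2) *
      (yy k V (M + 1 + T) - yy k V (M + 1))) + C * nn V * (T : ℝ) ^ (-(51 / 50) : ℝ)

/-! ### Section 8: growth (pure real analysis) -/

/-- the hypotheses on the sequence `y` -/
structure GrowthHyp (c C : ℝ) (n : ℕ) (y : ℕ → ℝ) : Prop where
  mono : Monotone y
  nonneg : ∀ M, 0 ≤ y M
  le_n : ∀ M, y M ≤ n
  step : ∀ M, y (M + 1) ≤ y M + 1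
  ineq : ∀ M T : ℕ, (M : ℝ) + 1 ≤ c * n → 1 ≤ T → T ≤ n →
    y (M + 1) ≤ Real.sqrt (((M + 1) * (y (M + 1) - y M) + y (M + 1) ^ 2) *
      (y (M + 1 + T) - y (M + 1))) + C * n * (T : ℝ) ^ (-(51 / 50) : ℝ)

/-- doubling step: if `y` has not doubled on a window of length `2 L`, then `y M0` is tiny -/
def StmtDouble : Prop := ∀ (c C : ℝ) (n : ℕ) (y : ℕ → ℝ) (M0 L T : ℕ), 0 < C → 0 < n →
  GrowthHyp c C n y → (M0 : ℝ) + 2 * L ≤ c * n → 1 ≤ L → 1 ≤ T → T ≤ L → L ≤ n →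
  y (M0 + 2 * L) ≤ 2 * y M0 → 
  4 * ((c * n + 4 * L * y M0) * T) ≤ (L : ℝ) ^ 2 →
  y M0 ≤ 2 * C * n * (T : ℝ) ^ (-(51 / 50) : ℝ)

def StmtGrowth : Prop := ∀ (c C : ℝ), 0 < c → 0 < C → ∀ w > 0, ∀ δ > 0, ∃ ε : ℝ, 0 < ε ∧
  ∃ n0 : ℕ, ∀ (n : ℕ), n0 ≤ n → ∀ y : ℕ → ℝ, GrowthHyp c C n y →
  ∀ M0 : ℕ, (M0 : ℝ) + w * n ≤ c * n → δ ≤ y M0 →
  ∀ M : ℕ, (M0 : ℝ) + w * n ≤ M → ε * n ≤ y M

/-! ### Section 9: interpolation -/

/-- edges of the part `i` of a split graph -/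
def partEdges {P W : Type} {M : ℕ} (x : Fin M → P × W × W) (i : P) : Set (W × W) :=
  {e | ∃ j, x j = (i, e)}

/-- the edge `(a, b)` inside the part `i` -/
def splitE {P W : Type} (e : P × W × W) : (P × W) × (P × W) := ((e.1, e.2.1), (e.1, e.2.2))

/-- one-by-one replacement; `P` = parts, all of size `|W|` -/
def StmtInterpSwap : Prop := ∀ (k : ℕ) (P W : Type) [Fintype P] [Fintype W] [Nonempty P] [Nonempty W]
    (M : ℕ),
  yy k (P × W) M ≤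
    (avg fun x : Fin M → P × W × W => (Y k (range fun j => splitE (x j)) : ℝ)) + M / nn W

/-- additivity of `Y` on disjoint unions -/
def StmtInterpAdd : Prop := ∀ (k : ℕ) (P W : Type) [Fintype P] [Fintype W] (M : ℕ)
    (x : Fin M → P × W × W),
  Y k (range fun j => splitE (x j)) = ∑ i : P, Y k (partEdges x i)

/-- one part of the split graph has about `M / |P|` edges -/
def StmtInterpPart : Prop := ∀ (k : ℕ) (P W : Type) [Fintype P] [Fintype W] [Nonempty P] [Nonempty W]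
    (M m : ℕ) (i : P),
  (avg fun x : Fin M → P × W × W => (Y k (partEdges x i) : ℝ))
    ≤ yy k W m + Real.sqrt (M / nn P) + |(M : ℝ) / nn P - m|

/-- removing vertices -/
def StmtInterpRem : Prop := ∀ (k : ℕ) (N N' M : ℕ), N' ≤ N → 0 < N' →
  yy k (Fin N) M ≤ yy k (Fin N') M + (N - N' : ℝ)

def StmtInterp : Prop := ∀ (k : ℕ) (c : ℝ), 0 ≤ c → ∃ C : ℝ, ∀ (n : ℕ), 1 ≤ n → ∀ (N : ℕ), n ≤ N →
   yy k (Fin N) ⌊c * N⌋₊ / N ≤ yy k (Fin n) ⌊c * n⌋₊ / n + C / Real.sqrt n + C * n / N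

/-! ### Section 10: large c -/

def StmtLarge : Prop := ∀ (k : ℕ), 1 ≤ k → ∃ c ε : ℝ, 0 < c ∧ 0 < ε ∧ ∃ n0 : ℕ, ∀ n ≥ n0,
  ε * n ≤ yy k (Fin n) ⌊c * n⌋₊

/-! ### Section 12: transfer to uniform simple graphs -/

/-- proportion of `k`-colourable graphs among the simple graphs on `Fin n` with `m` edges,
exactly as in the frozen statement -/
noncomputable def ps (k n m : ℕ) : ℝ :=
  (Nat.card {G : SimpleGraph (Fin n) // G.edgeSet.ncard = m ∧ G.Colorable k} : ℝ) /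
    (Nat.card {G : SimpleGraph (Fin n) // G.edgeSet.ncard = m} : ℝ)

/-- probability that the iid multigraph is colourable -/
noncomputable def pc (k n M : ℕ) : ℝ :=
  pr fun x : Fin M → Fin n × Fin n => Y k (range x) = 0

def StmtTransfer1 : Prop := ∀ (k n m : ℕ), 1 ≤ k → 1 ≤ n → m ≤ n.choose 2 → ps k n m ≤ pc k n m

def StmtTransfer2 : Prop := ∀ (k n M a : ℕ), 1 ≤ k → 1 ≤ n → 1 ≤ a → M ≤ n.choose 2 →
  pc k n (M + a) ≤ ps k n M + ((M + a : ℝ) / n + (M + a : ℝ) ^ 2 / n ^ 2) * 2 / a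

/-! ### Section 11: assembly -/

/-- the analytic assembly: `pc` has a sharp threshold -/
def StmtSharpIid : Prop := ∀ (k : ℕ), 3 ≤ k → ∃ c : ℝ, 0 ≤ c ∧
  (∀ b : ℝ, 0 ≤ b → b < c → Filter.Tendsto (fun n : ℕ => pc k n ⌊b * n⌋₊) Filter.atTop (nhds 1)) ∧
  (∀ b : ℝ, c < b → Filter.Tendsto (fun n : ℕ => pc k n ⌊b * n⌋₊) Filter.atTop (nhds 0))

def StmtMain : Prop := ∀ k : ℕ, 3 ≤ k → ∃ c : ℝ, ∀ ε : ℝ, 0 < ε →
  Filter.Tendsto (fun n : ℕ => ps k n ⌊(c - ε) * (n : ℝ)⌋₊) Filter.atTop (nhds 1) ∧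
  Filter.Tendsto (fun n : ℕ => ps k n ⌊(c + ε) * (n : ℝ)⌋₊) Filter.atTop (nhds 0)

end Pool.ER
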