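import Pool.Agent.Work.MP_3e81b4_47.Basic
import Pool.Agent.Work.MP_3e81b4_47.Interface

set_option autoImplicit false

/-! Block LARGE: first moment bound, `E Y ≥ n / 4` for large `c`. -/

namespace Pool.ER

namespace LargeH41

open Set Filter Topology

theorem avg_pow {E : Type*} [Fintype E] (f : E → ℝ) (M : ℕ) :
    avg (fun x : Fin M → E => ∏ i, f (x i)) = avg f ^ M := by
  classical
  unfold avg
  rw [div_pow, Fintype.sum_pow, Fintype.card_fun, Fintype.card_fin, Nat.cast_pow]

theorem ind_forall {M : ℕ} (p : Fin M → Prop) : ind (∀ i, p i) = ∏ i, ind (p i) := by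
  by_cases h : ∀ i, p i
  · rw [ind_true h]
    exact (Finset.prod_eq_one fun i _ => ind_true (h i)).symm
  · rw [ind_false h]
    push Not at h
    obtain ⟨i, hi⟩ := h
    exact (Finset.prod_eq_zero (Finset.mem_univ i) (ind_false hi)).symm

theorem pr_valid {V : Type} [Fintype V] {k : ℕ} (σ : PC V k) (M : ℕ) :
    pr (fun x : Fin M → V × V => valid σ (range x)) = pr (fun e : V × V => ok σ e) ^ M := by
  unfold pr
  rw [← avg_pow]
  congr 1
  funext x
  rw [← ind_forall]
  exact ind_congr valid_range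

/-- a colouring that leaves at most half of the vertices uncoloured fails on many edges -/
theorem pr_ok_le {k n : ℕ} (hk : 1 ≤ k) (hn : 4 * k ≤ n) (σ : PC (Fin n) k)
    (hσ : 2 * cost σ ≤ n) :
    pr (fun e : Fin n × Fin n => ok σ e) ≤ 1 - 1 / (8 * (k : ℝ) ^ 2) := by
  classical
  have hk0 : (0 : ℝ) < k := by exact_mod_cast hk
  have hn1 : 1 ≤ n := by omega
  have hn0 : (0 : ℝ) < n := by exact_mod_cast hn1
  have : Nonempty (Fin n) := ⟨⟨0, hn1⟩⟩
  let A : Fin k → Finset (Fin n) := fun i => Finset.univ.filter fun v => σ v = some i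
  let N : Finset (Fin n) := Finset.univ.filter fun v => σ v = none
  have hN : N.card = cost σ := by
    rw [cost_eq_ncard, Set.ncard_eq_toFinset_card']
    congr 1
    ext v; simp [N]
  have hsum : N.card + ∑ i, (A i).card = n := by
    have h1 := Finset.card_eq_sum_card_fiberwise (s := (Finset.univ : Finset (Fin n)))
      (t := (Finset.univ : Finset (Option (Fin k)))) (f := σ) (fun _ _ => Finset.mem_univ _)
    rw [Finset.card_univ, Fintype.card_fin, Fintype.sum_option] at h1
    exact h1.symm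
  obtain ⟨i, hi⟩ : ∃ i, n ≤ 2 * k * (A i).card := by
    by_contra hcon
    push Not at hcon
    have h1 : ∑ i, (2 * k * (A i).card) < ∑ _i : Fin k, n :=
      Finset.sum_lt_sum_of_nonempty ⟨⟨0, hk⟩, Finset.mem_univ _⟩ fun i _ => hcon i
    rw [← Finset.mul_sum] at h1
    simp only [Finset.sum_const, Finset.card_univ, Fintype.card_fin, smul_eq_mul] at h1
    have h2 : n ≤ 2 * ∑ i, (A i).card := by omega
    have h3 : k * n ≤ k * (2 * ∑ i, (A i).card) := Nat.mul_le_mul_left k h2
    have h4 : k * (2 * ∑ i, (A i).card) = 2 * k * ∑ i, (A i).card := by ring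
    omega
  -- number of failing edges
  have hfail : (((A i).offDiag.card : ℕ) : ℝ) / (n * n : ℝ) ≤
      pr (fun e : Fin n × Fin n => ¬ ok σ e) := by
    rw [pr_eq_ncard, Fintype.card_prod, Fintype.card_fin, Nat.cast_mul]
    refine div_le_div_of_nonneg_right ?_ (by positivity)
    have h1 : (A i).offDiag.card = ((A i).offDiag : Set (Fin n × Fin n)).ncard :=
      (Set.ncard_coe_finset _).symm
    rw [h1]
    refine Nat.cast_le.2 (Set.ncard_le_ncard ?_ (Set.toFinite _))
    rintro ⟨a, b⟩ hab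
    have h2 := Finset.mem_offDiag.1 (Finset.mem_coe.1 hab)
    obtain ⟨ha, hb, hne⟩ := h2
    have ha' : σ a = some i := (Finset.mem_filter.1 ha).2
    have hb' : σ b = some i := (Finset.mem_filter.1 hb).2
    change ¬ ok σ (a, b)
    rintro (h | h | h)
    · exact hne h
    · rw [show ((a, b) : Fin n × Fin n).1 = a from rfl, ha'] at h; cases h
    · exact h (by rw [show ((a, b) : Fin n × Fin n).1 = a from rfl,
        show ((a, b) : Fin n × Fin n).2 = b from rfl, ha', hb'])
  have hcard : (((A i).offDiag.card : ℕ) : ℝ) = ((A i).card : ℝ) ^ 2 - (A i).card := by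
    rw [Finset.offDiag_card, Nat.cast_sub (Nat.le_mul_self _), Nat.cast_mul]; ring
  rw [pr_not] at hfail
  set m : ℝ := ((A i).card : ℝ) with hm
  have hm1 : (n : ℝ) ≤ 2 * k * m := by rw [hm]; exact_mod_cast hi
  have hn4 : 4 * (k : ℝ) ≤ n := by exact_mod_cast hn
  have hm2 : 2 ≤ m := by
    by_contra h; push Not at h
    have : 2 * k * m < 2 * k * 2 := mul_lt_mul_of_pos_left h (by positivity)
    linarith
  have h5 : (n : ℝ) * n ≤ (2 * k * m) * (2 * k * m) :=
    mul_le_mul hm1 hm1 hn0.le (by positivity)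
  have h6 : m * m ≤ 2 * (m ^ 2 - m) := by nlinarith
  have h7 : 1 / (8 * (k : ℝ) ^ 2) ≤ (m ^ 2 - m) / (n * n : ℝ) := by
    rw [div_le_div_iff₀ (by positivity) (by positivity)]
    have h8 : (2 * (k : ℝ)) ^ 2 * (m * m) ≤ (2 * (k : ℝ)) ^ 2 * (2 * (m ^ 2 - m)) :=
      mul_le_mul_of_nonneg_left h6 (by positivity)
    nlinarith
  rw [hcard] at hfail
  linarith

theorem main : StmtLarge := by
  intro k hk
  have hk0 : (0 : ℝ) < k := by exact_mod_cast hk
  set p0 : ℝ := 1 / (8 * (k : ℝ) ^ 2) with hp0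
  have hp0' : 0 < p0 := by positivity
  have hk1 : (1 : ℝ) ≤ k := by exact_mod_cast hk
  have hp1 : p0 ≤ 1 := by
    rw [hp0, div_le_one (by positivity)]
    nlinarith
  set c : ℝ := (Real.log (k + 1) + 1) / p0 with hc
  have hlog : 0 ≤ Real.log (k + 1) := Real.log_nonneg (by linarith)
  have hc0 : 0 < c := by positivity
  refine ⟨c, 1 / 4, hc0, by norm_num, max (4 * k) 4, fun n hn => ?_⟩
  have hn4 : 4 * k ≤ n := (le_max_left _ _).trans hn
  have hn4' : 4 ≤ n := (le_max_right _ _).trans hn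
  have hn0 : (0 : ℝ) < n := by exact_mod_cast (by omega : 0 < n)
  have : Nonempty (Fin n) := ⟨⟨0, by omega⟩⟩
  set M := ⌊c * n⌋₊ with hM
  have hMl : c * n - 1 < M := by
    have := Nat.lt_floor_add_one (c * n)
    rw [← hM] at this
    linarith
  -- the probability that `Y ≤ n / 2`
  have h1 : pr (fun x : Fin M → Fin n × Fin n => 2 * Y k (range x) ≤ n) ≤
      ∑ σ : PC (Fin n) k, pr (fun x : Fin M → Fin n × Fin n =>
        valid σ (range x) ∧ 2 * cost σ ≤ n) := by
    refine le_trans (pr_mono fun x hx => ?_)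
      (pr_exists_fintype_le fun (σ : PC (Fin n) k) (x : Fin M → Fin n × Fin n) =>
        valid σ (range x) ∧ 2 * cost σ ≤ n)
    obtain ⟨σ, h1, h2⟩ := exists_opt k (range x)
    exact ⟨σ, h1, by rw [h2]; exact hx⟩
  have h2 : ∀ σ : PC (Fin n) k, pr (fun x : Fin M → Fin n × Fin n =>
        valid σ (range x) ∧ 2 * cost σ ≤ n) ≤ (1 - p0) ^ M := by
    intro σ
    by_cases hσ : 2 * cost σ ≤ n
    · refine (pr_mono (q := fun x : Fin M → Fin n × Fin n => valid σ (range x))
        fun x hx => hx.1).trans ?_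
      rw [pr_valid]
      exact pow_le_pow_left₀ (pr_nonneg _) (pr_ok_le hk hn4 σ hσ) M
    · have : pr (fun x : Fin M → Fin n × Fin n => valid σ (range x) ∧ 2 * cost σ ≤ n) = 0 := by
        unfold pr
        have e : (fun x : Fin M → Fin n × Fin n =>
            ind (valid σ (range x) ∧ 2 * cost σ ≤ n)) = fun _ => 0 := by
          funext x; exact ind_false fun h => hσ h.2
        rw [e, avg_const]
      rw [this]
      exact pow_nonneg (by linarith) M
  have h3 : ∑ σ : PC (Fin n) k, pr (fun x : Fin M → Fin n × Fin n =>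
        valid σ (range x) ∧ 2 * cost σ ≤ n) ≤ ((k : ℝ) + 1) ^ n * (1 - p0) ^ M := by
    refine (Finset.sum_le_sum fun σ _ => h2 σ).trans (le_of_eq ?_)
    rw [Finset.sum_const, Finset.card_univ, Fintype.card_fun, Fintype.card_fin,
      Fintype.card_option, Fintype.card_fin, nsmul_eq_mul]
    push_cast; rfl
  have h4 : (1 - p0) ^ M ≤ Real.exp (-(p0 * M)) := by
    have h : 1 - p0 ≤ Real.exp (-p0) := by
      have := Real.add_one_le_exp (-p0); linarith
    calc (1 - p0) ^ M ≤ Real.exp (-p0) ^ M := pow_le_pow_left₀ (by linarith) h M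
      _ = Real.exp (-(p0 * M)) := by rw [← Real.exp_nat_mul]; congr 1; ring
  have h5 : ((k : ℝ) + 1) ^ n = Real.exp (n * Real.log (k + 1)) := by
    rw [Real.exp_nat_mul, Real.exp_log (by positivity)]
  have h6 : ((k : ℝ) + 1) ^ n * (1 - p0) ^ M ≤ 1 / 2 := by
    have hpc : p0 * c = Real.log (k + 1) + 1 := by
      rw [hc]; field_simp
    have e1 : p0 * (c * n - 1) ≤ p0 * M := mul_le_mul_of_nonneg_left hMl.le hp0'.le
    have e2 : p0 * (c * n - 1) = (Real.log (k + 1) + 1) * n - p0 := by
      rw [mul_sub, ← mul_assoc, hpc]; ring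
    have e3 : (n : ℝ) * Real.log (k + 1) + -(p0 * M) ≤ -1 := by
      have hn4r : (4 : ℝ) ≤ n := by exact_mod_cast hn4'
      nlinarith
    calc ((k : ℝ) + 1) ^ n * (1 - p0) ^ M
        ≤ Real.exp (n * Real.log (k + 1)) * Real.exp (-(p0 * M)) := by
          rw [h5]; exact mul_le_mul_of_nonneg_left h4 (Real.exp_pos _).le
      _ = Real.exp (n * Real.log (k + 1) + -(p0 * M)) := (Real.exp_add _ _).symm
      _ ≤ Real.exp (-1) := Real.exp_le_exp.2 e3
      _ ≤ 1 / 2 := by
          rw [Real.exp_neg, ← one_div]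
          exact one_div_le_one_div_of_le (by norm_num) (by
            have := Real.add_one_le_exp (1 : ℝ); linarith)
  have h7 : pr (fun x : Fin M → Fin n × Fin n => 2 * Y k (range x) ≤ n) ≤ 1 / 2 :=
    h1.trans (h3.trans h6)
  -- lower bound of the mean
  have h8 : (n : ℝ) / 2 * pr (fun x : Fin M → Fin n × Fin n => ¬ 2 * Y k (range x) ≤ n) ≤
      yy k (Fin n) M := by
    unfold yy pr
    rw [← avg_mul_left]
    refine avg_mono fun x => ?_
    by_cases hx : 2 * Y k (range x) ≤ n
    · rw [ind_false (not_not.2 hx)]; simp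
    · rw [ind_true hx]
      push Not at hx
      have : (n : ℝ) < 2 * Y k (range x) := by exact_mod_cast hx
      linarith
  rw [pr_not] at h8
  have h9 : (n : ℝ) / 2 * (1 / 2) ≤ (n : ℝ) / 2 *
      (1 - pr (fun x : Fin M → Fin n × Fin n => 2 * Y k (range x) ≤ n)) :=
    mul_le_mul_of_nonneg_left (by linarith) (by positivity)
  linarith

end LargeH41

theorem LARGE : StmtLarge := LargeH41.main

end Pool.ER
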