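import Pool.Agent.Work.MP_3e81b4_47.Interface

set_option autoImplicit false

/-! Block MAIN: from the iid multigraph to uniform simple graphs
(`StmtSharpIid → StmtTransfer1 → StmtTransfer2 → StmtMain`). -/

namespace Pool.ER

namespace MainH73

open Filter

theorem floor_le_choose (b : ℝ) : ∀ᶠ n : ℕ in atTop, ⌊b * (n : ℝ)⌋₊ ≤ n.choose 2 := by
  filter_upwards [eventually_ge_atTop (⌈2 * b + 1⌉₊)] with n hn
  apply Nat.floor_le_of_le
  rw [Nat.cast_choose_two]
  have h1 : 2 * b + 1 ≤ (n : ℝ) := (Nat.le_ceil _).trans (by exact_mod_cast hn)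
  have h2 : (0 : ℝ) ≤ (n : ℝ) := Nat.cast_nonneg n
  nlinarith

theorem ps_nonneg (k n m : ℕ) : 0 ≤ ps k n m := by
  unfold ps; positivity

theorem ps_zero (k n : ℕ) (hk : 1 ≤ k) : ps k n 0 = 1 := by
  classical
  have hbot : ∀ G : SimpleGraph (Fin n), G.edgeSet.ncard = 0 → G.Colorable k := by
    intro G hG
    have h0 : G.edgeSet = ∅ := (Set.ncard_eq_zero (Set.toFinite _)).1 hG
    have h1 : G = ⊥ := SimpleGraph.edgeSet_eq_empty.1 h0
    subst h1
    exact ⟨SimpleGraph.Coloring.mk (fun _ => (⟨0, by omega⟩ : Fin k)) (by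
      intro v w h; exact absurd h (by simp))⟩
  have hcard : Nat.card {G : SimpleGraph (Fin n) // G.edgeSet.ncard = 0 ∧ G.Colorable k} =
      Nat.card {G : SimpleGraph (Fin n) // G.edgeSet.ncard = 0} := by
    apply Nat.card_congr
    exact Equiv.subtypeEquivRight fun G => ⟨fun h => h.1, fun h => ⟨h, hbot G h⟩⟩
  have hpos : Nat.card {G : SimpleGraph (Fin n) // G.edgeSet.ncard = 0} ≠ 0 := by
    haveI : Nonempty {G : SimpleGraph (Fin n) // G.edgeSet.ncard = 0} := ⟨⟨⊥, by simp⟩⟩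
    exact Nat.card_ne_zero.2 ⟨inferInstance, inferInstance⟩
  unfold ps
  rw [hcard]
  exact div_self (by exact_mod_cast hpos)

theorem upper (h1 : StmtTransfer1) (k : ℕ) (hk : 1 ≤ k) (b : ℝ)
    (hb : Tendsto (fun n : ℕ => pc k n ⌊b * n⌋₊) atTop (nhds 0)) :
    Tendsto (fun n : ℕ => ps k n ⌊b * (n : ℝ)⌋₊) atTop (nhds 0) := by
  refine tendsto_of_tendsto_of_tendsto_of_le_of_le' tendsto_const_nhds hb
    (Eventually.of_forall fun n => ps_nonneg _ _ _) ?_
  filter_upwards [floor_le_choose b, eventually_ge_atTop 1] with n hn hn1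
  exact h1 k n _ hk hn1 hn

theorem lower (h1 : StmtTransfer1) (h2 : StmtTransfer2) (k : ℕ) (hk : 1 ≤ k) (b0 b : ℝ)
    (hb0 : 0 ≤ b0) (hbb : b0 < b)
    (hb : Tendsto (fun n : ℕ => pc k n ⌊b * n⌋₊) atTop (nhds 1)) :
    Tendsto (fun n : ℕ => ps k n ⌊b0 * (n : ℝ)⌋₊) atTop (nhds 1) := by
  have hd : 0 < b - b0 := sub_pos.2 hbb
  set K : ℝ := (b + b ^ 2) * 2 / ((b - b0) / 2) with hK
  have hlow : Tendsto (fun n : ℕ => pc k n ⌊b * n⌋₊ - K / (n : ℝ)) atTop (nhds 1) := by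
    have h := hb.sub (tendsto_const_div_atTop_nhds_zero_nat K)
    simpa using h
  refine tendsto_of_tendsto_of_tendsto_of_le_of_le' hlow tendsto_const_nhds ?_ ?_
  · filter_upwards [floor_le_choose b0, eventually_ge_atTop 1,
      eventually_ge_atTop (⌈2 / (b - b0)⌉₊ + 1)] with n hn hn1 hn2
    have hnpos : (0 : ℝ) < n := by exact_mod_cast hn1
    have hbig : 2 / (b - b0) ≤ (n : ℝ) := by
      have : (⌈2 / (b - b0)⌉₊ : ℝ) ≤ n := by
        have : ⌈2 / (b - b0)⌉₊ ≤ n := by omega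
        exact_mod_cast this
      exact (Nat.le_ceil _).trans this
    have hbig2 : 2 ≤ (b - b0) * n := by
      rw [div_le_iff₀ hd] at hbig
      linarith
    set M := ⌊b0 * (n : ℝ)⌋₊ with hM
    set M' := ⌊b * (n : ℝ)⌋₊ with hM'
    have hMle : (M : ℝ) ≤ b0 * n := Nat.floor_le (by positivity)
    have hM'le : (M' : ℝ) ≤ b * n := Nat.floor_le (by
      have : 0 ≤ b := hb0.trans hbb.le
      positivity)
    have hM'ge : b * n - 1 < (M' : ℝ) := by
      have := Nat.lt_floor_add_one (b * (n : ℝ))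
      linarith
    have hlt : (b - b0) / 2 * n ≤ (M' : ℝ) - M := by nlinarith
    have hMM' : (M : ℝ) + 1 ≤ M' := by nlinarith
    have hMM'n : M + 1 ≤ M' := by exact_mod_cast hMM'
    have hsum : M + (M' - M) = M' := by omega
    have hcast : ((M' - M : ℕ) : ℝ) = (M' : ℝ) - M := by
      rw [Nat.cast_sub (by omega)]
    have h := h2 k n M (M' - M) hk hn1 (by omega) hn
    rw [hsum] at h
    have hcast2 : (M : ℝ) + ((M' - M : ℕ) : ℝ) = M' := by rw [hcast]; ring
    rw [hcast2] at h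
    rw [hcast] at h
    have hx : (M' : ℝ) / n ≤ b := by rw [div_le_iff₀ hnpos]; exact hM'le
    have hx0 : 0 ≤ (M' : ℝ) / n := by positivity
    have hE : ((M' : ℝ) / n + (M' : ℝ) ^ 2 / n ^ 2) * 2 / ((M' : ℝ) - M) ≤ K / n := by
      have e1 : (M' : ℝ) ^ 2 / (n : ℝ) ^ 2 = ((M' : ℝ) / n) ^ 2 := by rw [div_pow]
      have e2 : ((M' : ℝ) / n + (M' : ℝ) ^ 2 / n ^ 2) * 2 ≤ (b + b ^ 2) * 2 := by
        rw [e1]
        nlinarith
      have e3 : K / n = (b + b ^ 2) * 2 / ((b - b0) / 2 * n) := by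
        rw [hK, div_div]
      rw [e3]
      have hbnn : 0 ≤ b := hb0.trans hbb.le
      apply div_le_div₀ (by positivity) e2 (by positivity) hlt
    linarith
  · filter_upwards [floor_le_choose b0, eventually_ge_atTop 1] with n hn hn1
    exact (h1 k n _ hk hn1 hn).trans (pr_le_one _)

end MainH73

/-- block MAIN -/
theorem MAIN (hS : StmtSharpIid) (h1 : StmtTransfer1) (h2 : StmtTransfer2) : StmtMain := by
  intro k hk
  obtain ⟨c, hc0, hlo, hhi⟩ := hS k hk
  have hk1 : 1 ≤ k := by omega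
  refine ⟨c, fun ε hε => ⟨?_, ?_⟩⟩
  · rcases le_or_gt 0 (c - ε) with h | h
    · exact MainH73.lower h1 h2 k hk1 (c - ε) (c - ε / 2) h (by linarith)
        (hlo _ (by linarith) (by linarith))
    · have hz : ∀ n : ℕ, ps k n ⌊(c - ε) * (n : ℝ)⌋₊ = 1 := by
        intro n
        have : ⌊(c - ε) * (n : ℝ)⌋₊ = 0 := by
          apply Nat.floor_of_nonpos
          exact mul_nonpos_of_nonpos_of_nonneg h.le (Nat.cast_nonneg n)
        rw [this]
        exact MainH73.ps_zero k n hk1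
      simp only [hz]
      exact tendsto_const_nhds
  · exact MainH73.upper h1 k hk1 (c + ε) (hhi _ (by linarith))

end Pool.ER
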