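import Pool.Agent.Work.MP_3e81b4_47.Interface

/-!
# MP_3e81b4_pr, section 1: the picking lemma (helper67)
-/

set_option autoImplicit false

open Finset

namespace Pool.ER

namespace Pick

/-! ## Counting -/

theorem pr_eq {α : Type*} [Fintype α] (p : α → Prop) [DecidablePred p] :
    pr p = ((univ.filter p).card : ℝ) / Fintype.card α := by
  unfold pr avg
  congr 1
  rw [← sum_boole]
  refine sum_congr rfl fun a _ => ?_
  unfold ind
  by_cases h : p a
  · simp [h]
  · simp [h]

theorem count_rest {E : Type*} [Fintype E] [DecidableEq E] {τ : ℕ} (S : Finset (Fin τ))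
    (A : (Fin τ → E) → Finset E) (hA : ∀ g g' : Fin τ → E, (∀ t ∈ S, g t = g' t) → A g = A g')
    (N : ℕ) (hN : ∀ g, (A g).card ≤ N) :
    (univ.filter fun g : Fin τ → E => ∀ t, t ∉ S → g t ∈ A g).card ≤
      N ^ (τ - S.card) * (Fintype.card E) ^ S.card := by
  classical
  set F : (Fin τ → E) → (S → E) := fun g t => g t
  have h1 := card_le_mul_card_image (f := F)
    (univ.filter fun g : Fin τ → E => ∀ t, t ∉ S → g t ∈ A g) (N ^ (τ - S.card)) ?_
  · refine h1.trans (Nat.mul_le_mul_left _ ?_)
    refine (card_le_univ _).trans ?_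
    rw [Fintype.card_fun, Fintype.card_coe]
  · intro b hb
    obtain ⟨g0, hg0, rfl⟩ := mem_image.mp hb
    have hsub : ((univ.filter fun g : Fin τ → E => ∀ t, t ∉ S → g t ∈ A g).filter
        fun g => F g = F g0) ⊆ Fintype.piFinset fun t => if t ∈ S then {g0 t} else A g0 := by
      intro g hg
      simp only [mem_filter, mem_univ, true_and] at hg
      obtain ⟨h2, h3⟩ := hg
      have h4 : ∀ t ∈ S, g t = g0 t := fun t ht => congrFun h3 ⟨t, ht⟩
      rw [Fintype.mem_piFinset]
      intro t
      by_cases ht : t ∈ S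
      · simp only [ht, if_true, mem_singleton]; exact h4 t ht
      · simp only [ht, if_false]; rw [← hA g g0 h4]; exact h2 t ht
    refine (card_le_card hsub).trans ?_
    rw [Fintype.card_piFinset]
    calc ∏ t, (if t ∈ S then ({g0 t} : Finset E) else A g0).card
        ≤ ∏ t, (if t ∈ S then 1 else N) := by
          refine prod_le_prod' fun t _ => ?_
          by_cases ht : t ∈ S
          · simp [ht]
          · simp only [ht, if_false]; exact hN g0
      _ = N ^ (τ - S.card) := by
          rw [prod_ite, prod_const_one, one_mul, prod_const]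
          congr 1
          have : (univ.filter fun t => t ∉ S) = Sᶜ := by ext t; simp
          rw [this, card_compl, Fintype.card_fin]

theorem pr_rest {E : Type*} [Fintype E] [DecidableEq E] [Nonempty E] {τ : ℕ} (S : Finset (Fin τ))
    (A : (Fin τ → E) → Finset E) (hA : ∀ g g' : Fin τ → E, (∀ t ∈ S, g t = g' t) → A g = A g')
    (q : ℝ) (hq : 0 ≤ q) (hN : ∀ g, ((A g).card : ℝ) ≤ q * Fintype.card E) :
    pr (fun g : Fin τ → E => ∀ t, t ∉ S → g t ∈ A g) ≤ q ^ (τ - S.card) := by
  classical
  have hE : (0 : ℝ) < Fintype.card E := by exact_mod_cast Fintype.card_pos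
  rw [pr_eq, Fintype.card_fun, Fintype.card_fin, div_le_iff₀ (by positivity)]
  have h0 : 0 ≤ q * Fintype.card E := by positivity
  have h1 := count_rest S A hA (⌊q * Fintype.card E⌋₊) (fun g => Nat.le_floor (hN g))
  have hS : S.card ≤ τ := by simpa using card_le_univ S
  calc ((univ.filter fun g : Fin τ → E => ∀ t, t ∉ S → g t ∈ A g).card : ℝ)
      ≤ ((⌊q * Fintype.card E⌋₊ ^ (τ - S.card) * (Fintype.card E) ^ S.card : ℕ) : ℝ) := by
        exact_mod_cast h1
    _ = (⌊q * Fintype.card E⌋₊ : ℝ) ^ (τ - S.card) * (Fintype.card E : ℝ) ^ S.card := by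
        push_cast; ring
    _ ≤ (q * Fintype.card E) ^ (τ - S.card) * (Fintype.card E : ℝ) ^ S.card := by
        refine mul_le_mul_of_nonneg_right ?_ (by positivity)
        exact pow_le_pow_left₀ (Nat.cast_nonneg _) (Nat.floor_le h0) _
    _ = q ^ (τ - S.card) * (((Fintype.card E) ^ τ : ℕ) : ℝ) := by
        rw [mul_pow, mul_assoc, ← pow_add, Nat.sub_add_cancel hS]
        push_cast; ring

/-! ## The picking lemma -/

variable {V : Type}

/-- endpoint of an edge -/
def ep {τ : ℕ} (g : Fin τ → V × V) (p : Fin τ × Bool) : V :=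
  if p.2 then (g p.1).2 else (g p.1).1

/-- failure event of a list of positions -/
def Fail {τ : ℕ} (R : List V → Set V) (P : List (Fin τ × Bool))
    (g : Fin τ → V × V) : Prop :=
  Legal R (P.map (ep g)) ∧ ∀ t, t ∉ P.map Prod.fst →
    ¬ ((g t).1 ≠ (g t).2 ∧ (g t).1 ∈ R (P.map (ep g)) ∧ (g t).2 ∈ R (P.map (ep g)))

theorem exists_legal {τ m : ℕ} (R : List V → Set V) (g : Fin τ → V × V)
    (h : ∀ P : List (Fin τ × Bool), P.length ≤ m → ¬ Fail R P g) (N : Set V)
    (hN : Tr N g) :
    ∃ r : List V, Legal R r ∧ r.length = m + 1 ∧ ∀ v ∈ r, v ∈ N := by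
  have key : ∀ i, i ≤ m + 1 → ∃ P : List (Fin τ × Bool), P.length = i ∧
      Legal R (P.map (ep g)) ∧ ∀ v ∈ P.map (ep g), v ∈ N := by
    intro i
    induction i with
    | zero => intro _; exact ⟨[], rfl, Legal.nil, by simp⟩
    | succ i ih =>
      intro hi
      obtain ⟨P, hP, hL, hv⟩ := ih (by omega)
      have hF := h P (by omega)
      unfold Fail at hF
      push Not at hF
      obtain ⟨t, ht, hne, h1, h2⟩ := hF hL
      rcases hN t hne with h3 | h3
      · refine ⟨(t, false) :: P, by simp [hP], ?_, ?_⟩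
        · simp only [List.map_cons]
          exact Legal.cons hL (by simpa [ep] using h1)
        · intro v hv'
          simp only [List.map_cons, List.mem_cons] at hv'
          rcases hv' with rfl | hv'
          · simpa [ep] using h3
          · exact hv v hv'
      · refine ⟨(t, true) :: P, by simp [hP], ?_, ?_⟩
        · simp only [List.map_cons]
          exact Legal.cons hL (by simpa [ep] using h2)
        · intro v hv'
          simp only [List.map_cons, List.mem_cons] at hv'
          rcases hv' with rfl | hv'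
          · simpa [ep] using h3
          · exact hv v hv'
  obtain ⟨P, hP, hL, hv⟩ := key (m + 1) le_rfl
  exact ⟨P.map (ep g), hL, by simpa using hP, hv⟩

/-- failure probability for one list of positions -/
theorem pr_Fail [Fintype V] [Nonempty V] {τ : ℕ} (R : List V → Set V) (ρ : ℝ) (hρ0 : 0 ≤ ρ)
    (hρn : 2 ≤ ρ * nn V) (P : List (Fin τ × Bool))
    (hR : ∀ r : List V, r.length = P.length → Legal R r → ρ * nn V ≤ (R r).ncard)
    (hρ1 : ρ ≤ 1) :
    pr (fun g : Fin τ → V × V => Fail R P g) ≤
      (1 - ρ ^ 2 / 2) ^ (τ - (P.map Prod.fst).toFinset.card) := by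
  classical
  have hn' : (0 : ℝ) < nn V := by unfold nn; exact_mod_cast Fintype.card_pos
  set S := (P.map Prod.fst).toFinset with hS
  set A : (Fin τ → V × V) → Finset (V × V) := fun g =>
    if Legal R (P.map (ep g)) then
      univ.filter fun e => ¬ (e.1 ≠ e.2 ∧ e.1 ∈ R (P.map (ep g)) ∧ e.2 ∈ R (P.map (ep g)))
    else ∅ with hAdef
  have hdep : ∀ g g' : Fin τ → V × V, (∀ t ∈ S, g t = g' t) →
      P.map (ep g) = P.map (ep g') := by
    intro g g' h
    refine List.map_congr_left fun p hp => ?_
    have : g p.1 = g' p.1 := h p.1 (by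
      rw [hS, List.mem_toFinset]; exact List.mem_map_of_mem hp)
    simp only [ep, this]
  refine (pr_mono (q := fun g => ∀ t, t ∉ S → g t ∈ A g) ?_).trans
    (pr_rest S A ?_ (1 - ρ ^ 2 / 2) (by nlinarith) ?_)
  · rintro g ⟨hL, h⟩ t ht
    simp only [hAdef, hL, if_true, mem_filter, mem_univ, true_and]
    exact h t (by rw [hS, List.mem_toFinset] at ht; exact ht)
  · intro g g' h
    simp only [hAdef, hdep g g' h]
  · intro g
    rw [Fintype.card_prod]
    push_cast
    by_cases hL : Legal R (P.map (ep g))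
    · simp only [hAdef, hL, if_true]
      set T : Finset V := univ.filter (fun v => v ∈ R (P.map (ep g))) with hT
      have hTn : (R (P.map (ep g))).ncard = T.card := by
        rw [Set.ncard_eq_toFinset_card']
        congr 1
        ext v; simp [hT]
      have hmem : ∀ v, v ∈ R (P.map (ep g)) ↔ v ∈ T := by intro v; simp [hT]
      have hTc : ρ * nn V ≤ T.card := by
        rw [← hTn]; exact hR _ (by simp) hL
      have hnn : nn V = (Fintype.card V : ℝ) := rfl
      rw [hnn] at hTc hn' hρn
      simp only [hmem]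
      have hsub : (T.offDiag) ⊆ univ.filter fun e : V × V =>
          (e.1 ≠ e.2 ∧ e.1 ∈ T ∧ e.2 ∈ T) := by
        intro e he
        rw [mem_offDiag] at he
        simp only [mem_filter, mem_univ, true_and]
        exact ⟨he.2.2, he.1, he.2.1⟩
      have h1 := card_le_card hsub
      rw [offDiag_card] at h1
      have h2 := card_filter_add_card_filter_not (s := (univ : Finset (V × V)))
        (fun e : V × V => (e.1 ≠ e.2 ∧ e.1 ∈ T ∧ e.2 ∈ T))
      rw [card_univ, Fintype.card_prod] at h2
      have h3 : T.card ≤ T.card * T.card := Nat.le_mul_self _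
      have h4 : ((T.card * T.card - T.card : ℕ) : ℝ) = (T.card : ℝ) * T.card - T.card := by
        push_cast [h3]; ring
      have h5 : (T.card : ℝ) * T.card - T.card ≤ ((univ.filter fun e : V × V =>
          (e.1 ≠ e.2 ∧ e.1 ∈ T ∧ e.2 ∈ T)).card : ℝ) := by
        rw [← h4]; exact_mod_cast h1
      have h6 : ((univ.filter fun e : V × V =>
          (e.1 ≠ e.2 ∧ e.1 ∈ T ∧ e.2 ∈ T)).card : ℝ) + ((univ.filter fun e : V × V =>
          ¬ (e.1 ≠ e.2 ∧ e.1 ∈ T ∧ e.2 ∈ T)).card : ℝ) =
            (Fintype.card V : ℝ) * (Fintype.card V : ℝ) := by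
        exact_mod_cast h2
      nlinarith
    · simp only [hAdef, hL, if_false, card_empty, Nat.cast_zero]
      have : 0 ≤ 1 - ρ ^ 2 / 2 := by nlinarith
      positivity

end Pick

open Pick in
/-- PICKING LEMMA. -/
theorem pick : StmtPick := by
  intro V _ _ R m τ ρ hm hρ0' hρn hR'
  classical
  have hρ0 : 0 ≤ ρ := hρ0'.le
  have hR : ∀ r : List V, r.length ≤ m → Legal R r → ρ * nn V ≤ (R r).ncard :=
    fun r h1 h2 => hR' r h2 h1
  have hn' : (0 : ℝ) < nn V := by unfold nn; exact_mod_cast Fintype.card_pos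
  have hρ1 : ρ ≤ 1 := by
    have h1 : ρ * nn V ≤ (R []).ncard := hR [] (by simp) Legal.nil
    have h2 : ((R []).ncard : ℝ) ≤ nn V := by
      have h3 : (R []).ncard ≤ Fintype.card V := by
        rw [← Nat.card_eq_fintype_card, ← Set.ncard_univ]
        exact Set.ncard_le_ncard (Set.subset_univ _)
      unfold nn
      exact_mod_cast h3
    by_contra h
    push Not at h
    nlinarith
  have hq0 : 0 ≤ 1 - ρ ^ 2 / 2 := by nlinarith
  have hq1 : 1 - ρ ^ 2 / 2 ≤ 1 := by nlinarith
  -- union bound
  have h1 : pr (fun g : Fin τ → V × V => ∃ N : Set V, Tr N g ∧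
      ¬ ∃ r : List V, Legal R r ∧ r.length = m + 1 ∧ ∀ v ∈ r, v ∈ N) ≤
      pr (fun g : Fin τ → V × V => ∃ i ∈ range (m + 1),
        ∃ q ∈ (univ : Finset (Fin i → Fin τ × Bool)), Fail R (List.ofFn q) g) := by
    refine pr_mono fun g => ?_
    rintro ⟨N, hN, hno⟩
    by_contra hc
    push Not at hc
    refine hno (exists_legal R g (fun P hP hF => ?_) N hN)
    refine hc P.length (mem_range.mpr (by omega)) P.get (mem_univ _) ?_
    rw [List.ofFn_get]
    exact hF
  have hstep : ∀ i ∈ range (m + 1), ∀ q : Fin i → Fin τ × Bool,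
      pr (fun g : Fin τ → V × V => Fail R (List.ofFn q) g) ≤
        Real.exp (-((τ : ℝ) - m) * ρ ^ 2 / 2) := by
    intro i hi q
    have him : i ≤ m := by have := mem_range.mp hi; omega
    have h2 := pr_Fail (τ := τ) R ρ hρ0 hρn (List.ofFn q)
      (fun r hr hL => hR r (by rw [hr, List.length_ofFn]; exact him) hL) hρ1
    refine h2.trans ?_
    have h3 : ((List.ofFn q).map Prod.fst).toFinset.card ≤ i := by
      refine (List.toFinset_card_le _).trans ?_
      simp
    have h4 : τ - m ≤ τ - ((List.ofFn q).map Prod.fst).toFinset.card := by omega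
    refine (pow_le_pow_of_le_one hq0 hq1 h4).trans ?_
    have h5 : 1 - ρ ^ 2 / 2 ≤ Real.exp (-(ρ ^ 2 / 2)) := by
      have := Real.add_one_le_exp (-(ρ ^ 2 / 2)); linarith
    refine (pow_le_pow_left₀ hq0 h5 _).trans ?_
    rw [← Real.exp_nat_mul, Nat.cast_sub hm]
    apply le_of_eq
    congr 1
    ring
  have hE0 : 0 ≤ Real.exp (-((τ : ℝ) - m) * ρ ^ 2 / 2) := (Real.exp_pos _).le
  calc _ ≤ _ := h1
    _ ≤ ∑ i ∈ range (m + 1), pr (fun g : Fin τ → V × V =>
        ∃ q ∈ (univ : Finset (Fin i → Fin τ × Bool)), Fail R (List.ofFn q) g) :=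
        pr_exists_le _ _
    _ ≤ ∑ i ∈ range (m + 1), ∑ q : Fin i → Fin τ × Bool,
        pr (fun g : Fin τ → V × V => Fail R (List.ofFn q) g) :=
        sum_le_sum fun i _ => pr_exists_le _ _
    _ ≤ ∑ i ∈ range (m + 1), ∑ q : Fin i → Fin τ × Bool,
        Real.exp (-((τ : ℝ) - m) * ρ ^ 2 / 2) :=
        sum_le_sum fun i hi => sum_le_sum fun q _ => hstep i hi q
    _ = ∑ i ∈ range (m + 1), (2 * (τ : ℝ)) ^ i * Real.exp (-((τ : ℝ) - m) * ρ ^ 2 / 2) := by
        refine sum_congr rfl fun i _ => ?_
        rw [sum_const, card_univ, Fintype.card_fun, Fintype.card_prod, Fintype.card_fin,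
          Fintype.card_bool, Fintype.card_fin, nsmul_eq_mul]
        push_cast
        rw [mul_comm (τ : ℝ) 2]
    _ ≤ ∑ i ∈ range (m + 1), (2 * (τ : ℝ)) ^ m * Real.exp (-((τ : ℝ) - m) * ρ ^ 2 / 2) := by
        refine sum_le_sum fun i hi => ?_
        have him : i ≤ m := by have := mem_range.mp hi; omega
        refine mul_le_mul_of_nonneg_right ?_ hE0
        rcases Nat.eq_zero_or_pos τ with h0 | h0
        · have : m = 0 := by omega
          have hi0 : i = 0 := by omega
          rw [this, hi0]
        · refine pow_le_pow_right₀ ?_ him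
          have : (1 : ℝ) ≤ τ := by exact_mod_cast h0
          linarith
    _ = (m + 1) * (2 * τ) ^ m * Real.exp (-((τ : ℝ) - m) * ρ ^ 2 / 2) := by
        rw [sum_const, card_range, nsmul_eq_mul]
        push_cast
        ring

end Pool.ER
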