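import Pool.Agent.Work.MP_3e81b4_47.Interface

set_option autoImplicit false

/-! Block SHARP: the analytic assembly, `pc` has a sharp threshold. -/

namespace Pool.ER

namespace SharpH41

open Set Filter Topology

variable {V : Type} {k : ℕ}

theorem valid_none (A : Set (V × V)) : valid (fun _ => none : PC V k) A :=
  fun _ _ => Or.inr (Or.inl rfl)

theorem exists_opt (k : ℕ) (A : Set (V × V)) : ∃ σ : PC V k, valid σ A ∧ cost σ = Y k A := by
  have h : ({c : ℕ | ∃ σ : PC V k, valid σ A ∧ cost σ = c}).Nonempty :=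
    ⟨_, _, valid_none A, rfl⟩
  exact Nat.sInf_mem h

theorem Y_le {A : Set (V × V)} {σ : PC V k} (h : valid σ A) : Y k A ≤ cost σ :=
  Nat.sInf_le ⟨σ, h, rfl⟩

theorem Y_mono {A B : Set (V × V)} (h : A ⊆ B) : Y k A ≤ Y k B := by
  obtain ⟨σ, h1, h2⟩ := exists_opt k B
  rw [← h2]
  exact Y_le fun e he => h1 e (h he)

theorem cost_eq (σ : PC V k) : cost σ = ({v | σ v = none} : Set V).ncard := by
  unfold cost; rw [← Nat.card_coe_set_eq]; rfl

theorem Y_le_card [Fintype V] (A : Set (V × V)) : Y k A ≤ Fintype.card V := by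
  refine (Y_le (valid_none A)).trans ?_
  unfold cost
  rw [← Nat.card_eq_fintype_card]
  exact Nat.card_le_card_of_injective Subtype.val Subtype.val_injective

theorem Y_insert [Fintype V] (A : Set (V × V)) (e : V × V) : Y k (insert e A) ≤ Y k A + 1 := by
  classical
  obtain ⟨σ, h1, h2⟩ := exists_opt k A
  let σ' : PC V k := Function.update σ e.1 none
  have hs : ∀ v, v ≠ e.1 → σ' v = σ v := fun v hv => by simp [σ', hv]
  have hs1 : σ' e.1 = none := by simp [σ']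
  have hv : valid σ' (insert e A) := by
    rintro e' he'
    rcases he' with rfl | he'
    · exact Or.inr (Or.inl hs1)
    · by_cases hx : e'.1 = e.1
      · right; left; rw [hx]; exact hs1
      · rcases h1 e' he' with h | h | h
        · exact Or.inl h
        · right; left; rw [hs _ hx]; exact h
        · by_cases hy : e'.2 = e.1
          · by_cases hn : σ e'.1 = none
            · right; left; rw [hs _ hx]; exact hn
            · right; right; rw [hs _ hx, hy, hs1]; exact hn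
          · right; right; rw [hs _ hx, hs _ hy]; exact h
  refine (Y_le hv).trans ?_
  rw [← h2, cost_eq, cost_eq]
  refine (Set.ncard_le_ncard (t := insert e.1 {v | σ v = none}) ?_ (Set.toFinite _)).trans
    (Set.ncard_insert_le _ _)
  intro v hv
  by_cases hx : v = e.1
  · exact Or.inl hx
  · right
    have : σ' v = none := hv
    rw [hs _ hx] at this
    exact this

theorem Y_empty (hk : 1 ≤ k) : Y k (∅ : Set (V × V)) = 0 := by
  have h : valid (fun _ => some ⟨0, hk⟩ : PC V k) (∅ : Set (V × V)) := fun e he => he.elim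
  have h1 := Y_le h
  have h2 : cost (fun _ => some ⟨0, hk⟩ : PC V k) = 0 := by
    rw [cost_eq]; simp
  omega

theorem yy_nonneg (k : ℕ) (V : Type) [Fintype V] (M : ℕ) : 0 ≤ yy k V M :=
  avg_nonneg fun _ => Nat.cast_nonneg _

theorem yy_le_succ (k : ℕ) (V : Type) [Fintype V] [Nonempty V] (M : ℕ) :
    yy k V M ≤ yy k V (M + 1) := by
  unfold yy
  rw [← avg_marginal (ι := Fin (M + 1)) (κ := Fin M) (E := V × V) Fin.castSucc
    (Fin.castSucc_injective M) (fun x => (Y k (range x) : ℝ))]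
  refine avg_mono fun g => ?_
  have h : Y k (range (g ∘ Fin.castSucc)) ≤ Y k (range g) :=
    Y_mono (range_comp_subset_range _ _)
  exact_mod_cast h

theorem yy_mono (k : ℕ) (V : Type) [Fintype V] [Nonempty V] : Monotone (yy k V) :=
  monotone_nat_of_le_succ fun M => yy_le_succ k V M

theorem yy_succ_le (k : ℕ) (V : Type) [Fintype V] [Nonempty V] (M : ℕ) :
    yy k V (M + 1) ≤ yy k V M + 1 := by
  have h1 : yy k V M + 1 = avg fun g : Fin (M + 1) → V × V =>
      ((Y k (range (g ∘ Fin.castSucc)) : ℝ) + 1) := by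
    rw [avg_add, avg_const]
    unfold yy
    rw [← avg_marginal (ι := Fin (M + 1)) (κ := Fin M) (E := V × V) Fin.castSucc
      (Fin.castSucc_injective M) (fun x => (Y k (range x) : ℝ))]
  rw [h1]
  unfold yy
  refine avg_mono fun g => ?_
  have h2 : range g ⊆ insert (g (Fin.last M)) (range (g ∘ Fin.castSucc)) := by
    rintro _ ⟨i, rfl⟩
    refine Fin.lastCases ?_ (fun j => ?_) i
    · exact Or.inl rfl
    · exact Or.inr ⟨j, rfl⟩
  have h3 := (Y_mono (k := k) h2).trans (Y_insert _ _)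
  exact_mod_cast h3

theorem yy_le_n (k : ℕ) (V : Type) [Fintype V] (M : ℕ) : yy k V M ≤ Fintype.card V :=
  avg_le_of_le (Nat.cast_nonneg _) fun _ => by exact_mod_cast Y_le_card _

theorem yy_zero (hk : 1 ≤ k) (V : Type) [Fintype V] : yy k V 0 = 0 := by
  unfold yy
  have : (fun x : Fin 0 → V × V => (Y k (range x) : ℝ)) = fun _ => 0 := by
    funext x
    rw [Set.range_eq_empty, Y_empty hk]; simp
  rw [this, avg_const]

/-- `1 - pc ≤ yy` -/
theorem one_sub_pc_le {n : ℕ} (hn : 1 ≤ n) (k M : ℕ) : 1 - pc k n M ≤ yy k (Fin n) M := by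
  have : Nonempty (Fin n) := ⟨⟨0, hn⟩⟩
  unfold pc yy
  rw [← pr_not]
  refine pr_le_avg (fun _ => Nat.cast_nonneg _) fun x hx => ?_
  have : 1 ≤ Y k (range x) := Nat.one_le_iff_ne_zero.2 hx
  exact_mod_cast this

/-- Chebyshev -/
theorem pc_mul_sq_le (hES : StmtES) {n : ℕ} (hn : 1 ≤ n) (k M : ℕ) (hM : 1 ≤ M) :
    pc k n M * yy k (Fin n) M ^ 2 ≤ M := by
  have : Nonempty (Fin n) := ⟨⟨0, hn⟩⟩
  obtain ⟨M, rfl⟩ : ∃ M', M = M' + 1 := ⟨M - 1, by omega⟩
  have h1 := hES k (Fin n) M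
  have h2 := yy_succ_le k (Fin n) M
  set y := yy k (Fin n) (M + 1) with hy
  have h3 : (avg fun x : Fin (M + 1) → Fin n × Fin n => ((Y k (range x) : ℝ) - y) ^ 2) =
      (avg fun x : Fin (M + 1) → Fin n × Fin n => (Y k (range x) : ℝ) ^ 2) - y ^ 2 := by
    have e : (fun x : Fin (M + 1) → Fin n × Fin n => ((Y k (range x) : ℝ) - y) ^ 2) =
        fun x => ((Y k (range x) : ℝ) ^ 2 - (2 * y) * (Y k (range x) : ℝ)) + y ^ 2 := by
      funext x; ring
    rw [e, avg_add, avg_sub, avg_mul_left, avg_const]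
    have : (avg fun x : Fin (M + 1) → Fin n × Fin n => (Y k (range x) : ℝ)) = y := rfl
    rw [this]; ring
  have h4 : pc k n (M + 1) * y ^ 2 ≤
      avg fun x : Fin (M + 1) → Fin n × Fin n => ((Y k (range x) : ℝ) - y) ^ 2 := by
    unfold pc pr
    rw [← avg_mul_right]
    refine avg_mono fun x => ?_
    by_cases hx : Y k (range x) = 0
    · rw [ind_true hx, hx]; simp
    · rw [ind_false hx, zero_mul]; positivity
  have h5 : ((M : ℝ) + 1) * (y - yy k (Fin n) M) ≤ ((M : ℝ) + 1) * 1 :=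
    mul_le_mul_of_nonneg_left (by linarith) (by positivity)
  push_cast
  linarith

/-- growth hypothesis for the true sequence -/
theorem growthHyp {c C : ℝ} {n : ℕ} (hn : 1 ≤ n)
    (hI : ∀ (V : Type) [Fintype V] [Nonempty V] (M T : ℕ),
      (M : ℝ) + 1 ≤ c * nn V → 1 ≤ T → T ≤ Fintype.card V →
      yy k V (M + 1) ≤
        Real.sqrt (((M + 1) * (yy k V (M + 1) - yy k V M) + yy k V (M + 1) ^ 2) *
          (yy k V (M + 1 + T) - yy k V (M + 1))) + C * nn V * (T : ℝ) ^ (-(51 / 50) : ℝ)) :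
    GrowthHyp c C n (yy k (Fin n)) := by
  have : Nonempty (Fin n) := ⟨⟨0, hn⟩⟩
  refine ⟨yy_mono k _, yy_nonneg k _, fun M => ?_, yy_succ_le k _, fun M T h1 h2 h3 => ?_⟩
  · have := yy_le_n k (Fin n) M
    rwa [Fintype.card_fin] at this
  · have e : nn (Fin n) = n := by unfold nn; rw [Fintype.card_fin]
    have := hI (Fin n) M T (by rw [e]; exact h1) h2 (by rw [Fintype.card_fin]; exact h3)
    rwa [e] at this

/-- the set of subcritical densities -/
def Z (k : ℕ) : Set ℝ :=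
  {c | 0 ≤ c ∧ Tendsto (fun n : ℕ => yy k (Fin n) ⌊c * n⌋₊ / n) atTop (𝓝 0)}

theorem zero_mem_Z (hk : 1 ≤ k) : (0 : ℝ) ∈ Z k := by
  refine ⟨le_refl _, ?_⟩
  have : (fun n : ℕ => yy k (Fin n) ⌊(0 : ℝ) * n⌋₊ / n) = fun _ => 0 := by
    funext n
    rw [zero_mul, Nat.floor_zero, yy_zero hk, zero_div]
  rw [this]
  exact tendsto_const_nhds

theorem bddAbove_Z (hL : StmtLarge) (hk : 1 ≤ k) : BddAbove (Z k) := by
  obtain ⟨c, ε, hc, hε, n0, h⟩ := hL k hk
  refine ⟨c, ?_⟩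
  rintro b ⟨-, hb⟩
  by_contra hcb
  push Not at hcb
  have h1 : ∀ᶠ n : ℕ in atTop, yy k (Fin n) ⌊b * n⌋₊ / n < ε := hb.eventually (gt_mem_nhds hε)
  obtain ⟨n, hn1, hn2, hn3⟩ := (h1.and ((eventually_ge_atTop n0).and
    (eventually_ge_atTop 1))).exists
  have : Nonempty (Fin n) := ⟨⟨0, hn3⟩⟩
  have hn0 : (0 : ℝ) < n := by exact_mod_cast hn3
  have h2 := h n hn2
  have h3 : yy k (Fin n) ⌊c * n⌋₊ ≤ yy k (Fin n) ⌊b * n⌋₊ :=
    yy_mono k _ (Nat.floor_le_floor (mul_le_mul_of_nonneg_right hcb.le hn0.le))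
  rw [div_lt_iff₀ hn0] at hn1
  linarith

/-- the subcritical side -/
theorem sub (hI : StmtIneq) (hG : StmtGrowth) (hk : 3 ≤ k) {b c' : ℝ} (hb : 0 ≤ b)
    (hbc : b < c') (hc' : c' ∈ Z k) :
    Tendsto (fun n : ℕ => pc k n ⌊b * n⌋₊) atTop (𝓝 1) := by
  obtain ⟨C, hC, hIn⟩ := hI k hk (c' + 1)
  rw [Metric.tendsto_atTop]
  intro δ hδ
  set w : ℝ := (c' - b) / 2 with hw
  have hw0 : 0 < w := by rw [hw]; linarith
  obtain ⟨ε, hε, n0, hgr⟩ := hG (c' + 1) C (by linarith) hC w hw0 δ hδ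
  have h1 : ∀ᶠ n : ℕ in atTop, yy k (Fin n) ⌊c' * n⌋₊ / n < ε :=
    hc'.2.eventually (gt_mem_nhds hε)
  have h2 : ∀ᶠ n : ℕ in atTop, 1 / w ≤ (n : ℝ) :=
    tendsto_natCast_atTop_atTop.eventually (eventually_ge_atTop (1 / w))
  obtain ⟨N, hN⟩ := eventually_atTop.1
    (h1.and (h2.and ((eventually_ge_atTop n0).and (eventually_ge_atTop 1))))
  refine ⟨N, fun n hn => ?_⟩
  obtain ⟨ha, hb', hc, hd⟩ := hN n hn
  have : Nonempty (Fin n) := ⟨⟨0, hd⟩⟩
  have hn0 : (0 : ℝ) < n := by exact_mod_cast hd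
  have hpc : pc k n ⌊b * n⌋₊ ≤ 1 := pr_le_one _
  rw [Real.dist_eq, abs_sub_comm, abs_of_nonneg (by linarith)]
  refine lt_of_le_of_lt (one_sub_pc_le hd k _) ?_
  by_contra hcon
  push Not at hcon
  have hwn : 1 ≤ w * n := by
    rw [div_le_iff₀ hw0] at hb'
    linarith
  have hf1 : ((⌊b * n⌋₊ : ℕ) : ℝ) ≤ b * n := Nat.floor_le (by positivity)
  have hf2 : c' * n - 1 < ((⌊c' * n⌋₊ : ℕ) : ℝ) := by
    have := Nat.lt_floor_add_one (c' * n)
    linarith
  have e1 : w * n = (c' * n - b * n) / 2 := by rw [hw]; ring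
  have h3 := hgr n hc (yy k (Fin n)) (growthHyp hd hIn) ⌊b * n⌋₊ (by
      have : (c' + 1) * n = c' * n + n := by ring
      linarith) hcon ⌊c' * n⌋₊ (by linarith)
  rw [div_lt_iff₀ hn0] at ha
  linarith

/-- the supercritical side -/
theorem sup (hES : StmtES) (hInt : StmtInterp) {b : ℝ} (hb : 0 < b)
    (hbZ : ¬ Tendsto (fun n : ℕ => yy k (Fin n) ⌊b * n⌋₊ / n) atTop (𝓝 0)) :
    Tendsto (fun n : ℕ => pc k n ⌊b * n⌋₊) atTop (𝓝 0) := by
  -- a positive value is attained infinitely often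
  obtain ⟨e, he, hfreq⟩ : ∃ e : ℝ, 0 < e ∧ ∀ N : ℕ, ∃ n ≥ N, e ≤ yy k (Fin n) ⌊b * n⌋₊ / n := by
    rw [Metric.tendsto_atTop] at hbZ
    push Not at hbZ
    obtain ⟨e, he, h⟩ := hbZ
    refine ⟨e, he, fun N => ?_⟩
    obtain ⟨n, hn, hd⟩ := h N
    refine ⟨n, hn, ?_⟩
    rwa [Real.dist_eq, sub_zero, abs_of_nonneg
      (div_nonneg (yy_nonneg _ _ _) (Nat.cast_nonneg _))] at hd
  obtain ⟨C, hC⟩ := hInt k b hb.le
  -- then it is bounded below for all large `n`
  have hlow : ∀ᶠ n : ℕ in atTop, e / 2 ≤ yy k (Fin n) ⌊b * n⌋₊ / n := by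
    have h1 : Tendsto (fun n : ℕ => C / Real.sqrt n) atTop (𝓝 0) := by
      refine Tendsto.const_div_atTop ?_ C
      exact Real.tendsto_sqrt_atTop.comp tendsto_natCast_atTop_atTop
    have h2 : ∀ᶠ n : ℕ in atTop, C / Real.sqrt n < e / 4 :=
      h1.eventually (gt_mem_nhds (by linarith))
    filter_upwards [h2, eventually_ge_atTop 1] with n hn1 hn2
    have h3 : Tendsto (fun N : ℕ => C * n / (N : ℝ)) atTop (𝓝 0) :=
      tendsto_natCast_atTop_atTop.const_div_atTop (C * n)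
    obtain ⟨N0, hN0⟩ := eventually_atTop.1 (h3.eventually (gt_mem_nhds (by linarith : 0 < e / 4)))
    obtain ⟨N, hN, hNe⟩ := hfreq (max N0 n)
    have h4 := hN0 N ((le_max_left _ _).trans hN)
    have h5 := hC n hn2 N ((le_max_right _ _).trans hN)
    linarith
  -- Chebyshev
  have hbound : ∀ᶠ n : ℕ in atTop, pc k n ⌊b * n⌋₊ ≤ (4 * b / e ^ 2) / n := by
    have h2 : ∀ᶠ n : ℕ in atTop, 1 / b ≤ (n : ℝ) :=
      tendsto_natCast_atTop_atTop.eventually (eventually_ge_atTop (1 / b))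
    filter_upwards [hlow, h2, eventually_ge_atTop 1] with n h1 h2 h3
    have hn0 : (0 : ℝ) < n := by exact_mod_cast h3
    rw [div_le_iff₀ hb] at h2
    have hM : 1 ≤ ⌊b * n⌋₊ := Nat.le_floor (by push_cast; linarith)
    have h4 := pc_mul_sq_le hES h3 k ⌊b * n⌋₊ hM
    have hf1 : ((⌊b * n⌋₊ : ℕ) : ℝ) ≤ b * n := Nat.floor_le (by positivity)
    rw [le_div_iff₀ hn0] at h1
    have h5 : (e / 2 * n) ^ 2 ≤ yy k (Fin n) ⌊b * n⌋₊ ^ 2 :=
      pow_le_pow_left₀ (by positivity) h1 2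
    have h6 : pc k n ⌊b * n⌋₊ * (e / 2 * n) ^ 2 ≤ pc k n ⌊b * n⌋₊ * yy k (Fin n) ⌊b * n⌋₊ ^ 2 :=
      mul_le_mul_of_nonneg_left h5 (pr_nonneg _)
    have h7 : pc k n ⌊b * n⌋₊ * (e / 2 * n) ^ 2 ≤ b * n := by linarith
    rw [div_div, le_div_iff₀ (by positivity)]
    have h8 : pc k n ⌊b * n⌋₊ * (e ^ 2 * n) * n ≤ 4 * b * n := by
      have e1 : pc k n ⌊b * n⌋₊ * (e ^ 2 * n) * n = 4 * (pc k n ⌊b * n⌋₊ * (e / 2 * n) ^ 2) := by
        ring
      rw [e1]; linarith
    exact le_of_mul_le_mul_right h8 hn0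
  refine tendsto_of_tendsto_of_tendsto_of_le_of_le' tendsto_const_nhds
    (tendsto_natCast_atTop_atTop.const_div_atTop (4 * b / e ^ 2))
    (Eventually.of_forall fun n => pr_nonneg _) hbound

end SharpH41

open SharpH41 in
theorem SHARP (hI : StmtIneq) (hES : StmtES) (hG : StmtGrowth) (hInt : StmtInterp)
    (hL : StmtLarge) : StmtSharpIid := by
  intro k hk
  have hbdd := bddAbove_Z hL (by omega : 1 ≤ k)
  have h0 := zero_mem_Z (by omega : 1 ≤ k)
  refine ⟨sSup (Z k), le_csSup hbdd h0, fun b hb hbc => ?_, fun b hbc => ?_⟩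
  · obtain ⟨c', hc', hbc'⟩ := exists_lt_of_lt_csSup ⟨0, h0⟩ hbc
    exact sub hI hG hk hb hbc' hc'
  · have hb0 : 0 < b := lt_of_le_of_lt (le_csSup hbdd h0) hbc
    refine sup hES hInt hb0 fun h => ?_
    exact absurd (le_csSup hbdd ⟨hb0.le, h⟩) (not_le.2 hbc)

end Pool.ER
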