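import Pool.Agent.Work.MP_3e81b4_47.Basic

set_option autoImplicit false

/-! Block SWAP (second seat, helper45): interpolation, one edge at a time. -/

namespace Pool.ER

open Set

namespace Swap45

variable {P W : Type} [Fintype P] [Fintype W] {k : ℕ}

/-- always coloured and always equal -/
def RR {V : Type} (F : Set (PC V k)) (u v : V) : Prop := ∀ σ ∈ F, σ u ≠ none ∧ σ u = σ v

theorem RR_symm {V : Type} {F : Set (PC V k)} {u v : V} (h : RR F u v) : RR F v u := fun σ hσ => by
  obtain ⟨h1, h2⟩ := h σ hσ
  exact ⟨h2 ▸ h1, h2.symm⟩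

theorem RR_trans {V : Type} {F : Set (PC V k)} {u v w : V} (h : RR F u v) (h' : RR F v w) :
    RR F u w := fun σ hσ => ⟨(h σ hσ).1, (h σ hσ).2.trans (h' σ hσ).2⟩

/-- the indicator of a class -/
noncomputable def gg {V : Type} (F : Set (PC V k)) (C : Set V) (u : V) : ℝ :=
  ind (RR F u u ∧ {v | RR F u v} = C)

theorem ind_RR {V : Type} [Fintype V] (F : Set (PC V k)) (u v : V) :
    ind (RR F u v) = ∑ C : Set V, gg F C u * gg F C v := by
  classical
  by_cases h : RR F u v
  · have hu : RR F u u := RR_trans h (RR_symm h)
    have hv : RR F v v := RR_trans (RR_symm h) h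
    have hs : {w | RR F v w} = {w | RR F u w} := by
      ext w
      exact ⟨fun h' => RR_trans h h', fun h' => RR_trans (RR_symm h) h'⟩
    rw [ind_true h, Finset.sum_eq_single {w | RR F u w}]
    · unfold gg
      rw [ind_true ⟨hu, rfl⟩, ind_true ⟨hv, hs⟩]; norm_num
    · intro C _ hC
      unfold gg
      rw [ind_false (fun h' => hC h'.2.symm)]; ring
    · intro h'; exact absurd (Finset.mem_univ _) h'
  · rw [ind_false h]
    symm
    apply Finset.sum_eq_zero
    intro C _
    unfold gg
    by_cases h1 : RR F u u ∧ {w | RR F u w} = C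
    · by_cases h2 : RR F v v ∧ {w | RR F v w} = C
      · exfalso
        apply h
        have : v ∈ {w | RR F u w} := by
          rw [h1.2, ← h2.2]; exact h2.1
        exact this
      · rw [ind_false h2]; ring
    · rw [ind_false h1]; ring

theorem sum_RR (F : Set (PC (P × W) k)) :
    ∑ u : P × W, ∑ v : P × W, ind (RR F u v) ≤
      (Fintype.card P : ℝ) * ∑ p : P, ∑ a : W, ∑ b : W, ind (RR F (p, a) (p, b)) := by
  classical
  have h1 : ∑ u : P × W, ∑ v : P × W, ind (RR F u v) =
      ∑ C : Set (P × W), (∑ p : P, ∑ a : W, gg F C (p, a)) ^ 2 := by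
    simp_rw [ind_RR]
    have : ∀ u : P × W, ∑ v : P × W, ∑ C : Set (P × W), gg F C u * gg F C v =
        ∑ C : Set (P × W), gg F C u * ∑ v : P × W, gg F C v := by
      intro u
      rw [Finset.sum_comm]
      exact Finset.sum_congr rfl fun C _ => by rw [Finset.mul_sum]
    simp_rw [this]
    rw [Finset.sum_comm]
    refine Finset.sum_congr rfl fun C _ => ?_
    rw [← Finset.sum_mul, Fintype.sum_prod_type, sq]
  have h2 : ∑ p : P, ∑ a : W, ∑ b : W, ind (RR F (p, a) (p, b)) =
      ∑ C : Set (P × W), ∑ p : P, (∑ a : W, gg F C (p, a)) ^ 2 := by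
    simp_rw [ind_RR]
    rw [Finset.sum_comm (s := (Finset.univ : Finset (Set (P × W))))]
    refine Finset.sum_congr rfl fun p _ => ?_
    have : ∀ a : W, ∑ b : W, ∑ C : Set (P × W), gg F C (p, a) * gg F C (p, b) =
        ∑ C : Set (P × W), gg F C (p, a) * ∑ b : W, gg F C (p, b) := by
      intro a
      rw [Finset.sum_comm]
      exact Finset.sum_congr rfl fun C _ => by rw [Finset.mul_sum]
    simp_rw [this]
    rw [Finset.sum_comm]
    refine Finset.sum_congr rfl fun C _ => ?_
    rw [← Finset.sum_mul, sq]
  rw [h1, h2, Finset.mul_sum]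
  refine Finset.sum_le_sum fun C _ => ?_
  have := sq_sum_le_card_mul_sum_sq (s := (Finset.univ : Finset P))
    (f := fun p => ∑ a : W, gg F C (p, a))
  simpa using this

theorem frozen_iff {V : Type} {F : Set (PC V k)} (hF : F.Nonempty) (u v : V) :
    (∀ σ ∈ F, ¬ ok σ (u, v)) ↔ u ≠ v ∧ RR F u v := by
  constructor
  · intro h
    refine ⟨?_, fun σ hσ => ?_⟩
    · rintro rfl
      obtain ⟨σ, hσ⟩ := hF
      exact h σ hσ (ok_loop σ u)
    · have := h σ hσ
      rw [ok_iff_not, not_not] at this
      exact ⟨this.2.1, this.2.2⟩
  · rintro ⟨h1, h2⟩ σ hσ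
    rw [ok_iff_not, not_not]
    exact ⟨h1, (h2 σ hσ).1, (h2 σ hσ).2⟩

/-- one step -/
theorem step [Nonempty P] [Nonempty W] (A : Set ((P × W) × (P × W))) :
    (avg fun e : (P × W) × (P × W) => (Y k (insert e A) : ℝ)) ≤
      (avg fun e : P × W × W => (Y k (insert (splitE e) A) : ℝ)) + 1 / nn W := by
  classical
  have hW : (0 : ℝ) < Fintype.card W := by exact_mod_cast Fintype.card_pos
  have hP : (0 : ℝ) < Fintype.card P := by exact_mod_cast Fintype.card_pos
  set F := S k A with hF
  have hne : F.Nonempty := S_nonempty k A
  simp_rw [Y_insert_eq_ind]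
  rw [avg_add, avg_add, avg_const, avg_const]
  have h1 : (avg fun e : (P × W) × (P × W) => ind (∀ σ ∈ F, ¬ ok σ e)) ≤
      (∑ p : P, ∑ a : W, ∑ b : W, ind (RR F (p, a) (p, b))) /
        (Fintype.card P * (Fintype.card W) ^ 2 : ℝ) := by
    unfold avg
    rw [Fintype.card_prod, Fintype.card_prod, div_le_div_iff₀ (by positivity) (by positivity)]
    have h2 : ∑ e : (P × W) × (P × W), ind (∀ σ ∈ F, ¬ ok σ e) ≤
        ∑ u : P × W, ∑ v : P × W, ind (RR F u v) := by
      rw [Fintype.sum_prod_type]
      refine Finset.sum_le_sum fun u _ => Finset.sum_le_sum fun v _ => ind_mono fun h => ?_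
      exact ((frozen_iff hne u v).1 h).2
    have h3 := h2.trans (sum_RR F)
    push_cast
    calc _ ≤ ((Fintype.card P : ℝ) * ∑ p : P, ∑ a : W, ∑ b : W, ind (RR F (p, a) (p, b))) *
          (Fintype.card P * Fintype.card W ^ 2) :=
          mul_le_mul_of_nonneg_right h3 (by positivity)
      _ = _ := by ring
  have h4 : (∑ p : P, ∑ a : W, ∑ b : W, ind (RR F (p, a) (p, b))) /
        (Fintype.card P * (Fintype.card W) ^ 2 : ℝ) ≤
      (avg fun e : P × W × W => ind (∀ σ ∈ F, ¬ ok σ (splitE e))) + 1 / nn W := by
    have h5 : ∑ p : P, ∑ a : W, ∑ b : W, ind (RR F (p, a) (p, b)) ≤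
        (∑ e : P × W × W, ind (∀ σ ∈ F, ¬ ok σ (splitE e))) +
          Fintype.card P * Fintype.card W := by
      have h6 : ∀ (p : P) (a b : W), ind (RR F (p, a) (p, b)) ≤
          ind (∀ σ ∈ F, ¬ ok σ (splitE (p, a, b))) + ind (a = b) := by
        intro p a b
        by_cases hab : a = b
        · rw [ind_true hab]
          have := ind_le_one (RR F (p, a) (p, b))
          have := ind_nonneg (∀ σ ∈ F, ¬ ok σ (splitE (p, a, b)))
          linarith
        · rw [ind_false hab, add_zero]
          apply ind_mono
          intro h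
          exact (frozen_iff hne (p, a) (p, b)).2 ⟨fun h' => hab (Prod.ext_iff.1 h').2, h⟩
      calc ∑ p : P, ∑ a : W, ∑ b : W, ind (RR F (p, a) (p, b))
          ≤ ∑ p : P, ∑ a : W, ∑ b : W,
              (ind (∀ σ ∈ F, ¬ ok σ (splitE (p, a, b))) + ind (a = b)) :=
            Finset.sum_le_sum fun p _ => Finset.sum_le_sum fun a _ =>
              Finset.sum_le_sum fun b _ => h6 p a b
        _ = _ := by
            simp_rw [Finset.sum_add_distrib]
            rw [Fintype.sum_prod_type]
            congr 1
            · refine Finset.sum_congr rfl fun p _ => ?_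
              rw [Fintype.sum_prod_type]
            · have h7 : ∀ a : W, ∑ b : W, ind (a = b) = 1 := by
                intro a
                rw [Finset.sum_eq_single a]
                · exact ind_true rfl
                · intro b _ hb; exact ind_false (fun h => hb h.symm)
                · intro h; exact absurd (Finset.mem_univ _) h
              simp [h7]
    unfold avg nn
    rw [Fintype.card_prod, Fintype.card_prod]
    push_cast
    have h8 : (1 : ℝ) / Fintype.card W = (Fintype.card P * Fintype.card W : ℝ) /
        (Fintype.card P * (Fintype.card W * Fintype.card W)) := by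
      field_simp
    rw [h8, ← add_div, sq]
    exact div_le_div_of_nonneg_right h5 (by positivity)
  linarith

/-- all steps -/
theorem steps [Nonempty P] [Nonempty W] (M : ℕ) : ∀ A : Set ((P × W) × (P × W)),
    (avg fun x : Fin M → (P × W) × (P × W) => (Y k (A ∪ range x) : ℝ)) ≤
      (avg fun x : Fin M → P × W × W => (Y k (A ∪ range fun j => splitE (x j)) : ℝ)) +
        M / nn W := by
  classical
  induction M with
  | zero =>
    intro A
    have h1 : ∀ x : Fin 0 → (P × W) × (P × W), range x = ∅ := fun x => range_eq_empty x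
    simp_rw [h1]
    rw [avg_const, avg_const]
    simp
  | succ M ih =>
    intro A
    have h1 : (avg fun x : Fin (M + 1) → (P × W) × (P × W) => (Y k (A ∪ range x) : ℝ)) =
        avg fun e : (P × W) × (P × W) => avg fun x : Fin M → (P × W) × (P × W) =>
          (Y k (insert e A ∪ range x) : ℝ) := by
      rw [← avg_equiv (Fin.consEquiv fun _ => (P × W) × (P × W)), avg_prod]
      congr 1; funext e
      congr 1; funext x
      congr 2
      ext z
      simp only [Fin.consEquiv, Equiv.coe_fn_mk, Fin.range_cons, mem_union, mem_insert_iff]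
      tauto
    have h2 : (avg fun x : Fin (M + 1) → P × W × W =>
          (Y k (A ∪ range fun j => splitE (x j)) : ℝ)) =
        avg fun x : Fin M → P × W × W => avg fun e : P × W × W =>
          (Y k (insert (splitE e) (A ∪ range fun j => splitE (x j))) : ℝ) := by
      rw [← avg_equiv (Fin.consEquiv fun _ => P × W × W), avg_prod, avg_comm]
      congr 1; funext x
      congr 1; funext e
      congr 2
      have h3 : (range fun j => splitE ((Fin.consEquiv (fun _ => P × W × W)) (e, x) j)) =
          insert (splitE e) (range fun j => splitE (x j)) := by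
        have : (fun j => splitE ((Fin.consEquiv (fun _ => P × W × W)) (e, x) j)) =
            Fin.cons (splitE e) (fun j => splitE (x j)) := by
          funext j
          refine Fin.cases ?_ (fun i => ?_) j
          · simp [Fin.consEquiv]
          · simp [Fin.consEquiv]
        rw [this, Fin.range_cons]
      rw [h3, union_insert]
    rw [h1, h2]
    calc (avg fun e : (P × W) × (P × W) => avg fun x : Fin M → (P × W) × (P × W) =>
          (Y k (insert e A ∪ range x) : ℝ))
        ≤ avg fun e : (P × W) × (P × W) =>
          ((avg fun x : Fin M → P × W × W =>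
            (Y k (insert e A ∪ range fun j => splitE (x j)) : ℝ)) + M / nn W) :=
          avg_mono fun e => ih (insert e A)
      _ = (avg fun x : Fin M → P × W × W => avg fun e : (P × W) × (P × W) =>
            (Y k (insert e (A ∪ range fun j => splitE (x j))) : ℝ)) + M / nn W := by
          rw [avg_add, avg_const, avg_comm]
          congr 1
          congr 1
          funext x
          congr 1
          funext e
          rw [Set.insert_union]
      _ ≤ (avg fun x : Fin M → P × W × W => ((avg fun e : P × W × W =>
            (Y k (insert (splitE e) (A ∪ range fun j => splitE (x j))) : ℝ)) + 1 / nn W)) +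
            M / nn W := by
          gcongr
          exact avg_mono fun x => step _
      _ = _ := by
          rw [avg_add, avg_const]
          push_cast
          ring

end Swap45

open Swap45 in
theorem swap45 : StmtInterpSwap := by
  intro k P W _ _ _ _ M
  have h := steps (P := P) (W := W) (k := k) M ∅
  simp only [empty_union] at h
  exact h

end Pool.ER
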