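import Pool.Agent.Work.MP_3e81b4_47.Final
import Pool.Agent.Work.MP_3e81b4_47.PICK
import Pool.Agent.Work.MP_3e81b4_47.KL1
import Pool.Agent.Work.MP_3e81b4_47.KL2
import Pool.Agent.Work.MP_3e81b4_47.KL3_h67
import Pool.Agent.Work.MP_3e81b4_47.CorePar
import Pool.Agent.Work.MP_3e81b4_47.CoreH23
import Pool.Agent.Work.MP_3e81b4_47.ChainDet
import Pool.Agent.Work.MP_3e81b4_47.Chain_h51
import Pool.Agent.Work.MP_3e81b4_47.KeyDet
import Pool.Agent.Work.MP_3e81b4_47.KeyDecomp
import Pool.Agent.Work.MP_3e81b4_47.Key_h41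
import Pool.Agent.Work.MP_3e81b4_47.ES
import Pool.Agent.Work.MP_3e81b4_47.Ineq
import Pool.Agent.Work.MP_3e81b4_47.GROWTH
import Pool.Agent.Work.MP_3e81b4_47.DOUBLE
import Pool.Agent.Work.MP_3e81b4_47.Swap_h45
import Pool.Agent.Work.MP_3e81b4_47.InterpAdd
import Pool.Agent.Work.MP_3e81b4_47.InterpPart
import Pool.Agent.Work.MP_3e81b4_47.InterpRem
import Pool.Agent.Work.MP_3e81b4_47.Interp
import Pool.Agent.Work.MP_3e81b4_47.Large_h41
import Pool.Agent.Work.MP_3e81b4_47.Sharp
import Pool.Agent.Work.MP_3e81b4_57.Transfer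
import Pool.Agent.Work.MP_3e81b4_47.Main_h73

set_option autoImplicit false

/-! Assembly of all blocks: the sharp `k`-colourability threshold exists for every `k ≥ 3`. -/

namespace Pool.ER

theorem MainFinal : StmtMain :=
  main_of_blocks pick kl1 kl2 kl3 corepar CoreH23.core chainDet Chain keyDet keydec KEY es ineq
    double (fun _ => growth) swap45 InterpAdd part InterpRem INTERP LARGE SHARP tr1 tr2 MAIN

end Pool.ER
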