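import Pool.Agent.Work.MP_3e81b4_47.ChainDet

set_option autoImplicit false

/-! Block CHAIN: the chain lemma, from the core lemma. -/

namespace Pool.ER

open Set

section resample

variable {ι κ : Type*} [Fintype ι] [Fintype κ] [DecidableEq ι] [DecidableEq κ] {E : Type*}
  [Fintype E] [Nonempty E]

/-- resampling the coordinates in the image of an injection does not change an average -/
theorem avg_resample (j : κ → ι) (hj : Function.Injective j) (f : (ι → E) → ℝ) :
    avg f = avg fun x : ι → E => avg fun y : κ → E => f (Function.extend j y x) := by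
  classical
  let e : κ ⊕ {i : ι // i ∉ Set.range j} ≃ ι :=
    (Equiv.sumCongr (Equiv.ofInjective j hj) (Equiv.refl _)).trans
      (Equiv.Set.sumCompl (Set.range j))
  have hel : ∀ a, e (Sum.inl a) = j a := fun a => rfl
  have her : ∀ a : {i : ι // i ∉ Set.range j}, e (Sum.inr a) = a := fun a => rfl
  have h1 := avg_arrow_congr (E := E) e
    (fun h : κ ⊕ {i : ι // i ∉ Set.range j} → E => f (h ∘ e.symm))
  have h2 : (fun g : ι → E => f ((g ∘ e) ∘ e.symm)) = f := by
    funext g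
    congr 1
    funext i
    simp
  rw [h2] at h1
  rw [h1, avg_sumArrow, avg_prod, avg_comm (fun (x : ι → E) (y : κ → E) =>
    f (Function.extend j y x))]
  congr 1
  funext y
  rw [← avg_marginal (fun i : {i : ι // i ∉ Set.range j} => (i : ι)) Subtype.val_injective]
  congr 1
  funext x
  congr 1
  funext i
  obtain ⟨a, rfl⟩ := e.surjective i
  rw [Function.comp_apply, Equiv.symm_apply_apply]
  rcases a with a | a
  · rw [Sum.elim_inl, hel, hj.extend_apply]
  · rw [Sum.elim_inr, her, Function.extend_apply' _ _ _ (fun h => a.2 h)]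
    rfl

end resample

namespace ChainAux

variable {V : Type} {k : ℕ}

/-- the members of `F` valid for the first `i` batches of length `t` -/
def Fb (F : Set (PC V k)) {T : ℕ} (t : ℕ) (g : Fin T → V × V) (i : ℕ) : Set (PC V k) :=
  {σ | σ ∈ F ∧ ∀ j : Fin T, (j : ℕ) < i * t → ok σ (g j)}

theorem ok_map (π : Equiv.Perm (Fin k)) {σ : PC V k} {e : V × V} (h : ok σ e) :
    ok (fun v => (σ v).map π) e := by
  rcases h with h | h | h
  · exact Or.inl h
  · exact Or.inr (Or.inl (by simp [h]))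
  · refine Or.inr (Or.inr ?_)
    intro h'
    exact h (Option.map_injective π.injective h')

theorem Fb_sym {F : Set (PC V k)} (hF : Sym F) {T : ℕ} (t : ℕ) (g : Fin T → V × V) (i : ℕ) :
    Sym (Fb F t g i) := by
  intro π σ hσ
  exact ⟨hF π σ hσ.1, fun j hj => ok_map π (hσ.2 j hj)⟩

theorem Fb_succ (F : Set (PC V k)) {T : ℕ} (t : ℕ) (g : Fin T → V × V) (i : ℕ) :
    Fb F t g (i + 1) ⊆ Fb F t g i := by
  intro σ hσ
  refine ⟨hσ.1, fun j hj => hσ.2 j (lt_of_lt_of_le hj ?_)⟩
  exact Nat.mul_le_mul_right t (Nat.le_succ i)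

theorem card_ge {F : Set (PC V k)} (hk : 3 ≤ k) (hS : Sym F) (hne : F.Nonempty) (c : Fin k)
    {D : ℕ} (I : Finset (Fin D)) (w : Fin D → V) (h : BadTuple c F I w) : 3 ≤ I.card := by
  classical
  by_contra hlt
  obtain ⟨σ, hσ⟩ := hne
  have hex : ∃ a : Fin k, some a ∉ I.image (fun j => σ (w j)) := by
    by_contra hall
    push Not at hall
    have h1 : (Finset.univ : Finset (Fin k)).image some ⊆ I.image (fun j => σ (w j)) := by
      intro x hx
      obtain ⟨a, _, rfl⟩ := Finset.mem_image.1 hx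
      exact hall a
    have h2 := Finset.card_le_card h1
    rw [Finset.card_image_of_injective _ (Option.some_injective _), Finset.card_univ,
      Fintype.card_fin] at h2
    have h3 : (I.image (fun j => σ (w j))).card ≤ I.card := Finset.card_image_le
    omega
  obtain ⟨a, ha⟩ := hex
  obtain ⟨j, hj, hc⟩ := h _ (hS (Equiv.swap a c) σ hσ)
  apply ha
  rw [Finset.mem_image]
  refine ⟨j, hj, ?_⟩
  unfold avoid at hc
  push Not at hc
  rcases hb : σ (w j) with _ | b
  · simp [hb] at hc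
  · simp only [hb, Option.map_some, Option.some.injEq] at hc
    have : b = a :=
      (Equiv.swap a c).injective (hc.trans (Equiv.swap_apply_left a c).symm)
    rw [this]

/-- triples as functions on `Fin 3` -/
def e3 (V : Type) : (Fin 3 → V) ≃ V × V × V where
  toFun f := (f 0, f 1, f 2)
  invFun p := ![p.1, p.2.1, p.2.2]
  left_inv f := by
    funext i
    fin_cases i <;> rfl
  right_inv p := rfl

/-- the event for one batch index and one minimal sub-tuple -/
def Ev (c : Fin k) (F : Set (PC V k)) {D T : ℕ} (t i : ℕ) (I : Finset (Fin D))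
    (p : (Fin D → V) × (Fin T → V × V)) : Prop :=
  BadTuple c (Fb F t p.2 i) I p.1 ∧ ∀ J, J ⊂ I → ¬ BadTuple c (Fb F t p.2 (i + 1)) J p.1

/-- the batch `i` -/
def bt {T D t i : ℕ} (hi : i < D) (h : D * t ≤ T) (s : Fin t) : Fin T :=
  ⟨i * t + s, by
    have h1 : (i + 1) * t ≤ D * t := Nat.mul_le_mul_right t hi
    have h2 := s.2
    have h3 : (i + 1) * t = i * t + t := by ring
    omega⟩

theorem bt_inj {T D t i : ℕ} (hi : i < D) (h : D * t ≤ T) :
    Function.Injective (bt (T := T) (t := t) hi h) := by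
  intro a b hab
  have := congrArg Fin.val hab
  simp only [bt] at this
  exact Fin.ext (by omega)

theorem ev_le {C0 : ℝ} (hcore : ∀ (k : ℕ) (c : Fin k) (V : Type) [Fintype V] [Nonempty V]
      (F : Set (PC V k)) (τ : ℕ), 1 ≤ τ → τ ≤ Fintype.card V →
      pr (fun p : (V × V × V) × (Fin τ → V × V) => CoreEvent c F p.1 p.2)
        ≤ C0 * (τ : ℝ) ^ (-(51 / 50) : ℝ)) (hC0 : 0 < C0)
    [Fintype V] [Nonempty V] (c : Fin k) (F : Set (PC V k)) {D T t i : ℕ} (hi : i < D)
    (h : D * t ≤ T) (ht : 1 ≤ t) (htV : t ≤ Fintype.card V) (I : Finset (Fin D))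
    (hI : 3 ≤ I.card) :
    pr (fun p : (Fin D → V) × (Fin T → V × V) => Ev c F t i I p)
      ≤ C0 * (t : ℝ) ^ (-(51 / 50) : ℝ) := by
  classical
  obtain ⟨j1, j2, j3, h1, h2, h3, h12, h13, h23⟩ := Finset.two_lt_card_iff.1 (by omega : 2 < I.card)
  let J : Fin 3 → Fin D := ![j1, j2, j3]
  have hJ : Function.Injective J := by
    intro a b hab
    fin_cases a <;> fin_cases b <;> simp [J] at hab ⊢ <;>
      first
        | exact absurd hab h12
        | exact absurd hab h13
        | exact absurd hab h23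
        | exact absurd hab.symm h12
        | exact absurd hab.symm h13
        | exact absurd hab.symm h23
  have hpos : (0 : ℝ) ≤ C0 * (t : ℝ) ^ (-(51 / 50) : ℝ) :=
    mul_nonneg hC0.le (Real.rpow_nonneg (Nat.cast_nonneg t) _)
  -- resampling
  have e1 : pr (fun p : (Fin D → V) × (Fin T → V × V) => Ev c F t i I p) =
      avg fun w : Fin D → V => avg fun g : Fin T → V × V => avg fun y : Fin 3 → V =>
        avg fun g' : Fin t → V × V =>
          ind (Ev c F t i I (Function.extend J y w, Function.extend (bt hi h) g' g)) := by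
    rw [pr_prod]
    rw [avg_resample J hJ]
    congr 1
    funext w
    rw [avg_comm]
    congr 1
    funext y
    unfold pr
    rw [avg_resample (bt hi h) (bt_inj hi h)]
  rw [e1]
  refine avg_le_of_le hpos fun w => avg_le_of_le hpos fun g => ?_
  rw [← avg_prod (fun q : (Fin 3 → V) × (Fin t → V × V) =>
    ind (Ev c F t i I (Function.extend J q.1 w, Function.extend (bt hi h) q.2 g)))]
  -- the family
  let F' : Set (PC V k) := {σ | σ ∈ Fb F t g i ∧ ∀ j ∈ I, j ≠ j1 → j ≠ j2 → j ≠ j3 →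
    avoid c σ (w j)}
  refine le_trans (avg_mono (g := fun q : (Fin 3 → V) × (Fin t → V × V) =>
    ind (CoreEvent c F' (e3 V q.1) q.2)) ?_) ?_
  · rintro ⟨y, g'⟩
    apply ind_mono
    rintro ⟨hb, hm⟩
    dsimp only at hb hm
    have hw1 : Function.extend J y w j1 = y 0 := hJ.extend_apply y w 0
    have hw2 : Function.extend J y w j2 = y 1 := hJ.extend_apply y w 1
    have hw3 : Function.extend J y w j3 = y 2 := hJ.extend_apply y w 2
    have hwo : ∀ j, j ≠ j1 → j ≠ j2 → j ≠ j3 → Function.extend J y w j = w j := by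
      intro j hj1 hj2 hj3
      apply Function.extend_apply'
      rintro ⟨a, ha⟩
      fin_cases a
      · exact hj1 ha.symm
      · exact hj2 ha.symm
      · exact hj3 ha.symm
    have hgb : ∀ s : Fin t, Function.extend (bt hi h) g' g (bt hi h s) = g' s := fun s =>
      (bt_inj hi h).extend_apply g' g s
    have hgo : ∀ j : Fin T, (j : ℕ) < i * t → Function.extend (bt hi h) g' g j = g j := by
      intro j hj
      apply Function.extend_apply'
      rintro ⟨s, hs⟩
      rw [← hs] at hj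
      simp only [bt] at hj
      omega
    have hFb : Fb F t (Function.extend (bt hi h) g' g) i = Fb F t g i := by
      ext σ
      constructor
      · rintro ⟨ha, hb'⟩
        exact ⟨ha, fun j hj => by rw [← hgo j hj]; exact hb' j hj⟩
      · rintro ⟨ha, hb'⟩
        exact ⟨ha, fun j hj => by rw [hgo j hj]; exact hb' j hj⟩
    have hFb1 : ∀ σ ∈ Fb F t (Function.extend (bt hi h) g' g) (i + 1),
        σ ∈ Fb F t g i ∧ valid σ (range g') := by
      intro σ hσ
      refine ⟨by rw [← hFb]; exact Fb_succ F t _ i hσ, ?_⟩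
      rintro e ⟨s, rfl⟩
      rw [← hgb s]
      apply hσ.2
      simp only [bt]
      have h4 : (i + 1) * t = i * t + t := by ring
      have := s.2
      omega
    rw [hFb] at hb
    have pair : ∀ a ∈ I, ∃ σ ∈ Fb F t g i, valid σ (range g') ∧
        ∀ j ∈ I, j ≠ a → avoid c σ (Function.extend J y w j) := by
      intro a ha
      have h5 := hm (I.erase a) (Finset.erase_ssubset ha)
      unfold BadTuple at h5
      push Not at h5
      obtain ⟨σ, hσ, hσ2⟩ := h5
      obtain ⟨h6, h7⟩ := hFb1 σ hσ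
      exact ⟨σ, h6, h7, fun j hj hja => hσ2 j (Finset.mem_erase.2 ⟨hja, hj⟩)⟩
    have memF' : ∀ a ∈ I, (a = j1 ∨ a = j2 ∨ a = j3) → ∃ σ ∈ F', valid σ (range g') ∧
        ∀ j ∈ I, j ≠ a → avoid c σ (Function.extend J y w j) := by
      intro a ha haj
      obtain ⟨σ, h6, h7, h8⟩ := pair a ha
      refine ⟨σ, ⟨h6, fun j hj hj1 hj2 hj3 => ?_⟩, h7, h8⟩
      rw [← hwo j hj1 hj2 hj3]
      apply h8 j hj
      rintro rfl
      rcases haj with haj | haj | haj
      · exact hj1 haj
      · exact hj2 haj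
      · exact hj3 haj
    refine ⟨?_, ?_, ?_, ?_⟩
    · intro σ hσ hall
      obtain ⟨j, hj, hnot⟩ := hb σ hσ.1
      apply hnot
      by_cases hj1 : j = j1
      · rw [hj1, hw1]; exact hall.1
      by_cases hj2 : j = j2
      · rw [hj2, hw2]; exact hall.2.1
      by_cases hj3 : j = j3
      · rw [hj3, hw3]; exact hall.2.2
      rw [hwo j hj1 hj2 hj3]
      exact hσ.2 j hj hj1 hj2 hj3
    · obtain ⟨σ, h6, h7, h8⟩ := memF' j3 h3 (Or.inr (Or.inr rfl))
      refine ⟨σ, h6, h7, ?_, ?_⟩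
      · have := h8 j1 h1 h13
        rwa [hw1] at this
      · have := h8 j2 h2 h23
        rwa [hw2] at this
    · obtain ⟨σ, h6, h7, h8⟩ := memF' j2 h2 (Or.inr (Or.inl rfl))
      refine ⟨σ, h6, h7, ?_, ?_⟩
      · have := h8 j1 h1 h12
        rwa [hw1] at this
      · have := h8 j3 h3 h23.symm
        rwa [hw3] at this
    · obtain ⟨σ, h6, h7, h8⟩ := memF' j1 h1 (Or.inl rfl)
      refine ⟨σ, h6, h7, ?_, ?_⟩
      · have := h8 j2 h2 h12.symm
        rwa [hw2] at this
      · have := h8 j3 h3 h13.symm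
        rwa [hw3] at this
  · have h9 := hcore k c V F' t ht htV
    refine le_trans (le_of_eq ?_) h9
    exact avg_equiv (Equiv.prodCongr (e3 V) (Equiv.refl (Fin t → V × V)))
      (fun p : (V × V × V) × (Fin t → V × V) => ind (CoreEvent c F' p.1 p.2))

theorem pow_bound {D T : ℕ} (hD : 1 ≤ D) (hT : D ≤ T) :
    ((T / D : ℕ) : ℝ) ^ (-(51 / 50) : ℝ) ≤ 4 * (D : ℝ) ^ 2 * (T : ℝ) ^ (-(51 / 50) : ℝ) := by
  have hD0 : (0 : ℝ) < D := by exact_mod_cast hD
  have hT0 : (0 : ℝ) < T := by exact_mod_cast lt_of_lt_of_le hD hT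
  have h1 : (T : ℝ) / (2 * D) ≤ ((T / D : ℕ) : ℝ) := by
    have hq : 1 ≤ T / D := (Nat.one_le_div_iff (by omega)).2 hT
    have h2 : T < D * (T / D) + D := Nat.lt_mul_div_succ T (by omega : 0 < D) |>.trans_le
      (by rw [Nat.mul_add, Nat.mul_one])
    have h3 : D ≤ D * (T / D) := Nat.le_mul_of_pos_right D (by omega)
    have h4 : T ≤ 2 * D * (T / D) := by
      have : 2 * D * (T / D) = D * (T / D) + D * (T / D) := by ring
      omega
    rw [div_le_iff₀ (by positivity)]
    have h5 : (T : ℝ) ≤ ((2 * D * (T / D) : ℕ) : ℝ) := by exact_mod_cast h4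
    push_cast at h5
    linarith
  have h6 : ((T / D : ℕ) : ℝ) ^ (-(51 / 50) : ℝ) ≤ ((T : ℝ) / (2 * D)) ^ (-(51 / 50) : ℝ) :=
    Real.rpow_le_rpow_of_nonpos (by positivity) h1 (by norm_num)
  refine h6.trans ?_
  have h7 : ((T : ℝ) / (2 * D)) ^ (-(51 / 50) : ℝ) =
      (2 * D : ℝ) ^ (51 / 50 : ℝ) * (T : ℝ) ^ (-(51 / 50) : ℝ) := by
    rw [Real.div_rpow hT0.le (by positivity), Real.rpow_neg (by positivity : (0:ℝ) ≤ 2 * D)]
    field_simp
  rw [h7]
  apply mul_le_mul_of_nonneg_right _ (Real.rpow_nonneg hT0.le _)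
  have h8 : (1 : ℝ) ≤ 2 * D := by
    have : (1 : ℝ) ≤ D := by exact_mod_cast hD
    linarith
  calc (2 * D : ℝ) ^ (51 / 50 : ℝ) ≤ (2 * D : ℝ) ^ (2 : ℝ) :=
        Real.rpow_le_rpow_of_exponent_le h8 (by norm_num)
    _ = 4 * (D : ℝ) ^ 2 := by
        rw [Real.rpow_two]; ring

end ChainAux

open ChainAux in
theorem chain (hcore : StmtCore) : StmtChain := by
  classical
  obtain ⟨C0, hC0, hcore⟩ := hcore
  intro k hk
  refine ⟨4 * C0 + 1, by linarith, ?_⟩
  intro c V _ _ F D T hS hT hTV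
  have hTpos : (0 : ℝ) < T := by exact_mod_cast hT
  have hrp : 0 ≤ (T : ℝ) ^ (-(51 / 50) : ℝ) := Real.rpow_nonneg hTpos.le _
  rcases Nat.eq_zero_or_pos D with hD | hD
  · subst hD
    have h0 : pr (fun p : (Fin 0 → V) × (Fin T → V × V) =>
        BadTuple c F Finset.univ p.1 ∧ ∃ σ ∈ F, valid σ (range p.2)) ≤ 0 := by
      refine avg_le_of_le le_rfl fun p => ?_
      rw [ind_false]
      rintro ⟨hb, σ, hσ, _⟩
      obtain ⟨j, _, _⟩ := hb σ hσ
      exact j.elim0
    refine h0.trans ?_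
    positivity
  have hD1 : (1 : ℝ) ≤ D := by exact_mod_cast hD
  by_cases hDT : T < D
  · refine (pr_le_one _).trans ?_
    have h1 : (T : ℝ) ^ (-(51 / 50) : ℝ) ≥ (D : ℝ) ^ (-2 : ℝ) := by
      have h2 : (D : ℝ) ^ (-2 : ℝ) ≤ (T : ℝ) ^ (-2 : ℝ) :=
        Real.rpow_le_rpow_of_nonpos hTpos (by exact_mod_cast hDT.le) (by norm_num)
      have h3 : (T : ℝ) ^ (-2 : ℝ) ≤ (T : ℝ) ^ (-(51 / 50) : ℝ) :=
        Real.rpow_le_rpow_of_exponent_le (by exact_mod_cast hT) (by norm_num)
      exact h2.trans h3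
    have h4 : (D : ℝ) ^ 3 * (D : ℝ) ^ (-2 : ℝ) = D := by
      rw [Real.rpow_neg (by positivity), Real.rpow_two]
      field_simp
    have h5 : (1 : ℝ) ≤ 4 ^ D := one_le_pow₀ (by norm_num)
    calc (1 : ℝ) ≤ (D : ℝ) ^ 3 * (D : ℝ) ^ (-2 : ℝ) := by rw [h4]; exact hD1
      _ ≤ (D : ℝ) ^ 3 * (T : ℝ) ^ (-(51 / 50) : ℝ) :=
          mul_le_mul_of_nonneg_left h1 (by positivity)
      _ = 1 * (D : ℝ) ^ 3 * 1 * (T : ℝ) ^ (-(51 / 50) : ℝ) := by ring
      _ ≤ (4 * C0 + 1) * (D : ℝ) ^ 3 * 4 ^ D * (T : ℝ) ^ (-(51 / 50) : ℝ) := by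
          apply mul_le_mul_of_nonneg_right _ hrp
          apply mul_le_mul _ h5 (by norm_num) (by positivity)
          apply mul_le_mul_of_nonneg_right _ (by positivity)
          linarith
  push Not at hDT
  set t := T / D with htdef
  have ht : 1 ≤ t := (Nat.one_le_div_iff hD).2 hDT
  have hDt : D * t ≤ T := Nat.mul_div_le T D
  have htV : t ≤ Fintype.card V := (Nat.div_le_self T D).trans hTV
  -- union bound
  let s : Finset (ℕ × Finset (Fin D)) :=
    (Finset.range D ×ˢ (Finset.univ : Finset (Finset (Fin D)))).filter fun q => 3 ≤ q.2.card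
  have hcover : ∀ p : (Fin D → V) × (Fin T → V × V),
      (BadTuple c F Finset.univ p.1 ∧ ∃ σ ∈ F, valid σ (range p.2)) →
      ∃ q ∈ s, Ev c F t q.1 q.2 p := by
    rintro ⟨w, g⟩ ⟨hb, σ, hσ, hv⟩
    have hne : ∀ i, (Fb F t g i).Nonempty := fun i => ⟨σ, hσ, fun j _ => hv _ ⟨j, rfl⟩⟩
    have hb0 : BadTuple c (Fb F t g 0) Finset.univ w := fun σ' hσ' => hb σ' hσ'.1
    obtain ⟨i, hi, I, hI1, hI2⟩ := chainDet V k c D w (Fb F t g) (Fb_succ F t g)
      (fun i _ => hne i) hb0
    refine ⟨(i, I), ?_, hI1, hI2⟩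
    simp only [s, Finset.mem_filter, Finset.mem_product, Finset.mem_range, Finset.mem_univ,
      and_true]
    exact ⟨hi, card_ge hk (Fb_sym hS t g i) (hne i) c I w hI1⟩
  refine (pr_mono hcover).trans ((pr_exists_le s _).trans ?_)
  have hterm : ∀ q ∈ s, pr (fun p : (Fin D → V) × (Fin T → V × V) => Ev c F t q.1 q.2 p) ≤
      C0 * (t : ℝ) ^ (-(51 / 50) : ℝ) := by
    intro q hq
    simp only [s, Finset.mem_filter, Finset.mem_product, Finset.mem_range, Finset.mem_univ,
      and_true] at hq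
    exact ev_le hcore hC0 c F hq.1 hDt ht htV q.2 hq.2
  have hcard : (s.card : ℝ) ≤ D * 2 ^ D := by
    have h1 : s.card ≤ D * 2 ^ D := by
      refine (Finset.card_filter_le _ _).trans ?_
      rw [Finset.card_product, Finset.card_range, Finset.card_univ, Fintype.card_finset,
        Fintype.card_fin]
    exact_mod_cast h1
  have hnn : 0 ≤ C0 * (t : ℝ) ^ (-(51 / 50) : ℝ) :=
    mul_nonneg hC0.le (Real.rpow_nonneg (Nat.cast_nonneg t) _)
  calc ∑ q ∈ s, pr (fun p : (Fin D → V) × (Fin T → V × V) => Ev c F t q.1 q.2 p)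
      ≤ ∑ _q ∈ s, C0 * (t : ℝ) ^ (-(51 / 50) : ℝ) := Finset.sum_le_sum hterm
    _ = s.card * (C0 * (t : ℝ) ^ (-(51 / 50) : ℝ)) := by
        rw [Finset.sum_const, nsmul_eq_mul]
    _ ≤ (D * 2 ^ D) * (C0 * (4 * (D : ℝ) ^ 2 * (T : ℝ) ^ (-(51 / 50) : ℝ))) := by
        apply mul_le_mul hcard _ hnn (by positivity)
        exact mul_le_mul_of_nonneg_left (pow_bound hD hDT) hC0.le
    _ = (4 * C0) * (D : ℝ) ^ 3 * 2 ^ D * (T : ℝ) ^ (-(51 / 50) : ℝ) := by ring
    _ ≤ (4 * C0 + 1) * (D : ℝ) ^ 3 * 4 ^ D * (T : ℝ) ^ (-(51 / 50) : ℝ) := by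
        apply mul_le_mul_of_nonneg_right _ hrp
        have h2 : (2 : ℝ) ^ D ≤ 4 ^ D := pow_le_pow_left₀ (by norm_num) (by norm_num) D
        apply mul_le_mul _ h2 (by positivity) (by positivity)
        apply mul_le_mul_of_nonneg_right _ (by positivity)
        linarith

end Pool.ER
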