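import Mathlib

set_option autoImplicit false

/-!
Sharp k-colourability threshold (MP_3e81b4_pr, S19279): definitions.
Proof: note 2410 (team-store er_PROOF.txt).
-/

namespace Pool.ER

/-- indicator of a proposition, real valued -/
noncomputable def ind (p : Prop) : ℝ := open Classical in if p then 1 else 0

/-- uniform average over a finite type -/
noncomputable def avg {Ω : Type*} [Fintype Ω] (f : Ω → ℝ) : ℝ :=
  (∑ ω, f ω) / (Fintype.card Ω : ℝ)

/-- uniform probability on a finite type -/
noncomputable def pr {Ω : Type*} [Fintype Ω] (p : Ω → Prop) : ℝ := avg fun ω => ind (p ω)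

/-- partial colourings with colours `Fin k`; `none` = uncoloured -/
abbrev PC (V : Type) (k : ℕ) : Type := V → Option (Fin k)

variable {V : Type} {k : ℕ}

/-- `σ` is ok on the ordered pair `e` (loops impose nothing) -/
def ok (σ : PC V k) (e : V × V) : Prop := e.1 = e.2 ∨ σ e.1 = none ∨ σ e.1 ≠ σ e.2

/-- `σ` is valid for the set of edges `A` -/
def valid (σ : PC V k) (A : Set (V × V)) : Prop := ∀ e ∈ A, ok σ e

/-- number of uncoloured vertices -/
noncomputable def cost (σ : PC V k) : ℕ := Nat.card {v : V // σ v = none}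

/-- minimal number of uncoloured vertices of a valid partial `k`-colouring -/
noncomputable def Y (k : ℕ) (A : Set (V × V)) : ℕ :=
  sInf {c : ℕ | ∃ σ : PC V k, valid σ A ∧ cost σ = c}

/-- the optimal partial colourings -/
def S (k : ℕ) (A : Set (V × V)) : Set (PC V k) := {σ | valid σ A ∧ cost σ = Y k A}

/-- `σ` avoids colour `c` at `v` (uncoloured vertices avoid every colour) -/
def avoid (c : Fin k) (σ : PC V k) (v : V) : Prop := σ v ≠ some c

/-- a family of partial colourings closed under permutations of the colours -/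
def Sym (F : Set (PC V k)) : Prop :=
  ∀ π : Equiv.Perm (Fin k), ∀ σ ∈ F, (fun v => (σ v).map π) ∈ F

/-- `N` is a transversal of the edges `g i`: every non-loop edge has an end in `N` -/
def Tr {ι : Type} (N : Set V) (g : ι → V × V) : Prop :=
  ∀ i, (g i).1 ≠ (g i).2 → (g i).1 ∈ N ∨ (g i).2 ∈ N

/-- legal sequences for a strategy `R`, most recent pick first -/
inductive Legal (R : List V → Set V) : List V → Prop
  | nil : Legal R []
  | cons {l : List V} {v : V} : Legal R l → v ∈ R l → Legal R (v :: l)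

/-- `g` does not kill `R ⊆ V` -/
def NotKill1 {ι : Type} (R : Set V) (g : ι → V × V) : Prop :=
  ∃ N : Set V, Tr N g ∧ ∀ v ∈ R, v ∉ N

/-- `g` does not kill `B ⊆ V × V` -/
def NotKill2 {ι : Type} (B : Set (V × V)) (g : ι → V × V) : Prop :=
  ∃ N : Set V, Tr N g ∧ ∀ p ∈ B, ¬ (p.1 ∈ N ∧ p.2 ∈ N)

/-- `g` does not kill `M ⊆ V × V × V` -/
def NotKill3 {ι : Type} (M : Set (V × V × V)) (g : ι → V × V) : Prop :=
  ∃ N : Set V, Tr N g ∧ ∀ p ∈ M, ¬ (p.1 ∈ N ∧ p.2.1 ∈ N ∧ p.2.2 ∈ N)

/-- expected `Y` of the random multigraph with `M` iid uniform edges on the vertex type `V` -/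
noncomputable def yy (k : ℕ) (V : Type) [Fintype V] (M : ℕ) : ℝ :=
  avg fun x : Fin M → V × V => (Y k (Set.range x) : ℝ)

end Pool.ER
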