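import Pool.Agent.Work.MP_3e81b4_47.Interface

set_option autoImplicit false

/-! Block FROZEN: the frozen statement from `StmtMain` (definitional unfolding of `ps`). -/

namespace Pool.ER

theorem frozen_of_main (h : StmtMain) :
    ∀ k : ℕ, 3 ≤ k → ∃ c : ℝ, ∀ ε : ℝ, 0 < ε →
      Filter.Tendsto
        (fun n : ℕ =>
          (Nat.card {G : SimpleGraph (Fin n) //
              G.edgeSet.ncard = ⌊(c - ε) * (n : ℝ)⌋₊ ∧ G.Colorable k} : ℝ) /
          (Nat.card {G : SimpleGraph (Fin n) //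
              G.edgeSet.ncard = ⌊(c - ε) * (n : ℝ)⌋₊} : ℝ))
        Filter.atTop (nhds 1) ∧
      Filter.Tendsto
        (fun n : ℕ =>
          (Nat.card {G : SimpleGraph (Fin n) //
              G.edgeSet.ncard = ⌊(c + ε) * (n : ℝ)⌋₊ ∧ G.Colorable k} : ℝ) /
          (Nat.card {G : SimpleGraph (Fin n) //
              G.edgeSet.ncard = ⌊(c + ε) * (n : ℝ)⌋₊} : ℝ))
        Filter.atTop (nhds 0) := h

/-- the whole proof, from the blocks (all implications as in column `stmt` of thr_blocks) -/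
theorem main_of_blocks
    (PICK : StmtPick) (KL1 : StmtKL1) (KL2 : StmtPick → StmtKL2) (KL3 : StmtPick → StmtKL3)
    (COREPAR : StmtKL1 → StmtKL2 → StmtKL3 → StmtCorePar) (CORE : StmtCorePar → StmtCore)
    (CHAINDET : StmtChainDet) (CHAIN : StmtCore → StmtChainDet → StmtChain)
    (KEYDET : StmtKeyDet) (KEYDEC : StmtKeyDecomp)
    (KEY : StmtChain → StmtKeyDet → StmtKeyDecomp → StmtKey)
    (ES : StmtES) (INEQ : StmtKey → StmtES → StmtIneq)
    (DOUBLE : StmtDouble) (GROWTH : StmtDouble → StmtGrowth)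
    (SWAP : StmtInterpSwap) (ADD : StmtInterpAdd) (PART : StmtInterpPart) (REM : StmtInterpRem)
    (INTERP : StmtInterpSwap → StmtInterpAdd → StmtInterpPart → StmtInterpRem → StmtInterp)
    (LARGE : StmtLarge)
    (SHARP : StmtIneq → StmtES → StmtGrowth → StmtInterp → StmtLarge → StmtSharpIid)
    (TR1 : StmtTransfer1) (TR2 : StmtTransfer2)
    (MAIN : StmtSharpIid → StmtTransfer1 → StmtTransfer2 → StmtMain) : StmtMain :=
  MAIN
    (SHARP
      (INEQ (KEY (CHAIN (CORE (COREPAR KL1 (KL2 PICK) (KL3 PICK))) CHAINDET) KEYDET KEYDEC) ES)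
      ES (GROWTH DOUBLE) (INTERP SWAP ADD PART REM) LARGE)
    TR1 TR2

end Pool.ER
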