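import Pool.Agent.Work.MP_3e81b4_47.KL1

set_option autoImplicit false

/-! Block KL3 (helper44). -/

namespace Pool.ER

open Set

theorem kl3 : StmtPick → StmtKL3 := by
  classical
  intro _ V _ _ M m τ lam kap gam D h0 hk0 hg0 hD0 hlD hDl hmτ hm hn hM hl3 hl2 hl1 hp1 hp2 hp3
  set n : ℝ := nn V with hnn
  have hnV : n = Fintype.card V := rfl
  have hpos : 0 < n := by rw [hnV]; exact_mod_cast Fintype.card_pos
  have hMc : (M.ncard : ℝ) = (M.toFinset.card : ℝ) := by rw [Set.ncard_eq_toFinset_card']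
  have hl1' : ∀ y z, ((Pool.KCol.l1 M.toFinset y z).card : ℝ) ≤ lam * n := by
    intro y z
    refine le_trans (le_of_eq ?_) (hl1 y z)
    rw [Set.ncard_eq_toFinset_card']
    congr 2
    ext v; simp [Pool.KCol.l1]
  have hl2' : ∀ v z, ((Pool.KCol.l2 M.toFinset v z).card : ℝ) ≤ lam * n := by
    intro v z
    refine le_trans (le_of_eq ?_) (hl2 v z)
    rw [Set.ncard_eq_toFinset_card']
    congr 2
    ext y; simp [Pool.KCol.l2]
  have hl3' : ∀ v y, ((Pool.KCol.l3 M.toFinset v y).card : ℝ) ≤ lam * n := by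
    intro v y
    refine le_trans (le_of_eq ?_) (hl3 v y)
    rw [Set.ncard_eq_toFinset_card']
    congr 2
    ext z; simp [Pool.KCol.l3]
  have hp1' : ∀ v, ((Pool.KCol.sl M.toFinset v).card : ℝ) ≤ kap * n ^ 2 := by
    intro v
    refine le_trans (le_of_eq ?_) (hp1 v)
    rw [Set.ncard_eq_toFinset_card']
    congr 2
    ext q; simp [Pool.KCol.sl]
  have hp2' : ∀ v, ((Pool.KCol.pl2 M.toFinset v).card : ℝ) ≤ kap * n ^ 2 := by
    intro v
    refine le_trans (le_of_eq ?_) (hp2 v)
    rw [Set.ncard_eq_toFinset_card']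
    congr 2
    ext q; simp [Pool.KCol.pl2]
  have hp3' : ∀ v, ((Pool.KCol.pl3 M.toFinset v).card : ℝ) ≤ kap * n ^ 2 := by
    intro v
    refine le_trans (le_of_eq ?_) (hp3 v)
    rw [Set.ncard_eq_toFinset_card']
    congr 2
    ext q; simp [Pool.KCol.pl3]
  have hgk : gam ≤ kap := by
    have h1 : (M.toFinset.card : ℝ) ≤ n * (kap * n ^ 2) := by
      have h2 : (M.toFinset.card : ℝ) = ∑ v, ((Pool.KCol.sl M.toFinset v).card : ℝ) := by
        rw [Pool.KCol.card_M]
        refine Finset.sum_congr rfl fun v _ => ?_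
        have := Pool.KCol.card_sl_filter M.toFinset v (fun _ => True)
        simp only [if_true, Finset.filter_true] at this
        exact this.symm
      rw [h2]
      calc (∑ v, ((Pool.KCol.sl M.toFinset v).card : ℝ)) ≤ ∑ v : V, kap * n ^ 2 :=
            Finset.sum_le_sum fun v _ => hp1' v
        _ = n * (kap * n ^ 2) := by rw [Finset.sum_const, nsmul_eq_mul, Finset.card_univ, ← hnV]
    have h3 : gam * n ^ 3 ≤ kap * n ^ 3 := by rw [hMc] at hM; nlinarith
    exact le_of_mul_le_mul_right h3 (by positivity)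
  have hr1 : gam / (128 * kap) ≤ 1 := by
    rw [div_le_one (by positivity)]; linarith
  -- the numbers of picks
  set a : ℕ := ⌈D / (16 * kap)⌉₊ with ha
  have ha1 : D / (16 * kap) ≤ a := Nat.le_ceil _
  have ha2 : (a : ℝ) < D / (16 * kap) + 1 := Nat.ceil_lt_add_one (by positivity)
  have hD2 : 0 < 1 / (2 * D) := by positivity
  have ham : a ≤ m := by
    have : (a : ℝ) < m := by linarith
    exact_mod_cast this.le
  obtain ⟨b, hb⟩ := Nat.exists_eq_add_of_le ham
  have hb1 : 1 / (2 * D) ≤ b := by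
    have : (m : ℝ) = a + b := by rw [hb]; push_cast; ring
    linarith
  have haD : D ≤ 16 * kap * a := by
    rw [div_le_iff₀ (by positivity)] at ha1
    linarith
  have hbD : 1 ≤ 2 * D * b := by
    rw [div_le_iff₀ (by positivity)] at hb1
    linarith
  have hm1 : 1 ≤ m := by
    by_contra hc
    have h1 : m = 0 := by omega
    have h2 : (m : ℝ) = 0 := by exact_mod_cast h1
    have h3 : 0 ≤ D / (16 * kap) := by positivity
    linarith
  refine KL_pr_le _ _ ?_
  have key := Pool.KCol.kl3 (τ := τ) M.toFinset gam kap lam (gam / (128 * kap)) D n hnV hD0 hk0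
    h0.le (by positivity) hr1 (by field_simp) hlD hDl (by rw [← hMc]; exact hM) hl1' hl2' hl3'
    hp1' hp2' hp3' hn a b haD hbD (by omega) (by omega)
  refine (Pool.KCol.cnt_mono ?_).trans (key.trans (le_of_eq ?_))
  · rintro g ⟨N, hN, hRN⟩ hk
    obtain ⟨q, hq, hqN⟩ := hk N.toFinset (KL_tr N g hN)
    exact hRN q (by simpa using hq) (by simpa using hqN)
  · rw [← hb, errT, KL_exp τ m hmτ, hnV]

end Pool.ER
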