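import Pool.Agent.Work.MP_3e81b4_47.Interface

set_option autoImplicit false

/-! Block KEY: the key lemma from the chain lemma and the decomposition. -/

namespace Pool.ER

open scoped Nat

theorem KEY (hC : StmtChain) (hDet : StmtKeyDet) (hDec : StmtKeyDecomp) : StmtKey := by
  intro k hk c
  obtain ⟨C1, hC1, hch⟩ := hC k hk
  set c' : ℝ := max c 0 with hc'
  have hc0 : 0 ≤ c' := le_max_right _ _
  refine ⟨C1 * Real.exp (64 * c'), by positivity, ?_⟩
  intro V _ _ M T hM hT1 hTn
  have hn0 : 0 < nn V := by unfold nn; exact_mod_cast Fintype.card_pos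
  have hT0 : (0 : ℝ) < T := by exact_mod_cast hT1
  set τ : ℝ := (T : ℝ) ^ (-(51 / 50) : ℝ) with hτ
  have hτ0 : 0 < τ := Real.rpow_pos_of_pos hT0 _
  let c0 : Fin k := ⟨0, by omega⟩
  have hM' : (M : ℝ) ≤ c' * nn V :=
    hM.trans (mul_le_mul_of_nonneg_right (le_max_left _ _) hn0.le)
  have h1 : ∀ u : V, pr (fun p : (Fin M → V × V) × (Fin T → V × V) => BadU c0 p.1 p.2 u) ≤
      C1 * Real.exp (64 * c') * τ := by
    intro u
    have h2 := hDec V k c0 M T (fun D => C1 * (D : ℝ) ^ 3 * 4 ^ D * τ)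
      (fun D => by positivity) (fun F D hF => hch c0 V F D T hF hT1 hTn) u
    refine h2.trans ?_
    have h3 : ∀ D ∈ Finset.range (M + 1),
        (M.choose D : ℝ) * (2 / nn V) ^ D * (C1 * (D : ℝ) ^ 3 * 4 ^ D * τ) ≤
          (C1 * τ) * ((64 * c') ^ D / D !) := by
      intro D _
      have e1 : (M.choose D : ℝ) ≤ (M : ℝ) ^ D / D ! := Nat.choose_le_pow_div D M
      have e2 : (M : ℝ) ^ D ≤ (c' * nn V) ^ D := pow_le_pow_left₀ (Nat.cast_nonneg _) hM' D
      have e3 : (D : ℝ) ^ 3 ≤ 8 ^ D := by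
        have h : (D : ℝ) ≤ 2 ^ D := by exact_mod_cast Nat.lt_two_pow_self.le
        calc (D : ℝ) ^ 3 ≤ (2 ^ D) ^ 3 := pow_le_pow_left₀ (Nat.cast_nonneg _) h 3
          _ = 8 ^ D := by rw [← pow_mul, mul_comm, pow_mul]; norm_num
      have hfac : (0 : ℝ) < D ! := by exact_mod_cast Nat.factorial_pos D
      have e4 : (M.choose D : ℝ) ≤ (c' * nn V) ^ D / D ! :=
        e1.trans (div_le_div_of_nonneg_right e2 hfac.le)
      calc (M.choose D : ℝ) * (2 / nn V) ^ D * (C1 * (D : ℝ) ^ 3 * 4 ^ D * τ)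
          = (C1 * τ) * ((M.choose D : ℝ) * (2 / nn V) ^ D * ((D : ℝ) ^ 3 * 4 ^ D)) := by ring
        _ ≤ (C1 * τ) * (((c' * nn V) ^ D / D !) * (2 / nn V) ^ D * (8 ^ D * 4 ^ D)) := by
            refine mul_le_mul_of_nonneg_left ?_ (by positivity)
            refine mul_le_mul (mul_le_mul_of_nonneg_right e4 (by positivity))
              (mul_le_mul_of_nonneg_right e3 (by positivity)) (by positivity) (by positivity)
        _ = (C1 * τ) * ((64 * c') ^ D / D !) := by
            have e5 : (c' * nn V) ^ D * (2 / nn V) ^ D * (8 ^ D * 4 ^ D) = (64 * c') ^ D := by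
              rw [← mul_pow, ← mul_pow, ← mul_pow]
              congr 1
              field_simp
              ring
            rw [← e5]; ring
    refine (Finset.sum_le_sum h3).trans ?_
    rw [← Finset.mul_sum]
    have h4 : ∑ D ∈ Finset.range (M + 1), (64 * c') ^ D / (D ! : ℝ) ≤ Real.exp (64 * c') :=
      Real.sum_le_exp_of_nonneg (by positivity) _
    calc (C1 * τ) * ∑ D ∈ Finset.range (M + 1), (64 * c') ^ D / (D ! : ℝ)
        ≤ (C1 * τ) * Real.exp (64 * c') := mul_le_mul_of_nonneg_left h4 (by positivity)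
      _ = C1 * Real.exp (64 * c') * τ := by ring
  have h5 : (avg fun p : (Fin M → V × V) × (Fin T → V × V) =>
      (Y k (Set.range p.1) : ℝ) *
        ind (Y k (Set.range p.1 ∪ Set.range p.2) = Y k (Set.range p.1))) ≤
      avg fun p : (Fin M → V × V) × (Fin T → V × V) => ∑ u : V, ind (BadU c0 p.1 p.2 u) := by
    refine avg_mono fun p => ?_
    by_cases h : Y k (Set.range p.1 ∪ Set.range p.2) = Y k (Set.range p.1)
    · rw [ind_true h, mul_one]
      exact hDet V k c0 M T p.1 p.2 h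
    · rw [ind_false h, mul_zero]
      exact Finset.sum_nonneg fun _ _ => ind_nonneg _
  refine h5.trans ?_
  rw [avg_sum]
  calc ∑ u : V, (avg fun p : (Fin M → V × V) × (Fin T → V × V) => ind (BadU c0 p.1 p.2 u))
      ≤ ∑ _u : V, C1 * Real.exp (64 * c') * τ := Finset.sum_le_sum fun u _ => h1 u
    _ = C1 * Real.exp (64 * c') * nn V * τ := by
        rw [Finset.sum_const, Finset.card_univ, nsmul_eq_mul]
        unfold nn; ring

end Pool.ER
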