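import Pool.Agent.Work.MP_3e81b4_47.Defs

set_option autoImplicit false

/-! Toolkit for finite uniform averages. -/

namespace Pool.ER

section ind

theorem ind_nonneg (p : Prop) : 0 ≤ ind p := by
  unfold ind; split_ifs <;> norm_num

theorem ind_le_one (p : Prop) : ind p ≤ 1 := by
  unfold ind; split_ifs <;> norm_num

theorem ind_true {p : Prop} (h : p) : ind p = 1 := by
  unfold ind; simp [h]

theorem ind_false {p : Prop} (h : ¬ p) : ind p = 0 := by
  unfold ind; simp [h]

theorem ind_mono {p q : Prop} (h : p → q) : ind p ≤ ind q := by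
  by_cases hp : p
  · rw [ind_true hp, ind_true (h hp)]
  · rw [ind_false hp]; exact ind_nonneg q

theorem ind_congr {p q : Prop} (h : p ↔ q) : ind p = ind q := by
  rw [propext h]

theorem ind_not (p : Prop) : ind (¬ p) = 1 - ind p := by
  by_cases hp : p
  · rw [ind_true hp, ind_false (not_not.2 hp)]; norm_num
  · rw [ind_false hp, ind_true hp]; norm_num

theorem ind_and (p q : Prop) : ind (p ∧ q) = ind p * ind q := by
  by_cases hp : p
  · by_cases hq : q
    · rw [ind_true hp, ind_true hq, ind_true ⟨hp, hq⟩]; norm_num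
    · rw [ind_false hq, ind_false (fun h => hq h.2)]; norm_num
  · rw [ind_false hp, ind_false (fun h => hp h.1)]; norm_num

theorem ind_or_le (p q : Prop) : ind (p ∨ q) ≤ ind p + ind q := by
  by_cases hp : p
  · have := ind_nonneg q
    rw [ind_true hp, ind_true (Or.inl hp)]; linarith
  · by_cases hq : q
    · have := ind_nonneg p
      rw [ind_true hq, ind_true (Or.inr hq)]; linarith
    · rw [ind_false hp, ind_false hq, ind_false (fun h => h.elim hp hq)]; norm_num

theorem ind_sq (p : Prop) : ind p ^ 2 = ind p := by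
  by_cases hp : p
  · rw [ind_true hp]; norm_num
  · rw [ind_false hp]; norm_num

theorem ind_exists_le {α : Type*} (s : Finset α) (p : α → Prop) :
    ind (∃ a ∈ s, p a) ≤ ∑ a ∈ s, ind (p a) := by
  by_cases h : ∃ a ∈ s, p a
  · rw [ind_true h]
    obtain ⟨a, ha, hpa⟩ := h
    calc (1:ℝ) = ind (p a) := (ind_true hpa).symm
      _ ≤ ∑ a ∈ s, ind (p a) :=
        Finset.single_le_sum (f := fun a => ind (p a)) (fun _ _ => ind_nonneg _) ha
  · rw [ind_false h]
    exact Finset.sum_nonneg fun _ _ => ind_nonneg _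

end ind

section avg

variable {Ω Ω' : Type*} [Fintype Ω] [Fintype Ω']

theorem avg_add (f g : Ω → ℝ) : avg (fun ω => f ω + g ω) = avg f + avg g := by
  unfold avg; rw [Finset.sum_add_distrib, add_div]

theorem avg_sub (f g : Ω → ℝ) : avg (fun ω => f ω - g ω) = avg f - avg g := by
  unfold avg; rw [Finset.sum_sub_distrib, sub_div]

theorem avg_mul_left (c : ℝ) (f : Ω → ℝ) : avg (fun ω => c * f ω) = c * avg f := by
  unfold avg; rw [← Finset.mul_sum, mul_div_assoc]

theorem avg_mul_right (c : ℝ) (f : Ω → ℝ) : avg (fun ω => f ω * c) = avg f * c := by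
  unfold avg; rw [← Finset.sum_mul]; ring

theorem avg_const [Nonempty Ω] (c : ℝ) : avg (fun _ : Ω => c) = c := by
  unfold avg
  rw [Finset.sum_const, Finset.card_univ, nsmul_eq_mul, mul_comm, mul_div_assoc, div_self, mul_one]
  exact_mod_cast Fintype.card_ne_zero

theorem avg_const_le {c : ℝ} (hc : 0 ≤ c) : avg (fun _ : Ω => c) ≤ c := by
  rcases isEmpty_or_nonempty Ω with h | h
  · unfold avg; simpa using hc
  · rw [avg_const]

theorem avg_nonneg {f : Ω → ℝ} (h : ∀ ω, 0 ≤ f ω) : 0 ≤ avg f := by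
  unfold avg
  exact div_nonneg (Finset.sum_nonneg fun ω _ => h ω) (by positivity)

theorem avg_mono {f g : Ω → ℝ} (h : ∀ ω, f ω ≤ g ω) : avg f ≤ avg g := by
  unfold avg
  exact div_le_div_of_nonneg_right (Finset.sum_le_sum fun ω _ => h ω) (by positivity)

theorem avg_le_of_le {f : Ω → ℝ} {c : ℝ} (hc : 0 ≤ c) (h : ∀ ω, f ω ≤ c) : avg f ≤ c :=
  (avg_mono h).trans (avg_const_le hc)

theorem le_avg_of_le [Nonempty Ω] {f : Ω → ℝ} {c : ℝ} (h : ∀ ω, c ≤ f ω) : c ≤ avg f :=
  (avg_const (Ω := Ω) c).symm.le.trans (avg_mono h)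

theorem avg_sum {α : Type*} (s : Finset α) (f : α → Ω → ℝ) :
    avg (fun ω => ∑ a ∈ s, f a ω) = ∑ a ∈ s, avg (f a) := by
  unfold avg
  rw [Finset.sum_comm, Finset.sum_div]

theorem avg_equiv (e : Ω ≃ Ω') (f : Ω' → ℝ) : avg (fun ω => f (e ω)) = avg f := by
  unfold avg
  rw [Equiv.sum_comp e f, Fintype.card_congr e]

theorem avg_prod (f : Ω × Ω' → ℝ) :
    avg f = avg fun a => avg fun b => f (a, b) := by
  unfold avg
  rw [Fintype.sum_prod_type, Fintype.card_prod, Nat.cast_mul]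
  rw [← Finset.sum_div, div_div, mul_comm]

theorem avg_comm (f : Ω → Ω' → ℝ) :
    (avg fun a => avg fun b => f a b) = avg fun b => avg fun a => f a b := by
  rw [← avg_prod (fun p : Ω × Ω' => f p.1 p.2), ← avg_prod (fun p : Ω' × Ω => f p.2 p.1)]
  exact avg_equiv (Equiv.prodComm Ω Ω') (fun p : Ω' × Ω => f p.2 p.1)

theorem avg_fst [Nonempty Ω'] (f : Ω → ℝ) : avg (fun p : Ω × Ω' => f p.1) = avg f := by
  rw [avg_prod]; simp only [avg_const]

theorem avg_snd [Nonempty Ω] (f : Ω' → ℝ) : avg (fun p : Ω × Ω' => f p.2) = avg f := by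
  rw [avg_prod]; simp only [avg_const]

/-- Cauchy-Schwarz for averages -/
theorem avg_mul_sq_le (f g : Ω → ℝ) :
    (avg fun ω => f ω * g ω) ^ 2 ≤ (avg fun ω => f ω ^ 2) * avg fun ω => g ω ^ 2 := by
  unfold avg
  rw [div_pow, div_mul_div_comm, ← sq]
  exact div_le_div_of_nonneg_right (Finset.sum_mul_sq_le_sq_mul_sq _ _ _) (by positivity)

theorem avg_mul_le_sqrt (f g : Ω → ℝ) :
    (avg fun ω => f ω * g ω) ≤ Real.sqrt ((avg fun ω => f ω ^ 2) * avg fun ω => g ω ^ 2) :=
  Real.le_sqrt_of_sq_le (avg_mul_sq_le f g)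

/-- averages over functions on a sum type -/
theorem avg_sumArrow {ι κ : Type*} [Fintype ι] [Fintype κ] [DecidableEq ι] [DecidableEq κ]
    {E : Type*} [Fintype E] (f : (ι ⊕ κ → E) → ℝ) :
    avg f = avg fun p : (ι → E) × (κ → E) => f (Sum.elim p.1 p.2) := by
  rw [← avg_equiv (Equiv.sumArrowEquivProdArrow ι κ E).symm f]
  rfl

/-- reindexing -/
theorem avg_arrow_congr {ι κ : Type*} [Fintype ι] [Fintype κ] [DecidableEq ι] [DecidableEq κ]
    {E : Type*} [Fintype E] (e : κ ≃ ι) (f : (κ → E) → ℝ) :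
    (avg fun g : ι → E => f (g ∘ e)) = avg f := by
  exact avg_equiv (Equiv.arrowCongr e.symm (Equiv.refl E)) f

/-- marginals: only the coordinates in the image of an injection matter -/
theorem avg_marginal {ι κ : Type*} [Fintype ι] [Fintype κ] [DecidableEq ι] [DecidableEq κ]
    {E : Type*} [Fintype E] [Nonempty E] (j : κ → ι) (hj : Function.Injective j)
    (f : (κ → E) → ℝ) :
    (avg fun g : ι → E => f (g ∘ j)) = avg f := by
  classical
  let e : κ ⊕ {i : ι // i ∉ Set.range j} ≃ ι :=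
    (Equiv.sumCongr (Equiv.ofInjective j hj) (Equiv.refl _)).trans
      (Equiv.Set.sumCompl (Set.range j))
  have he : ∀ a, e (Sum.inl a) = j a := by
    intro a
    rfl
  have h1 := avg_arrow_congr (E := E) e
    (fun h : κ ⊕ {i : ι // i ∉ Set.range j} → E => f (h ∘ Sum.inl))
  have h2 : (fun g : ι → E => f ((g ∘ e) ∘ Sum.inl)) = fun g : ι → E => f (g ∘ j) := by
    rfl
  rw [h2] at h1
  rw [h1, avg_sumArrow]
  have h3 : (fun p : (κ → E) × ({i : ι // i ∉ Set.range j} → E) =>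
      f ((Sum.elim p.1 p.2) ∘ Sum.inl)) = fun p => f p.1 := by
    funext p
    congr 1
  rw [h3]
  exact avg_fst f

end avg

section pr

variable {Ω Ω' : Type*} [Fintype Ω] [Fintype Ω']

theorem pr_nonneg (p : Ω → Prop) : 0 ≤ pr p := avg_nonneg fun _ => ind_nonneg _

theorem pr_le_one (p : Ω → Prop) : pr p ≤ 1 := avg_le_of_le zero_le_one fun _ => ind_le_one _

theorem pr_mono {p q : Ω → Prop} (h : ∀ ω, p ω → q ω) : pr p ≤ pr q :=
  avg_mono fun ω => ind_mono (h ω)

theorem pr_congr {p q : Ω → Prop} (h : ∀ ω, p ω ↔ q ω) : pr p = pr q := by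
  unfold pr; congr 1; funext ω; exact ind_congr (h ω)

theorem pr_or_le (p q : Ω → Prop) : pr (fun ω => p ω ∨ q ω) ≤ pr p + pr q := by
  unfold pr; rw [← avg_add]; exact avg_mono fun ω => ind_or_le _ _

theorem pr_exists_le {α : Type*} (s : Finset α) (p : α → Ω → Prop) :
    pr (fun ω => ∃ a ∈ s, p a ω) ≤ ∑ a ∈ s, pr (p a) := by
  unfold pr; rw [← avg_sum]; exact avg_mono fun ω => ind_exists_le _ _

theorem pr_exists_fintype_le {α : Type*} [Fintype α] (p : α → Ω → Prop) :
    pr (fun ω => ∃ a, p a ω) ≤ ∑ a, pr (p a) := by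
  refine le_trans (pr_mono (q := fun ω => ∃ a ∈ Finset.univ, p a ω) ?_) (pr_exists_le _ _)
  rintro ω ⟨a, ha⟩
  exact ⟨a, Finset.mem_univ a, ha⟩

theorem pr_not [Nonempty Ω] (p : Ω → Prop) : pr (fun ω => ¬ p ω) = 1 - pr p := by
  unfold pr
  have : (fun ω => ind (¬ p ω)) = fun ω => 1 - ind (p ω) := by funext ω; exact ind_not _
  rw [this, avg_sub, avg_const]

theorem pr_equiv (e : Ω ≃ Ω') (p : Ω' → Prop) : pr (fun ω => p (e ω)) = pr p :=
  avg_equiv e fun ω => ind (p ω)

theorem pr_prod (p : Ω × Ω' → Prop) :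
    pr p = avg fun a => pr fun b => p (a, b) := avg_prod _

theorem pr_prod' (p : Ω × Ω' → Prop) :
    pr p = avg fun b => pr fun a => p (a, b) := by
  rw [pr_prod]
  exact avg_comm _

theorem pr_prod_le {p : Ω × Ω' → Prop} {c : ℝ} (hc : 0 ≤ c)
    (h : ∀ a, pr (fun b => p (a, b)) ≤ c) : pr p ≤ c := by
  rw [pr_prod]; exact avg_le_of_le hc h

theorem pr_prod_le' {p : Ω × Ω' → Prop} {c : ℝ} (hc : 0 ≤ c)
    (h : ∀ b, pr (fun a => p (a, b)) ≤ c) : pr p ≤ c := by
  rw [pr_prod']; exact avg_le_of_le hc h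

theorem pr_eq_ncard (p : Ω → Prop) : pr p = ({ω | p ω}.ncard : ℝ) / Fintype.card Ω := by
  classical
  unfold pr avg
  congr 1
  rw [Set.ncard_eq_toFinset_card']
  unfold ind
  rw [Finset.sum_ite, Finset.sum_const_zero, add_zero, Finset.sum_const, nsmul_eq_mul, mul_one]
  congr 2
  ext ω; simp

/-- Markov -/
theorem pr_le_avg {f : Ω → ℝ} {p : Ω → Prop} (hf : ∀ ω, 0 ≤ f ω) (h : ∀ ω, p ω → 1 ≤ f ω) :
    pr p ≤ avg f := by
  refine avg_mono fun ω => ?_
  by_cases hp : p ω
  · rw [ind_true hp]; exact h ω hp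
  · rw [ind_false hp]; exact hf ω

end pr

end Pool.ER
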